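import Mathlib
import Pool.Agent.H807R2.Dav1

/-!
# Project ERG (helper591), part 1: spectral positivity

An inequality between sums of squares of trigonometric polynomials holds for every stationary
sequence of vectors in an inner product space (no spectral theorem; a finite Parseval argument).
-/

set_option autoImplicit false

namespace Pool.Agent.Run7.h591.EG

open Finset
open Pool.Agent.H807R2.Dav (ee ee_add norm_ee ee_eq ee_int ee_zero)

variable {H : Type*} [NormedAddCommGroup H] [InnerProductSpace ℂ H]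

/-- stationary sequences of vectors -/
def Sta (v : ℕ → H) : Prop :=
  ∀ m n k : ℕ, inner ℂ (v (m + k)) (v (n + k)) = inner ℂ (v m) (v n)

/-- the trigonometric polynomial with coefficients `c n`, `n < N` -/
noncomputable def Pt (c : ℕ → ℂ) (N : ℕ) (θ : ℝ) : ℂ := ∑ n ∈ range N, c n * ee (n * θ)

/-- the same combination of the vectors `v n` -/
noncomputable def Vt (c : ℕ → ℂ) (N : ℕ) (v : ℕ → H) : H := ∑ n ∈ range N, c n • v n

lemma norm_sq_sum (s : Finset ℕ) (c : ℕ → ℂ) (v : ℕ → H) :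
    ((‖∑ n ∈ s, c n • v n‖ ^ 2 : ℝ) : ℂ) =
      ∑ m ∈ s, ∑ n ∈ s, (starRingEnd ℂ) (c m) * c n * inner ℂ (v m) (v n) := by
  have h := inner_self_eq_norm_sq_to_K (𝕜 := ℂ) (∑ n ∈ s, c n • v n)
  have h2 : ((‖∑ n ∈ s, c n • v n‖ ^ 2 : ℝ) : ℂ) = inner ℂ (∑ n ∈ s, c n • v n) (∑ n ∈ s, c n • v n) := by
    rw [h]; push_cast; rfl
  rw [h2, sum_inner]
  refine sum_congr rfl fun m _ => ?_
  rw [inner_sum]
  refine sum_congr rfl fun n _ => ?_
  rw [inner_smul_left, inner_smul_right]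
  ring

lemma shift_norm {v : ℕ → H} (hv : Sta v) (s : Finset ℕ) (c : ℕ → ℂ) (k : ℕ) :
    ‖∑ n ∈ s, c n • v (n + k)‖ = ‖∑ n ∈ s, c n • v n‖ := by
  have h1 := norm_sq_sum s c (fun n => v (n + k))
  have h2 := norm_sq_sum s c v
  have h3 : ((‖∑ n ∈ s, c n • v (n + k)‖ ^ 2 : ℝ) : ℂ) = ((‖∑ n ∈ s, c n • v n‖ ^ 2 : ℝ) : ℂ) := by
    rw [h1, h2]
    refine sum_congr rfl fun m _ => sum_congr rfl fun n _ => ?_
    rw [hv m n k]
  have h4 : ‖∑ n ∈ s, c n • v (n + k)‖ ^ 2 = ‖∑ n ∈ s, c n • v n‖ ^ 2 := by exact_mod_cast h3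
  exact (pow_left_inj₀ (norm_nonneg _) (norm_nonneg _) (by norm_num)).1 h4

lemma norm_sta {v : ℕ → H} (hv : Sta v) (n : ℕ) : ‖v n‖ = ‖v 0‖ := by
  have := shift_norm hv {0} (fun _ => 1) n
  simpa using this

lemma ee_nat_pow (x : ℝ) (n : ℕ) : ee (n * x) = ee x ^ n := by
  induction n with
  | zero => simp [ee_zero]
  | succ n ih =>
    rw [pow_succ, ← ih, ← ee_add]
    congr 1
    push_cast; ring

lemma ee_conj (x : ℝ) : (starRingEnd ℂ) (ee x) = ee (-x) := by
  rw [ee_eq, ee_eq, ← Complex.exp_conj, map_mul, Complex.conj_ofReal, Complex.conj_I]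
  congr 1
  push_cast; ring

lemma ee_eq_one {x : ℝ} (h : ee x = 1) : ∃ k : ℤ, x = k := by
  rw [ee_eq, Complex.exp_eq_one_iff] at h
  obtain ⟨k, hk⟩ := h
  refine ⟨k, ?_⟩
  have hpi : (2 * (Real.pi : ℂ) * Complex.I) ≠ 0 := by
    simp [Real.pi_ne_zero]
  have h1 : (((2 * Real.pi * x : ℝ) : ℂ) * Complex.I) = (x : ℂ) * (2 * (Real.pi : ℂ) * Complex.I) := by
    push_cast; ring
  rw [h1] at hk
  have := mul_right_cancel₀ hpi hk
  exact_mod_cast this

/-- orthogonality -/
lemma orth (M : ℕ) (i j : ℕ) (hi : i < M) (hj : j < M) :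
    ∑ s ∈ range M, ee (((j : ℝ) - i) * ((s : ℝ) / M)) = if i = j then (M : ℂ) else 0 := by
  have hM : 0 < M := by omega
  have hMr : (M : ℝ) ≠ 0 := by positivity
  split_ifs with h
  · subst h
    simp [ee_zero]
  · set ζ : ℂ := ee (((j : ℝ) - i) / M) with hζ
    have h1 : ∀ s ∈ range M, ee (((j : ℝ) - i) * ((s : ℝ) / M)) = ζ ^ s := by
      intro s _
      rw [hζ, ← ee_nat_pow]
      congr 1
      ring
    rw [sum_congr rfl h1]
    have h2 : ζ ^ M = 1 := by
      rw [hζ, ← ee_nat_pow]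
      have : (M : ℝ) * (((j : ℝ) - i) / M) = (((j : ℤ) - i : ℤ) : ℝ) := by
        push_cast
        field_simp
      rw [this, ee_int]
    have h3 : ζ ≠ 1 := by
      intro hcon
      obtain ⟨k, hk⟩ := ee_eq_one (x := ((j : ℝ) - i) / M) hcon
      rw [div_eq_iff hMr] at hk
      have h4 : ((j : ℤ) - i) = k * M := by exact_mod_cast hk
      have h5 : k = 0 := by
        have h6 : |(k * M : ℤ)| < M := by
          rw [← h4, abs_lt]
          constructor <;> omega
        rw [abs_mul, Nat.abs_cast] at h6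
        have h7 : |k| < 1 := by
          by_contra hc
          push Not at hc
          nlinarith [(by exact_mod_cast hM : (0 : ℤ) < M)]
        exact Int.abs_lt_one_iff.1 h7
      rw [h5] at h4
      apply h
      omega
    have h4 := geom_sum_mul ζ M
    rw [h2, sub_self] at h4
    rcases mul_eq_zero.1 h4 with h5 | h5
    · exact h5
    · exact absurd (sub_eq_zero.1 h5) h3

/-- Parseval -/
lemma pars (M : ℕ) (u : ℕ → H) :
    ∑ s ∈ range M, ‖∑ i ∈ range M, ee ((i : ℝ) * ((s : ℝ) / M)) • u i‖ ^ 2 =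
      M * ∑ i ∈ range M, ‖u i‖ ^ 2 := by
  have h : ((∑ s ∈ range M, ‖∑ i ∈ range M, ee ((i : ℝ) * ((s : ℝ) / M)) • u i‖ ^ 2 : ℝ) : ℂ) =
      ((M * ∑ i ∈ range M, ‖u i‖ ^ 2 : ℝ) : ℂ) := by
    rw [Complex.ofReal_sum]
    have h1 : ∀ s ∈ range M, ((‖∑ i ∈ range M, ee ((i : ℝ) * ((s : ℝ) / M)) • u i‖ ^ 2 : ℝ) : ℂ) =
        ∑ i ∈ range M, ∑ j ∈ range M, ee (((j : ℝ) - i) * ((s : ℝ) / M)) * inner ℂ (u i) (u j) := by
      intro s _
      rw [norm_sq_sum]
      refine sum_congr rfl fun i _ => sum_congr rfl fun j _ => ?_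
      rw [ee_conj, ← ee_add]
      congr 2
      ring
    rw [sum_congr rfl h1, sum_comm]
    push_cast
    rw [mul_sum]
    refine sum_congr rfl fun i hi => ?_
    rw [sum_comm]
    have h2 : ∀ j ∈ range M, ∑ s ∈ range M, ee (((j : ℝ) - i) * ((s : ℝ) / M)) * inner ℂ (u i) (u j) =
        if i = j then (M : ℂ) * inner ℂ (u i) (u i) else 0 := by
      intro j hj
      rw [← sum_mul, orth M i j (mem_range.1 hi) (mem_range.1 hj)]
      split_ifs with h
      · subst h; rfl
      · rw [zero_mul]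
    rw [sum_congr rfl h2, sum_ite_eq, if_pos hi]
    congr 1
    have := inner_self_eq_norm_sq_to_K (𝕜 := ℂ) (u i)
    rw [this]; rfl
  exact_mod_cast h

/-- the pieces of the convolution -/
noncomputable def uu (c : ℕ → ℂ) (N L : ℕ) (v : ℕ → H) (i : ℕ) : H :=
  ∑ n ∈ range N, if N ≤ i + n ∧ i + n < N + L then c n • v (i + n - N) else 0

lemma conv (c : ℕ → ℂ) (N L : ℕ) (v : ℕ → H) (x : ℝ) :
    ‖Pt c N (-x)‖ * ‖∑ j ∈ range L, ee ((j : ℝ) * x) • v j‖ =
      ‖∑ i ∈ range (L + N), ee ((i : ℝ) * x) • uu c N L v i‖ := by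
  have h1 : ∑ i ∈ range (L + N), ee ((i : ℝ) * x) • uu c N L v i =
      ee ((N : ℝ) * x) • (Pt c N (-x) • ∑ j ∈ range L, ee ((j : ℝ) * x) • v j) := by
    unfold uu Pt
    simp only [smul_sum, sum_smul]
    rw [sum_comm]
    conv_rhs => rw [sum_comm]
    refine sum_congr rfl fun n hn => ?_
    rw [mem_range] at hn
    have h2 : ∀ i ∈ range (L + N), (ee ((i : ℝ) * x) • if N ≤ i + n ∧ i + n < N + L then c n • v (i + n - N) else 0) =
        if N ≤ i + n ∧ i + n < N + L then ee ((i : ℝ) * x) • (c n • v (i + n - N)) else 0 := by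
      intro i _
      split_ifs
      · rfl
      · rw [smul_zero]
    rw [sum_congr rfl h2, ← sum_filter]
    symm
    refine sum_nbij' (fun j => j + N - n) (fun i => i + n - N) ?_ ?_ ?_ ?_ ?_
    · intro j hj
      rw [mem_range] at hj
      rw [mem_filter, mem_range]
      omega
    · intro i hi
      rw [mem_filter, mem_range] at hi
      rw [mem_range]
      omega
    · intro j hj
      rw [mem_range] at hj
      omega
    · intro i hi
      rw [mem_filter, mem_range] at hi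
      omega
    · intro j hj
      rw [mem_range] at hj
      have e : j + N - n + n - N = j := by omega
      rw [e, smul_smul, smul_smul, smul_smul]
      congr 1
      have h3 : ((j + N - n : ℕ) : ℝ) = j + N - n := by
        rw [Nat.cast_sub (by omega)]; push_cast; ring
      rw [h3]
      have h4 : ee (((j : ℝ) + N - n) * x) = ee ((N : ℝ) * x) * ee ((n : ℝ) * -x) * ee ((j : ℝ) * x) := by
        rw [← ee_add, ← ee_add]
        congr 1
        ring
      rw [h4]
      ring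
  rw [h1, norm_smul, norm_ee, one_mul, norm_smul]

lemma uu_mid {v : ℕ → H} (hv : Sta v) (c : ℕ → ℂ) (N M i : ℕ) (hi : N ≤ i) (hi2 : i < N + M) :
    ‖uu c N (M + N) v i‖ = ‖Vt c N v‖ := by
  have h1 : uu c N (M + N) v i = ∑ n ∈ range N, c n • v (n + (i - N)) := by
    unfold uu
    refine sum_congr rfl fun n hn => ?_
    rw [mem_range] at hn
    rw [if_pos (by omega)]
    congr 2
    omega
  rw [h1, shift_norm hv]
  rfl

lemma uu_le {v : ℕ → H} (hv : Sta v) (c : ℕ → ℂ) (N L i : ℕ) :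
    ‖uu c N L v i‖ ≤ (∑ n ∈ range N, ‖c n‖) * ‖v 0‖ := by
  unfold uu
  rw [sum_mul]
  refine (norm_sum_le _ _).trans (sum_le_sum fun n _ => ?_)
  split_ifs
  · rw [norm_smul, norm_sta hv]
  · rw [norm_zero]; positivity

/-- **Spectral positivity**: an inequality between sums of squares of trigonometric polynomials
passes to every stationary sequence. -/
theorem pd {ι κ : Type*} (s : Finset ι) (t : Finset κ) (c : ι → ℕ → ℂ) (d : κ → ℕ → ℂ) (N : ℕ)
    (K : ℝ) (v : ℕ → H) (hv : Sta v)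
    (h : ∀ θ : ℝ, ∑ i ∈ s, ‖Pt (c i) N θ‖ ^ 2 ≤ K + ∑ j ∈ t, ‖Pt (d j) N θ‖ ^ 2) :
    ∑ i ∈ s, ‖Vt (c i) N v‖ ^ 2 ≤ K * ‖v 0‖ ^ 2 + ∑ j ∈ t, ‖Vt (d j) N v‖ ^ 2 := by
  set B : κ → ℝ := fun j => ((∑ n ∈ range N, ‖d j n‖) * ‖v 0‖) ^ 2 with hB
  have key : ∀ M : ℕ, (M : ℝ) * ∑ i ∈ s, ‖Vt (c i) N v‖ ^ 2 ≤
      K * ((M + N) * ‖v 0‖ ^ 2) + ∑ j ∈ t, (M * ‖Vt (d j) N v‖ ^ 2 + 2 * N * B j) := by
    intro M
    rcases Nat.eq_zero_or_pos (M + N + N) with h0 | h0
    · have hM : M = 0 := by omega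
      have hN : N = 0 := by omega
      subst hM; subst hN
      simp
    set L : ℕ := M + N with hL
    set R : ℕ := L + N with hR
    have hRpos : (0 : ℝ) < R := by
      have : 0 < R := by omega
      exact_mod_cast this
    set G : ℕ → ℝ := fun σ => ‖∑ j ∈ range L, ee ((j : ℝ) * ((σ : ℝ) / R)) • v j‖ with hG
    have hpar : ∀ a : ℕ → ℂ, ∑ σ ∈ range R, ‖Pt a N (-((σ : ℝ) / R))‖ ^ 2 * G σ ^ 2 =
        R * ∑ i ∈ range R, ‖uu a N L v i‖ ^ 2 := by
      intro a
      rw [← pars R]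
      refine sum_congr rfl fun σ _ => ?_
      rw [← mul_pow, hG]
      simp only
      rw [conv]
    have hG2 : ∑ σ ∈ range R, G σ ^ 2 = R * (L * ‖v 0‖ ^ 2) := by
      have h1 := pars R (fun i => if i < L then v i else 0)
      have h2 : ∑ i ∈ range R, ‖(if i < L then v i else 0 : H)‖ ^ 2 = L * ‖v 0‖ ^ 2 := by
        have h3 : ∀ i ∈ range R, ‖(if i < L then v i else 0 : H)‖ ^ 2 = if i < L then ‖v 0‖ ^ 2 else 0 := by
          intro i _
          split_ifs
          · rw [norm_sta hv]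
          · simp
        rw [sum_congr rfl h3, ← sum_filter, sum_const, nsmul_eq_mul]
        congr 2
        have : (range R).filter (fun i => i < L) = range L := by
          ext i; rw [mem_filter, mem_range, mem_range]; omega
        rw [this, card_range]
      rw [h2] at h1
      rw [← h1]
      refine sum_congr rfl fun σ _ => ?_
      rw [hG]
      simp only
      congr 2
      have h3 : ∀ i ∈ range R, ee ((i : ℝ) * ((σ : ℝ) / R)) • (if i < L then v i else 0 : H) =
          if i < L then ee ((i : ℝ) * ((σ : ℝ) / R)) • v i else 0 := by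
        intro i _
        split_ifs
        · rfl
        · rw [smul_zero]
      rw [sum_congr rfl h3, ← sum_filter]
      have : (range R).filter (fun i => i < L) = range L := by
        ext i; rw [mem_filter, mem_range, mem_range]; omega
      rw [this]
    -- lower bound
    have hlow : ∀ i ∈ s, (M : ℝ) * ‖Vt (c i) N v‖ ^ 2 ≤ ∑ k ∈ range R, ‖uu (c i) N L v k‖ ^ 2 := by
      intro i _
      have h1 : ∑ k ∈ Ico N (N + M), ‖uu (c i) N L v k‖ ^ 2 = M * ‖Vt (c i) N v‖ ^ 2 := by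
        have h2 : ∀ k ∈ Ico N (N + M), ‖uu (c i) N L v k‖ ^ 2 = ‖Vt (c i) N v‖ ^ 2 := by
          intro k hk
          rw [mem_Ico] at hk
          rw [hL, uu_mid hv (c i) N M k hk.1 hk.2]
        rw [sum_congr rfl h2, sum_const, nsmul_eq_mul, Nat.card_Ico]
        congr 2
        omega
      rw [← h1]
      apply sum_le_sum_of_subset_of_nonneg
      · intro k hk
        rw [mem_Ico] at hk
        rw [mem_range]
        omega
      · intro k _ _
        positivity
    have hup : ∀ j ∈ t, ∑ k ∈ range R, ‖uu (d j) N L v k‖ ^ 2 ≤ M * ‖Vt (d j) N v‖ ^ 2 + 2 * N * B j := by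
      intro j _
      have h1 : ∀ k ∈ range R, ‖uu (d j) N L v k‖ ^ 2 ≤
          (if k ∈ Ico N (N + M) then ‖Vt (d j) N v‖ ^ 2 else 0) + (if k ∈ Ico N (N + M) then 0 else B j) := by
        intro k _
        by_cases hk : k ∈ Ico N (N + M)
        · rw [if_pos hk, if_pos hk, add_zero]
          rw [mem_Ico] at hk
          rw [hL, uu_mid hv (d j) N M k hk.1 hk.2]
        · rw [if_neg hk, if_neg hk, zero_add]
          exact pow_le_pow_left₀ (norm_nonneg _) (uu_le hv _ _ _ _) 2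
      refine (sum_le_sum h1).trans ?_
      rw [sum_add_distrib]
      have h2 : ∑ k ∈ range R, (if k ∈ Ico N (N + M) then ‖Vt (d j) N v‖ ^ 2 else 0) = M * ‖Vt (d j) N v‖ ^ 2 := by
        rw [← sum_filter, sum_const, nsmul_eq_mul]
        congr 2
        have : (range R).filter (fun k => k ∈ Ico N (N + M)) = Ico N (N + M) := by
          ext k; rw [mem_filter, mem_range, mem_Ico]; omega
        rw [this, Nat.card_Ico]; omega
      have h3 : ∑ k ∈ range R, (if k ∈ Ico N (N + M) then 0 else B j) = 2 * N * B j := by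
        have h4 : ∀ k ∈ range R, (if k ∈ Ico N (N + M) then 0 else B j) = if ¬ k ∈ Ico N (N + M) then B j else 0 := by
          intro k _
          split_ifs <;> simp_all
        rw [sum_congr rfl h4, ← sum_filter, sum_const, nsmul_eq_mul]
        congr 1
        have h5 : ((range R).filter (fun k => ¬ k ∈ Ico N (N + M))).card = 2 * N := by
          have h6 := card_filter_add_card_filter_not (s := range R) (fun k => k ∈ Ico N (N + M))
          have h7 : (range R).filter (fun k => k ∈ Ico N (N + M)) = Ico N (N + M) := by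
            ext k; rw [mem_filter, mem_range, mem_Ico]; omega
          rw [h7, Nat.card_Ico, card_range] at h6
          omega
        rw [h5]; push_cast; ring
      rw [h2, h3]
    have h5 : (R : ℝ) * ∑ i ∈ s, ∑ k ∈ range R, ‖uu (c i) N L v k‖ ^ 2 ≤
        K * (R * (L * ‖v 0‖ ^ 2)) + R * ∑ j ∈ t, ∑ k ∈ range R, ‖uu (d j) N L v k‖ ^ 2 := by
      rw [mul_sum, mul_sum, ← hG2]
      simp only [← hpar]
      rw [sum_comm, mul_sum]
      conv_rhs => rw [sum_comm (s := t)]
      rw [← sum_add_distrib]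
      refine sum_le_sum fun σ _ => ?_
      rw [← sum_mul, ← sum_mul, ← add_mul]
      exact mul_le_mul_of_nonneg_right (h _) (by positivity)
    have h6 : ∑ i ∈ s, ∑ k ∈ range R, ‖uu (c i) N L v k‖ ^ 2 ≤
        K * (L * ‖v 0‖ ^ 2) + ∑ j ∈ t, ∑ k ∈ range R, ‖uu (d j) N L v k‖ ^ 2 := by
      have : (R : ℝ) * ∑ i ∈ s, ∑ k ∈ range R, ‖uu (c i) N L v k‖ ^ 2 ≤
        R * (K * (L * ‖v 0‖ ^ 2) + ∑ j ∈ t, ∑ k ∈ range R, ‖uu (d j) N L v k‖ ^ 2) := by
        rw [mul_add]; linarith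
      exact le_of_mul_le_mul_left this hRpos
    rw [mul_sum]
    refine (sum_le_sum hlow).trans (h6.trans ?_)
    have h7 : ((L : ℕ) : ℝ) = M + N := by rw [hL]; push_cast; ring
    rw [h7]
    exact add_le_add le_rfl (sum_le_sum hup)
  by_contra hcon
  push Not at hcon
  set Δ : ℝ := ∑ i ∈ s, ‖Vt (c i) N v‖ ^ 2 - (K * ‖v 0‖ ^ 2 + ∑ j ∈ t, ‖Vt (d j) N v‖ ^ 2) with hΔ
  have hΔ0 : 0 < Δ := by rw [hΔ]; linarith
  obtain ⟨M, hM⟩ := exists_nat_gt ((K * (N * ‖v 0‖ ^ 2) + ∑ j ∈ t, 2 * N * B j) / Δ)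
  rw [div_lt_iff₀ hΔ0] at hM
  have h1 := key M
  rw [sum_add_distrib, ← mul_sum (s := t)] at h1
  rw [hΔ] at hM
  nlinarith

end Pool.Agent.Run7.h591.EG
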