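import Mathlib
import Pool.Agent.Run7.h794.MK.Stm
import Pool.Agent.Run7.h591.EG.Pd

/-!
# Project ERG (helper591), part 2: stationary sequences in all subintervals of almost all intervals
`((n - 1)^2, (n + 1)^2]`
-/

set_option autoImplicit false
set_option maxHeartbeats 4000000

universe u

namespace Pool.Agent.Run7.h591.EG

open Finset
open Pool.Agent.Run7.h794.MK (W MS S_ALL)
open Pool.Agent.H807R2.Dav (ee ee_add norm_ee ee_eq ee_int ee_zero)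
open Pool.Agent.H373R2.T7 (lamz Vz Vz_inv_le lamz_nonneg Vz_pos ev_L' ev_log')

section
variable {H : Type u} [NormedAddCommGroup H] [InnerProductSpace ℂ H]

/-- the sum over `(a, b]` -/
noncomputable def Sw (f : ℕ → ℝ) (v : ℕ → H) (a b : ℕ) : H := ∑ n ∈ Ioc a b, ((f n : ℝ) : ℂ) • v n

lemma sum_ite_Ioc {M : Type*} [AddCommMonoid M] (g : ℕ → M) (a b N : ℕ) (h : b < N) :
    ∑ n ∈ range N, (if n ∈ Ioc a b then g n else 0) = ∑ n ∈ Ioc a b, g n := by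
  rw [← sum_filter]
  congr 1
  ext n
  rw [mem_filter, mem_range, mem_Ioc]
  omega

lemma Vt_win (f : ℕ → ℂ) (v : ℕ → H) (a b N : ℕ) (h : b < N) :
    Vt (fun n => if n ∈ Ioc a b then f n else 0) N v = ∑ n ∈ Ioc a b, f n • v n := by
  unfold Vt
  rw [← sum_ite_Ioc _ a b N h]
  refine sum_congr rfl fun n _ => ?_
  by_cases hn : n ∈ Ioc a b
  · simp only [if_pos hn]
  · simp only [if_neg hn, zero_smul]

lemma Pt_win (f : ℕ → ℂ) (a b N : ℕ) (h : b < N) (θ : ℝ) :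
    Pt (fun n => if n ∈ Ioc a b then f n else 0) N θ = ∑ n ∈ Ioc a b, f n * ee (n * θ) := by
  unfold Pt
  rw [← sum_ite_Ioc _ a b N h]
  refine sum_congr rfl fun n _ => ?_
  by_cases hn : n ∈ Ioc a b
  · simp only [if_pos hn]
  · simp only [if_neg hn, zero_mul]

/-- the mean square over the windows -/
lemma win_ms {v : ℕ → H} (hv : Sta v) (f : ℕ → ℝ) (x Y : ℕ) (K : ℝ) (h : ∀ α : ℝ, MS f α x Y ≤ K) :
    ∑ m ∈ Ioc x (2 * x), ‖Sw f v m (m + Y)‖ ^ 2 ≤ K * ‖v 0‖ ^ 2 := by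
  have h1 := pd (Ioc x (2 * x)) (∅ : Finset ℕ)
    (fun m n => if n ∈ Ioc m (m + Y) then ((f n : ℝ) : ℂ) else 0) (fun _ _ => 0) (2 * x + Y + 1) K v hv
    (by
      intro θ
      rw [sum_empty, add_zero]
      refine le_trans (le_of_eq ?_) (h θ)
      unfold MS W
      refine sum_congr rfl fun m hm => ?_
      rw [mem_Ioc] at hm
      rw [Pt_win _ _ _ _ (by omega)])
  rw [sum_empty, add_zero] at h1
  refine le_trans (le_of_eq ?_) h1
  refine sum_congr rfl fun m hm => ?_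
  rw [mem_Ioc] at hm
  rw [Vt_win _ _ _ _ _ (by omega)]
  rfl

lemma sum_blocks (a : ℕ → ℕ) (ha : Monotone a) (f : ℕ → ℝ) (i j : ℕ) (hij : i ≤ j) :
    ∑ n ∈ Ico i j, ∑ m ∈ Ico (a n) (a (n + 1)), f m = ∑ m ∈ Ico (a i) (a j), f m := by
  induction j, hij using Nat.le_induction with
  | base => simp
  | succ j hij ih =>
    rw [sum_Ico_succ_top hij, ih, sum_Ico_consecutive _ (ha hij) (ha (Nat.le_succ j))]

/-- the sum over `(a, b]` against the windows starting in `[a, b)` -/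
lemma sub_le {v : ℕ → H} (hv : Sta v) (f : ℕ → ℝ) (G : ℝ) (Y a b : ℕ) (hab : a ≤ b)
    (hG : ∀ k, a < k → k ≤ b + Y → |f k| ≤ G) :
    Y * ‖Sw f v a b‖ ≤ ∑ m ∈ Ico a b, ‖Sw f v m (m + Y)‖ + 2 * (Y : ℝ) ^ 2 * G * ‖v 0‖ := by
  set F : ℕ → H := fun n => ((f n : ℝ) : ℂ) • v n with hF
  have hFn : ∀ k, a < k → k ≤ b + Y → ‖F k‖ ≤ G * ‖v 0‖ := by
    intro k h1 h2
    rw [hF]
    simp only
    rw [norm_smul, Complex.norm_real, Real.norm_eq_abs, norm_sta hv]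
    exact mul_le_mul_of_nonneg_right (hG k h1 h2) (norm_nonneg _)
  -- the sum of the window sums
  have h1 : ∑ m ∈ Ico a b, Sw f v m (m + Y) = ∑ j ∈ range Y, ∑ k ∈ Ioc (a + j) (b + j), F k := by
    have h2 : ∀ m ∈ Ico a b, Sw f v m (m + Y) = ∑ j ∈ range Y, F (m + 1 + j) := by
      intro m _
      unfold Sw
      have : Ioc m (m + Y) = Ico (m + 1) (m + 1 + Y) := by
        ext k; rw [mem_Ioc, mem_Ico]; omega
      rw [this, sum_Ico_eq_sum_range]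
      have e : m + 1 + Y - (m + 1) = Y := by omega
      rw [e]
    rw [sum_congr rfl h2, sum_comm]
    refine sum_congr rfl fun j _ => ?_
    refine sum_nbij' (fun m => m + 1 + j) (fun k => k - 1 - j) ?_ ?_ ?_ ?_ ?_
    · intro m hm; rw [mem_Ico] at hm; rw [mem_Ioc]; omega
    · intro k hk; rw [mem_Ioc] at hk; rw [mem_Ico]; omega
    · intro m hm; omega
    · intro k hk; rw [mem_Ioc] at hk; omega
    · intro m _; rfl
  have h3 : ∀ j ∈ range Y, ‖∑ k ∈ Ioc a b, F k - ∑ k ∈ Ioc (a + j) (b + j), F k‖ ≤ 2 * Y * (G * ‖v 0‖) := by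
    intro j hj
    rw [mem_range] at hj
    have e1 : ∑ k ∈ Ioc a (a + j), F k + ∑ k ∈ Ioc (a + j) (b + j), F k = ∑ k ∈ Ioc a (b + j), F k :=
      sum_Ioc_consecutive _ (by omega) (by omega)
    have e2 : ∑ k ∈ Ioc a b, F k + ∑ k ∈ Ioc b (b + j), F k = ∑ k ∈ Ioc a (b + j), F k :=
      sum_Ioc_consecutive _ hab (by omega)
    have e3 : ∑ k ∈ Ioc a b, F k - ∑ k ∈ Ioc (a + j) (b + j), F k =
        ∑ k ∈ Ioc a (a + j), F k - ∑ k ∈ Ioc b (b + j), F k := by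
      rw [sub_eq_sub_iff_add_eq_add, e1, e2]
    rw [e3]
    have b1 : ‖∑ k ∈ Ioc a (a + j), F k‖ ≤ Y * (G * ‖v 0‖) := by
      have : ‖∑ k ∈ Ioc a (a + j), F k‖ ≤ ∑ k ∈ Ioc a (a + j), G * ‖v 0‖ := by
        refine (norm_sum_le _ _).trans (sum_le_sum fun k hk => ?_)
        rw [mem_Ioc] at hk
        exact hFn k hk.1 (by omega)
      refine this.trans ?_
      rw [sum_const, nsmul_eq_mul, Nat.card_Ioc]
      have h4 : a + j - a ≤ Y := by omega
      have h5 : ((a + j - a : ℕ) : ℝ) ≤ Y := by exact_mod_cast h4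
      rcases Nat.eq_zero_or_pos j with h0 | h0
      · subst h0
        have h6 : a + 0 - a = 0 := by omega
        rw [h6]
        simp only [Nat.cast_zero, zero_mul]
        have : 0 ≤ G * ‖v 0‖ := (norm_nonneg _).trans (hFn (a + 1) (by omega) (by omega))
        positivity
      · have : 0 ≤ G * ‖v 0‖ := (norm_nonneg _).trans (hFn (a + 1) (by omega) (by omega))
        exact mul_le_mul_of_nonneg_right h5 this
    have b2 : ‖∑ k ∈ Ioc b (b + j), F k‖ ≤ Y * (G * ‖v 0‖) := by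
      have : ‖∑ k ∈ Ioc b (b + j), F k‖ ≤ ∑ k ∈ Ioc b (b + j), G * ‖v 0‖ := by
        refine (norm_sum_le _ _).trans (sum_le_sum fun k hk => ?_)
        rw [mem_Ioc] at hk
        exact hFn k (by omega) (by omega)
      refine this.trans ?_
      rw [sum_const, nsmul_eq_mul, Nat.card_Ioc]
      have h4 : b + j - b ≤ Y := by omega
      have h5 : ((b + j - b : ℕ) : ℝ) ≤ Y := by exact_mod_cast h4
      have : 0 ≤ G * ‖v 0‖ := (norm_nonneg _).trans (hFn (a + 1) (by omega) (by omega))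
      exact mul_le_mul_of_nonneg_right h5 this
    refine (norm_sub_le _ _).trans ?_
    linarith
  have h4 : (Y : ℝ) * ‖Sw f v a b‖ = ‖∑ j ∈ range Y, ∑ k ∈ Ioc a b, F k‖ := by
    rw [sum_const, card_range, ← Nat.cast_smul_eq_nsmul ℝ, norm_smul, Real.norm_natCast]
    rfl
  have h5 : ∑ j ∈ range Y, ∑ k ∈ Ioc a b, F k = ∑ m ∈ Ico a b, Sw f v m (m + Y) +
      ∑ j ∈ range Y, (∑ k ∈ Ioc a b, F k - ∑ k ∈ Ioc (a + j) (b + j), F k) := by
    rw [h1, sum_sub_distrib]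
    abel
  rw [h4, h5]
  refine (norm_add_le _ _).trans (add_le_add (norm_sum_le _ _) ?_)
  refine (norm_sum_le _ _).trans ((sum_le_sum h3).trans ?_)
  rw [sum_const, card_range, nsmul_eq_mul]
  apply le_of_eq
  ring

/-- Cauchy and counting: few `n` with a large sum over the windows starting in `[(n-1)^2, (n+1)^2)` -/
lemma few (F : ℕ → ℝ) (hF : ∀ m, 0 ≤ F m) (N : ℕ) (hN : 1 ≤ N) (T δ : ℝ) (hδ : 0 < δ)
    (hT : ∑ m ∈ Ico (N ^ 2) ((2 * N + 1) ^ 2), F m ^ 2 ≤ T) :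
    (((Ioc N (2 * N)).filter (fun n => δ < ∑ m ∈ Ico ((n - 1) ^ 2) ((n + 1) ^ 2), F m)).card : ℝ) * δ ^ 2 ≤
      16 * N * T := by
  set Bad := (Ioc N (2 * N)).filter (fun n => δ < ∑ m ∈ Ico ((n - 1) ^ 2) ((n + 1) ^ 2), F m) with hBad
  set D : ℕ → ℝ := fun n => ∑ m ∈ Ico ((n - 1) ^ 2) ((n + 1) ^ 2), F m with hD
  have h1 : (Bad.card : ℝ) * δ ^ 2 ≤ ∑ n ∈ Bad, D n ^ 2 := by
    rw [← nsmul_eq_mul, ← sum_const]
    refine sum_le_sum fun n hn => ?_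
    rw [hBad, mem_filter] at hn
    exact pow_le_pow_left₀ hδ.le hn.2.le 2
  have h2 : ∑ n ∈ Bad, D n ^ 2 ≤ ∑ n ∈ Ioc N (2 * N), D n ^ 2 :=
    sum_le_sum_of_subset_of_nonneg (filter_subset _ _) (fun _ _ _ => by positivity)
  have h3 : ∀ n ∈ Ioc N (2 * N), D n ^ 2 ≤
      8 * N * ∑ m ∈ Ico ((n - 1) ^ 2) ((n + 1) ^ 2), F m ^ 2 := by
    intro n hn
    rw [mem_Ioc] at hn
    have h4 := sq_sum_le_card_mul_sum_sq (s := Ico ((n - 1) ^ 2) ((n + 1) ^ 2)) (f := F)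
    refine h4.trans ?_
    apply mul_le_mul_of_nonneg_right _ (sum_nonneg fun _ _ => by positivity)
    rw [Nat.card_Ico]
    have h5 : (n + 1) ^ 2 - (n - 1) ^ 2 ≤ 8 * N := by
      obtain ⟨k, rfl⟩ : ∃ k, n = k + 1 := ⟨n - 1, by omega⟩
      have : (k + 1 + 1) ^ 2 = (k + 1 - 1) ^ 2 + 4 * (k + 1) := by
        simp only [Nat.add_sub_cancel]
        ring
      omega
    exact_mod_cast h5
  have h6 : ∑ n ∈ Ioc N (2 * N), ∑ m ∈ Ico ((n - 1) ^ 2) ((n + 1) ^ 2), F m ^ 2 ≤ 2 * T := by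
    have e1 : Ioc N (2 * N) = Ico (N + 1) (2 * N + 1) := by
      ext k; rw [mem_Ioc, mem_Ico]; omega
    have e2 : ∀ n ∈ Ico (N + 1) (2 * N + 1), ∑ m ∈ Ico ((n - 1) ^ 2) ((n + 1) ^ 2), F m ^ 2 =
        ∑ m ∈ Ico ((n - 1) ^ 2) ((n + 1 - 1) ^ 2), F m ^ 2 + ∑ m ∈ Ico (n ^ 2) ((n + 1) ^ 2), F m ^ 2 := by
      intro n _
      rw [Nat.add_sub_cancel]
      symm
      apply sum_Ico_consecutive
      · exact Nat.pow_le_pow_left (by omega) 2
      · exact Nat.pow_le_pow_left (by omega) 2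
    rw [e1, sum_congr rfl e2, sum_add_distrib]
    have m1 : Monotone (fun n : ℕ => (n - 1) ^ 2) := fun a b h => Nat.pow_le_pow_left (by omega) 2
    have m2 : Monotone (fun n : ℕ => n ^ 2) := fun a b h => Nat.pow_le_pow_left h 2
    have s1 := sum_blocks (fun n => (n - 1) ^ 2) m1 (fun m => F m ^ 2) (N + 1) (2 * N + 1) (by omega)
    have s2 := sum_blocks (fun n => n ^ 2) m2 (fun m => F m ^ 2) (N + 1) (2 * N + 1) (by omega)
    rw [s1, s2]
    have t1 : ∑ m ∈ Ico ((N + 1 - 1) ^ 2) ((2 * N + 1 - 1) ^ 2), F m ^ 2 ≤ T := by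
      refine le_trans (sum_le_sum_of_subset_of_nonneg ?_ (fun _ _ _ => by positivity)) hT
      apply Ico_subset_Ico
      · simp
      · exact Nat.pow_le_pow_left (by omega) 2
    have t2 : ∑ m ∈ Ico ((N + 1) ^ 2) ((2 * N + 1) ^ 2), F m ^ 2 ≤ T := by
      refine le_trans (sum_le_sum_of_subset_of_nonneg ?_ (fun _ _ _ => by positivity)) hT
      apply Ico_subset_Ico
      · exact Nat.pow_le_pow_left (by omega) 2
      · exact le_rfl
    linarith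
  calc (Bad.card : ℝ) * δ ^ 2 ≤ ∑ n ∈ Ioc N (2 * N), D n ^ 2 := h1.trans h2
    _ ≤ ∑ n ∈ Ioc N (2 * N), 8 * N * ∑ m ∈ Ico ((n - 1) ^ 2) ((n + 1) ^ 2), F m ^ 2 := sum_le_sum h3
    _ = 8 * N * ∑ n ∈ Ioc N (2 * N), ∑ m ∈ Ico ((n - 1) ^ 2) ((n + 1) ^ 2), F m ^ 2 := by rw [mul_sum]
    _ ≤ 8 * N * (2 * T) := by gcongr
    _ = _ := by ring

end

end Pool.Agent.Run7.h591.EG
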