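import Mathlib
import Pool.Agent.Run7.h591.EG.Win

/-!
# Project ERG (helper591), part 3: the von Mangoldt function against its sieve model along
stationary sequences, in all subintervals of almost all intervals `((n - 1)^2, (n + 1)^2]`
-/

set_option autoImplicit false
set_option maxHeartbeats 4000000

universe u

namespace Pool.Agent.Run7.h591.EG

open Finset
open Pool.Agent.Run7.h794.MK (W MS S_ALL)
open Pool.Agent.H373R2.T7 (lamz Vz Vz_inv_le lamz_nonneg Vz_pos ev_L' ev_log')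

/-- `Λ` minus the sieve model -/
noncomputable def gz (z k : ℕ) : ℝ := ArithmeticFunction.vonMangoldt k - lamz z k

lemma lamz_le (z n : ℕ) (hz : 1 ≤ z) : lamz z n ≤ z := by
  have h8 : lamz z n ≤ (Vz z)⁻¹ := by
    unfold lamz
    split_ifs
    · exact le_rfl
    · exact (inv_pos.2 (Vz_pos z)).le
  exact h8.trans (Vz_inv_le z hz)

lemma gz_abs (z k : ℕ) (hz : 1 ≤ z) (hk : 1 ≤ k) : |gz z k| ≤ Real.log k + z := by
  unfold gz
  have h1 : ArithmeticFunction.vonMangoldt k ≤ Real.log k := ArithmeticFunction.vonMangoldt_le_log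
  have h2 : 0 ≤ ArithmeticFunction.vonMangoldt k := ArithmeticFunction.vonMangoldt_nonneg
  have h3 := lamz_le z k hz
  have h4 := lamz_nonneg z k
  have h5 : 0 ≤ Real.log k := Real.log_natCast_nonneg k
  rw [abs_le]
  constructor <;> linarith

theorem core (hALL : S_ALL) (A B : ℕ) : ∃ B₀ : ℕ, ∀ E : ℕ, ∃ N₀ : ℕ, ∀ N : ℕ, N₀ ≤ N → ∀ z : ℕ,
    (3 * Real.log N) ^ B₀ ≤ z → (z : ℝ) ≤ Real.log N ^ E →
    ∀ (H : Type u) [NormedAddCommGroup H] [InnerProductSpace ℂ H] (v : ℕ → H), Sta v →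
    ∃ Bad : Finset ℕ, Bad ⊆ Ioc N (2 * N) ∧ (Bad.card : ℝ) ≤ N / Real.log N ^ A ∧
      ∀ n ∈ Ioc N (2 * N), n ∉ Bad → ∀ a b : ℕ, (n - 1) ^ 2 ≤ a → a ≤ b → b ≤ (n + 1) ^ 2 →
        ‖Sw (gz z) v a b‖ ≤ N / Real.log N ^ B * ‖v 0‖ := by
  set V : ℕ := B + 1 with hV
  set U : ℕ := 2 * V + A + 1 with hU
  obtain ⟨C, B₀, hC⟩ := hALL U
  refine ⟨B₀, fun E => ?_⟩
  obtain ⟨X₀, hX⟩ := hC E
  set Wd : ℕ := V + E + 2 with hWd
  obtain ⟨n1, h1⟩ := ev_L' 192
  obtain ⟨n2, h2⟩ := ev_log' (3 * Wd + 3 * C) (32 * 3 ^ (3 * C))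
  refine ⟨max (max n1 n2) (max X₀ 4), fun N hN z hz1 hz2 H _ _ v hv => ?_⟩
  have hL := h1 N (le_trans (le_trans (le_max_left _ _) (le_max_left _ _)) hN)
  have hM := h2 N (le_trans (le_trans (le_max_right _ _) (le_max_left _ _)) hN)
  have hNX : X₀ ≤ N := le_trans (le_trans (le_max_left _ _) (le_max_right _ _)) hN
  have hN4 : 4 ≤ N := le_trans (le_trans (le_max_right _ _) (le_max_right _ _)) hN
  set L : ℝ := Real.log N with hLdef
  have hNR : (4 : ℝ) ≤ N := by exact_mod_cast hN4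
  have hN0 : (0 : ℝ) < N := by linarith
  have hL0 : 0 < L := by linarith
  have hL1 : 1 ≤ L := by linarith
  have hz : 1 ≤ z := by
    have h3 : (1 : ℝ) ≤ (3 * L) ^ B₀ := one_le_pow₀ (by linarith)
    exact_mod_cast h3.trans hz1
  have hsq : √(N : ℝ) ≤ N := by
    rw [Real.sqrt_le_left hN0.le]
    nlinarith
  have h3C : (1 : ℝ) ≤ 3 ^ (3 * C) := one_le_pow₀ (by norm_num)
  have hLW : 1 ≤ L ^ (3 * Wd + 3 * C) := one_le_pow₀ hL1
  have hbig : 32 * 3 ^ (3 * C) * L ^ (3 * Wd + 3 * C) ≤ N := hM.trans hsq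
  -- the length of the windows
  have hLWd : 0 < L ^ Wd := by positivity
  have hLWdN : 32 * L ^ Wd ≤ N := by
    have h4 : L ^ Wd ≤ L ^ (3 * Wd + 3 * C) := pow_le_pow_right₀ hL1 (by omega)
    have h5 : L ^ (3 * Wd + 3 * C) ≤ 3 ^ (3 * C) * L ^ (3 * Wd + 3 * C) :=
      le_mul_of_one_le_left (by positivity) h3C
    nlinarith
  set Y : ℕ := ⌊(N : ℝ) / L ^ Wd⌋₊ with hY
  have hYle : (Y : ℝ) ≤ N / L ^ Wd := Nat.floor_le (by positivity)
  have hYge : (N : ℝ) / L ^ Wd < Y + 1 := Nat.lt_floor_add_one _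
  have hY32 : 32 ≤ (N : ℝ) / L ^ Wd := by rw [le_div_iff₀ hLWd]; exact hLWdN
  have hYlo : (N : ℝ) / (2 * L ^ Wd) ≤ Y := by
    have : (N : ℝ) / (2 * L ^ Wd) = N / L ^ Wd / 2 := by rw [mul_comm, div_mul_eq_div_div]
    rw [this]
    linarith
  have hY1 : (1 : ℝ) ≤ Y := by linarith
  have hYpos : (0 : ℝ) < Y := by linarith
  have hYN : (Y : ℝ) ≤ N := hYle.trans (div_le_self hN0.le (one_le_pow₀ hL1))
  -- the three dyadic ranges
  have hlog4 : Real.log 4 ≤ 2 := by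
    have : Real.log 4 ≤ 4 - 1 := Real.log_le_sub_one_of_pos (by norm_num)
    have h5 : Real.log 4 = 2 * Real.log 2 := by
      rw [show (4 : ℝ) = 2 ^ 2 by norm_num, Real.log_pow]; norm_num
    have h6 := Real.log_two_lt_d9
    linarith
  have hrange : ∀ x : ℕ, N ^ 2 - 1 ≤ x → x ≤ 4 * N ^ 2 →
      ∑ m ∈ Ioc x (2 * x), ‖Sw (gz z) v m (m + Y)‖ ^ 2 ≤ 4 * (N : ℝ) ^ 2 * Y ^ 2 / L ^ U * ‖v 0‖ ^ 2 := by
    intro x hx1 hx2
    have hNN : N ≤ N ^ 2 - 1 := by
      have : N * 4 ≤ N ^ 2 := by rw [sq]; exact Nat.mul_le_mul_left _ hN4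
      omega
    have hxN : N ≤ x := hNN.trans hx1
    have hxR : (N : ℝ) ≤ x := by exact_mod_cast hxN
    have hx0 : (0 : ℝ) < x := by linarith
    have hx2R : (x : ℝ) ≤ 4 * (N : ℝ) ^ 2 := by exact_mod_cast hx2
    have hl1 : L ≤ Real.log x := Real.log_le_log hN0 hxR
    have hl2 : Real.log x ≤ 3 * L := by
      have : Real.log x ≤ Real.log (4 * (N : ℝ) ^ 2) := Real.log_le_log hx0 hx2R
      rw [Real.log_mul (by norm_num) (by positivity), Real.log_pow] at this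
      push_cast at this
      linarith
    have hlx0 : 0 < Real.log x := by linarith
    have hz3 : Real.log x ^ B₀ ≤ z := (pow_le_pow_left₀ hlx0.le hl2 _).trans hz1
    have hz4 : (z : ℝ) ≤ Real.log x ^ E := hz2.trans (pow_le_pow_left₀ hL0.le hl1 _)
    have hY3 : (x : ℝ) ^ (1 / 3 : ℝ) * Real.log x ^ C ≤ Y := by
      have h4 : (x : ℝ) ^ (1 / 3 : ℝ) * Real.log x ^ C ≤ (x : ℝ) ^ (1 / 3 : ℝ) * (3 * L) ^ C := by
        gcongr
      refine h4.trans ?_
      have h5 : ((x : ℝ) ^ (1 / 3 : ℝ) * (3 * L) ^ C) ^ 3 ≤ (Y : ℝ) ^ 3 := by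
        have e1 : ((x : ℝ) ^ (1 / 3 : ℝ)) ^ 3 = x := by
          rw [← Real.rpow_natCast, ← Real.rpow_mul hx0.le]
          norm_num
        have e2 : ((x : ℝ) ^ (1 / 3 : ℝ) * (3 * L) ^ C) ^ 3 = x * (3 ^ (3 * C) * L ^ (3 * C)) := by
          rw [mul_pow, e1, ← pow_mul, mul_pow, mul_comm C 3]
        rw [e2]
        have h6 : ((N : ℝ) / (2 * L ^ Wd)) ^ 3 ≤ (Y : ℝ) ^ 3 := pow_le_pow_left₀ (by positivity) hYlo 3
        refine le_trans ?_ h6
        rw [div_pow, le_div_iff₀ (by positivity)]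
        have e3 : (2 * L ^ Wd) ^ 3 = 8 * L ^ (3 * Wd) := by
          rw [mul_pow, ← pow_mul, mul_comm Wd 3]; norm_num
        rw [e3]
        have e4 : L ^ (3 * Wd + 3 * C) = L ^ (3 * Wd) * L ^ (3 * C) := pow_add _ _ _
        rw [e4] at hbig
        calc (x : ℝ) * (3 ^ (3 * C) * L ^ (3 * C)) * (8 * L ^ (3 * Wd))
            ≤ (4 * (N : ℝ) ^ 2) * (3 ^ (3 * C) * L ^ (3 * C)) * (8 * L ^ (3 * Wd)) := by gcongr
          _ = (N : ℝ) ^ 2 * (32 * 3 ^ (3 * C) * (L ^ (3 * Wd) * L ^ (3 * C))) := by ring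
          _ ≤ (N : ℝ) ^ 2 * N := by gcongr
          _ = (N : ℝ) ^ 3 := by ring
      exact le_of_pow_le_pow_left₀ (by norm_num) hYpos.le h5
    have hY4 : (Y : ℝ) * Real.log x ^ C ≤ x := by
      have h4 : (3 * L) ^ C ≤ N / 2 := by
        have h5 : (3 * L) ^ C ≤ 3 ^ (3 * C) * L ^ (3 * Wd + 3 * C) := by
          rw [mul_pow]
          apply mul_le_mul
          · exact pow_le_pow_right₀ (by norm_num) (by omega)
          · exact pow_le_pow_right₀ hL1 (by omega)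
          · positivity
          · positivity
        have : 0 ≤ 3 ^ (3 * C) * L ^ (3 * Wd + 3 * C) := by positivity
        linarith
      have h5 : (N : ℝ) ^ 2 - 1 ≤ x := by
        have h6 : N ^ 2 ≤ x + 1 := by omega
        have h7 : ((N ^ 2 : ℕ) : ℝ) ≤ (x : ℝ) + 1 := by exact_mod_cast h6
        push_cast at h7
        linarith
      calc (Y : ℝ) * Real.log x ^ C ≤ N * (3 * L) ^ C := by gcongr
        _ ≤ N * (N / 2) := by gcongr
        _ ≤ (N : ℝ) ^ 2 - 1 := by nlinarith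
        _ ≤ x := h5
    have h6 := win_ms hv (gz z) x Y (x * (Y : ℝ) ^ 2 / Real.log x ^ U)
      (fun α => hX x (hNX.trans hxN) z hz3 hz4 Y hY3 hY4 α)
    refine h6.trans ?_
    apply mul_le_mul_of_nonneg_right _ (by positivity)
    apply div_le_div₀ (by positivity) _ (by positivity) (pow_le_pow_left₀ hL0.le hl1 _)
    gcongr
  set T : ℝ := 12 * (N : ℝ) ^ 2 * Y ^ 2 / L ^ U * ‖v 0‖ ^ 2 with hT
  have htot : ∑ m ∈ Ico (N ^ 2) ((2 * N + 1) ^ 2), ‖Sw (gz z) v m (m + Y)‖ ^ 2 ≤ T := by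
    set x : ℕ := N ^ 2 - 1 with hx
    have hN2 : 16 ≤ N ^ 2 := by
      have : 4 ^ 2 ≤ N ^ 2 := Nat.pow_le_pow_left hN4 2
      omega
    have hsub : Ico (N ^ 2) ((2 * N + 1) ^ 2) ⊆ Ioc x (8 * x) := by
      intro m hm
      rw [mem_Ico] at hm
      rw [mem_Ioc]
      have e : (2 * N + 1) ^ 2 = 4 * N ^ 2 + 4 * N + 1 := by ring
      have : N * 4 ≤ N ^ 2 := by rw [sq]; exact Nat.mul_le_mul_left _ hN4
      omega
    refine (sum_le_sum_of_subset_of_nonneg hsub (fun _ _ _ => by positivity)).trans ?_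
    have c1 := sum_Ioc_consecutive (fun m => ‖Sw (gz z) v m (m + Y)‖ ^ 2) (show x ≤ 2 * x by omega) (show 2 * x ≤ 4 * x by omega)
    have c2 := sum_Ioc_consecutive (fun m => ‖Sw (gz z) v m (m + Y)‖ ^ 2) (show x ≤ 4 * x by omega) (show 4 * x ≤ 8 * x by omega)
    rw [← c2, ← c1]
    have r1 := hrange x le_rfl (by omega)
    have r2 := hrange (2 * x) (by omega) (by omega)
    have r3 := hrange (4 * x) (by omega) (by omega)
    rw [show 2 * (2 * x) = 4 * x by ring] at r2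
    rw [show 2 * (4 * x) = 8 * x by ring] at r3
    have : T = 4 * (N : ℝ) ^ 2 * Y ^ 2 / L ^ U * ‖v 0‖ ^ 2 + 4 * (N : ℝ) ^ 2 * Y ^ 2 / L ^ U * ‖v 0‖ ^ 2 +
        4 * (N : ℝ) ^ 2 * Y ^ 2 / L ^ U * ‖v 0‖ ^ 2 := by rw [hT]; ring
    rw [this]
    linarith
  -- the bound of the function
  have hG : ∀ k : ℕ, 1 ≤ k → k ≤ 9 * N ^ 2 → |gz z k| ≤ 4 * L ^ (E + 1) := by
    intro k hk1 hk2
    refine (gz_abs z k hz hk1).trans ?_
    have hk0 : (0 : ℝ) < k := by exact_mod_cast hk1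
    have hk2R : (k : ℝ) ≤ 9 * (N : ℝ) ^ 2 := by exact_mod_cast hk2
    have h4 : Real.log k ≤ 3 * L := by
      have h5 : Real.log k ≤ Real.log (9 * (N : ℝ) ^ 2) := Real.log_le_log hk0 hk2R
      rw [Real.log_mul (by norm_num) (by positivity), Real.log_pow] at h5
      push_cast at h5
      have h6 : Real.log 9 ≤ 9 - 1 := Real.log_le_sub_one_of_pos (by norm_num)
      linarith
    have h5 : L ≤ L ^ (E + 1) := le_self_pow₀ hL1 (by omega)
    have h6 : L ^ E ≤ L ^ (E + 1) := pow_le_pow_right₀ hL1 (by omega)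
    linarith
  rcases eq_or_lt_of_le (norm_nonneg (v 0)) with h0 | h0
  · refine ⟨∅, empty_subset _, by simp; positivity, fun n _ _ a b _ _ _ => ?_⟩
    have h4 : Sw (gz z) v a b = 0 := by
      unfold Sw
      refine sum_eq_zero fun k _ => ?_
      have : v k = 0 := by rw [← norm_eq_zero, norm_sta hv, ← h0]
      rw [this, smul_zero]
    rw [h4, norm_zero]
    positivity
  set δ : ℝ := N * Y / L ^ V * ‖v 0‖ with hδ
  have hδ0 : 0 < δ := by positivity
  have hfew := few (fun m => ‖Sw (gz z) v m (m + Y)‖) (fun m => norm_nonneg _) N (by omega) T δ hδ0 htot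
  refine ⟨(Ioc N (2 * N)).filter (fun n => δ < ∑ m ∈ Ico ((n - 1) ^ 2) ((n + 1) ^ 2), ‖Sw (gz z) v m (m + Y)‖),
    filter_subset _ _, ?_, ?_⟩
  · have h4 : δ ^ 2 = N ^ 2 * Y ^ 2 / L ^ (2 * V) * ‖v 0‖ ^ 2 := by
      rw [hδ]
      rw [mul_pow, div_pow, mul_pow, ← pow_mul, mul_comm V 2]
    have h5 : 16 * (N : ℝ) * T = 192 * N / L ^ (A + 1) * δ ^ 2 := by
      rw [hT, h4, hU]
      have : L ^ (2 * V + A + 1) = L ^ (2 * V) * L ^ (A + 1) := by rw [← pow_add]; congr 1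
      rw [this]
      field_simp
      ring
    rw [h5] at hfew
    have h6 := le_of_mul_le_mul_right hfew (by positivity)
    refine h6.trans ?_
    rw [div_le_div_iff₀ (by positivity) (by positivity), pow_succ]
    calc 192 * (N : ℝ) * L ^ A ≤ L * N * L ^ A := by gcongr
      _ = N * (L ^ A * L) := by ring
  · intro n hn hnot a b ha hab hb
    rw [mem_filter, not_and] at hnot
    have h4 := not_lt.1 (hnot hn)
    rw [mem_Ioc] at hn
    have hb9 : b + Y ≤ 9 * N ^ 2 := by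
      have h5 : (n + 1) ^ 2 ≤ (2 * N + 1) ^ 2 := Nat.pow_le_pow_left (by omega) 2
      have h6 : Y ≤ N := by exact_mod_cast hYN
      have e : (2 * N + 1) ^ 2 = 4 * N ^ 2 + 4 * N + 1 := by ring
      have : N * 4 ≤ N ^ 2 := by rw [sq]; exact Nat.mul_le_mul_left _ hN4
      omega
    have h5 := sub_le hv (gz z) (4 * L ^ (E + 1)) Y a b hab (fun k hk1 hk2 => hG k (by omega) (by omega))
    have h6 : ∑ m ∈ Ico a b, ‖Sw (gz z) v m (m + Y)‖ ≤ δ := by
      refine le_trans (sum_le_sum_of_subset_of_nonneg ?_ (fun _ _ _ => norm_nonneg _)) h4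
      exact Ico_subset_Ico ha hb
    have h7 : (Y : ℝ) * ‖Sw (gz z) v a b‖ ≤ Y * (N / L ^ V * ‖v 0‖ + 2 * Y * (4 * L ^ (E + 1)) * ‖v 0‖) := by
      refine h5.trans ?_
      have : (Y : ℝ) * (N / L ^ V * ‖v 0‖ + 2 * Y * (4 * L ^ (E + 1)) * ‖v 0‖) =
        δ + 2 * (Y : ℝ) ^ 2 * (4 * L ^ (E + 1)) * ‖v 0‖ := by rw [hδ]; ring
      rw [this]
      linarith
    have h8 := le_of_mul_le_mul_left h7 hYpos
    refine h8.trans ?_
    rw [← add_mul]
    apply mul_le_mul_of_nonneg_right _ h0.le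
    have h9 : 2 * (Y : ℝ) * (4 * L ^ (E + 1)) ≤ 8 * N / L ^ (V + 1) := by
      calc 2 * (Y : ℝ) * (4 * L ^ (E + 1)) ≤ 2 * (N / L ^ Wd) * (4 * L ^ (E + 1)) := by gcongr
        _ = 8 * N / L ^ (V + 1) := by
            have : L ^ Wd = L ^ (V + 1) * L ^ (E + 1) := by rw [← pow_add]; congr 1; omega
            rw [this]
            field_simp
            ring
    have h10 : 8 * (N : ℝ) / L ^ (V + 1) ≤ N / L ^ V := by
      rw [div_le_div_iff₀ (by positivity) (by positivity), pow_succ]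
      calc 8 * (N : ℝ) * L ^ V ≤ L * N * L ^ V := by gcongr; linarith
        _ = N * (L ^ V * L) := by ring
    have h11 : 2 * ((N : ℝ) / L ^ V) ≤ N / L ^ B := by
      rw [hV, pow_succ, ← mul_div_assoc, div_le_div_iff₀ (by positivity) (by positivity)]
      calc 2 * (N : ℝ) * L ^ B ≤ L * N * L ^ B := by gcongr; linarith
        _ = N * (L ^ B * L) := by ring
    linarith

end Pool.Agent.Run7.h591.EG
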