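import Mathlib
import Pool.Agent.Run7.h609.MK.BeaA
import Pool.Agent.Run7.h591.EG.Win

/-!
# Project ERG (helper591), part 4: the sieve model along stationary sequences

The exponential sum of the sieve model over a window, for every frequency, is bounded by geometric sums at the
rationals with small denominators (from `model` of helper609 and `lz`); so the sieve model does not see a
stationary sequence without rational spectrum.
-/

set_option autoImplicit false
set_option maxHeartbeats 4000000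

universe u

namespace Pool.Agent.Run7.h591.EG

open Finset Filter Topology
open Pool.Agent.Run7.h794.MK (W MS S_ALL)
open Pool.Agent.H807R2.Dav (ee ee_add norm_ee ee_eq ee_int ee_zero)
open Pool.Agent.H373R2.T7 (lamz Vz Vz_inv_le lamz_nonneg Vz_pos ev_L' ev_log')
open Pool.Agent.Run7.h609.MK (eNK abel model)
open Pool.Agent.Q236.CR (cc)

/-- the geometric sum at `θ` over the window -/
noncomputable def Ge (θ : ℝ) (n H : ℕ) : ℂ := ∑ m ∈ Ioc n (n + H), ee ((m : ℝ) * θ)

lemma norm_cc_le (q a : ℕ) (hq : 1 ≤ q) : ‖cc q a‖ ≤ 1 := by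
  unfold cc
  rw [norm_mul]
  have h5 : ‖(1 / (Nat.totient q : ℂ))‖ = 1 / (Nat.totient q : ℝ) := by
    rw [norm_div, norm_one, Complex.norm_natCast]
  have ht : (0 : ℝ) < Nat.totient q := by exact_mod_cast Nat.totient_pos.2 (by omega)
  rw [h5, one_div, inv_mul_le_iff₀ ht, mul_one]
  refine (norm_sum_le _ _).trans ?_
  have : ∑ b ∈ (Finset.range q).filter (fun b => b.Coprime q), ‖Pool.Agent.H469R2.NK.e ((a : ℝ) * b / q)‖ =
      (((Finset.range q).filter (fun b => b.Coprime q)).card : ℝ) := by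
    rw [card_eq_sum_ones, Nat.cast_sum]
    refine sum_congr rfl fun b _ => ?_
    rw [eNK, norm_ee]
    simp
  rw [this]
  have h6 : ((Finset.range q).filter (fun b => b.Coprime q)).card = Nat.totient q := by
    rw [Nat.totient_eq_card_coprime]
    congr 1
    ext b
    simp [Nat.coprime_comm]
  rw [h6]

/-- **the sieve model against geometric sums, every frequency** -/
theorem model_all (η : ℝ) (hη : 0 < η) : ∃ D B : ℕ, ∀ E : ℕ, ∃ X₀ : ℕ, ∀ n : ℕ, X₀ ≤ n → ∀ z : ℕ, Real.log n ^ B ≤ z →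
    (z : ℝ) ≤ Real.log n ^ E → ∀ H : ℕ, (n : ℝ) ^ (1 / 4 : ℝ) ≤ H → H ≤ n → ∀ θ : ℝ,
    ‖W (lamz z) θ n H‖ ^ 2 ≤ (η * H) ^ 2 + ∑ d ∈ Icc 1 D, ∑ b ∈ range d, 2 * ‖Ge (θ - b / d) n H‖ ^ 2 := by
  obtain ⟨D, B, hB⟩ := model η hη
  refine ⟨D, B + 1, fun E => ?_⟩
  obtain ⟨X1, h1⟩ := hB E
  obtain ⟨X2, h2⟩ := Run7.h373.CR.lz 1 E (B + 2)
  obtain ⟨X3, h3⟩ := ev_L' (max (16 / η) D + 2)
  obtain ⟨X4, h4⟩ := ev_log' (8 * (E + 1 + (B + 2))) 1
  refine ⟨max (max X1 X2) (max (max X3 X4) 2), fun n hn z hzB hzE H hH1 hH2 θ => ?_⟩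
  have a1 := h1 n (le_trans (le_trans (le_max_left _ _) (le_max_left _ _)) hn)
  have a2 := h2 n (le_trans (le_trans (le_max_right _ _) (le_max_left _ _)) hn)
  have a3 := h3 n (le_trans (le_trans (le_trans (le_max_left _ _) (le_max_left _ _)) (le_max_right _ _)) hn)
  have a4 := h4 n (le_trans (le_trans (le_trans (le_max_right _ _) (le_max_left _ _)) (le_max_right _ _)) hn)
  have hn2 : 2 ≤ n := le_trans (le_trans (le_max_right _ _) (le_max_right _ _)) hn
  have hnR : (2 : ℝ) ≤ n := by exact_mod_cast hn2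
  have hn0 : (0 : ℝ) < n := by linarith
  set L : ℝ := Real.log n with hL
  have hmx : 0 ≤ max (16 / η) (D : ℝ) := le_max_of_le_left (by positivity)
  have hL2 : 2 ≤ L := by linarith
  have hL0 : 0 < L := by linarith
  have hL1 : 1 ≤ L := by linarith
  have hLη : 16 / L ≤ η := by
    rw [div_le_iff₀ hL0]
    have h5 : 16 / η ≤ L := by linarith [le_max_left (16 / η) (D : ℝ)]
    rw [div_le_iff₀ hη] at h5
    linarith
  have hLD : (D : ℝ) ≤ L := by linarith [le_max_right (16 / η) (D : ℝ)]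
  have hzB1 : L ^ B ≤ z := (pow_le_pow_right₀ hL1 (by omega)).trans hzB
  have hzL : L ≤ z := (le_self_pow₀ hL1 (by omega)).trans hzB
  have hz1 : 1 ≤ z := by
    have : (1 : ℝ) ≤ z := hL1.trans hzL
    exact_mod_cast this
  have hnonneg : 0 ≤ ∑ d ∈ Icc 1 D, ∑ b ∈ range d, 2 * ‖Ge (θ - b / d) n H‖ ^ 2 :=
    sum_nonneg fun _ _ => sum_nonneg fun _ _ => by positivity
  by_cases hcase : ∀ d : ℕ, 1 ≤ d → d ≤ D → ∀ b : ℤ, L ^ B / H < |θ - b / d|
  · have h5 := a1 z hzB1 hzE H hH1 hH2 θ hcase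
    have h6 := pow_le_pow_left₀ (norm_nonneg _) h5 2
    linarith
  · push Not at hcase
    obtain ⟨q, hq1, hqD, b, hb⟩ := hcase
    -- powers of the logarithm against n^(1/8)
    have hpow : L ^ (E + 1 + (B + 2)) ≤ (n : ℝ) ^ (1 / 8 : ℝ) := by
      have h5 : (L ^ (E + 1 + (B + 2))) ^ 8 ≤ √(n : ℝ) := by
        rw [← pow_mul]
        rw [one_mul, mul_comm 8] at a4
        exact a4
      have h6 : √(n : ℝ) ≤ n := by
        rw [Real.sqrt_le_left hn0.le]
        nlinarith
      have h7 : (L ^ (E + 1 + (B + 2))) ^ 8 ≤ ((n : ℝ) ^ (1 / 8 : ℝ)) ^ 8 := by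
        have : ((n : ℝ) ^ (1 / 8 : ℝ)) ^ 8 = n := by
          rw [← Real.rpow_natCast, ← Real.rpow_mul hn0.le]
          norm_num
        rw [this]
        exact h5.trans h6
      exact le_of_pow_le_pow_left₀ (by norm_num) (by positivity) h7
    have h14 : (n : ℝ) ^ (1 / 4 : ℝ) = (n : ℝ) ^ (1 / 8 : ℝ) * (n : ℝ) ^ (1 / 8 : ℝ) := by
      rw [← Real.rpow_add hn0]
      norm_num
    have h18 : (1 : ℝ) ≤ (n : ℝ) ^ (1 / 8 : ℝ) := Real.one_le_rpow (by linarith) (by norm_num)
    have hH8 : (n : ℝ) ^ (1 / 8 : ℝ) * L ^ (E + 1 + (B + 2)) ≤ H := by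
      refine le_trans ?_ hH1
      rw [h14]
      gcongr
    have hLB : 0 < L ^ B := by positivity
    have hH0 : (0 : ℝ) < H := by
      refine lt_of_lt_of_le ?_ hH8
      positivity
    have hqR : (1 : ℝ) ≤ q := by exact_mod_cast hq1
    have hqL : (q : ℝ) ≤ L := by
      have : (q : ℝ) ≤ D := by exact_mod_cast hqD
      linarith
    have hqz : q ≤ z := by exact_mod_cast hqL.trans hzL
    have hq0 : (q : ℤ) ≠ 0 := by exact_mod_cast (by omega : q ≠ 0)
    set a : ℕ := (b % (q : ℤ)).toNat with ha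
    set k : ℤ := b / (q : ℤ) with hk
    have haz : ((a : ℕ) : ℤ) = b % (q : ℤ) := by
      rw [ha, Int.toNat_of_nonneg (Int.emod_nonneg _ hq0)]
    have haq : a < q := by
      have h5 := Int.emod_lt_of_pos b (by exact_mod_cast hq1 : (0 : ℤ) < q)
      rw [← haz] at h5
      exact_mod_cast h5
    have hbk : b = (a : ℤ) + k * q := by
      rw [haz, hk]
      have := Int.emod_add_mul_ediv b (q : ℤ)
      linarith
    set β : ℝ := θ - b / q with hβdef
    have hq0R : (q : ℝ) ≠ 0 := by positivity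
    have hβ2 : β = θ - a / q - k := by
      rw [hβdef, hbk]
      push_cast
      field_simp
      ring
    have hphase : ∀ m : ℕ, ee ((m : ℝ) * θ) = Pool.Agent.H469R2.NK.e ((a : ℝ) * m / q) * ee ((m : ℝ) * β) := by
      intro m
      rw [eNK, ← ee_add]
      have h5 : (m : ℝ) * θ = ((a : ℝ) * m / q + m * β) + ((m * k : ℤ) : ℝ) := by
        rw [hβ2]
        push_cast
        field_simp
        ring
      rw [h5, ee_add, ee_int, mul_one]
    have hGe : ∑ m ∈ Ioc n (n + H), ee ((m : ℝ) * β) = Ge (θ - a / q) n H := by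
      unfold Ge
      refine sum_congr rfl fun m _ => ?_
      have h5 : (m : ℝ) * (θ - a / q) = m * β + ((m * k : ℤ) : ℝ) := by
        rw [hβ2]; push_cast; ring
      rw [h5, ee_add, ee_int, mul_one]
    set f : ℕ → ℂ := fun m => (lamz z m : ℂ) * Pool.Agent.H469R2.NK.e ((a : ℝ) * m / q) - cc q a with hf
    have hW : W (lamz z) θ n H = ∑ m ∈ Ioc n (n + H), f m * ee ((m : ℝ) * β) +
        cc q a * ∑ m ∈ Ioc n (n + H), ee ((m : ℝ) * β) := by
      unfold W
      rw [mul_sum, ← sum_add_distrib]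
      refine sum_congr rfl fun m _ => ?_
      rw [hphase m]
      simp only [hf]
      ring
    have hccn := norm_cc_le q a hq1
    have hK : ∀ t ≤ H, ‖∑ m ∈ Ioc n (n + t), f m‖ ≤ H / L ^ (B + 1) := by
      intro t ht
      have hcard : ((Ioc n (n + t)).card : ℂ) = t := by simp
      rcases le_or_gt ((n : ℝ) ^ (1 / 8 : ℝ)) (t : ℝ) with h5 | h5
      · have h6 := a2 z q hq1 (by rw [pow_one]; exact hqL) hqz hzE a n t h5
        have h7 : ∑ m ∈ Ioc n (n + t), f m = ∑ m ∈ Ioc n (n + t), (lamz z m : ℂ) * Pool.Agent.H469R2.NK.e ((a : ℝ) * m / q) - cc q a * t := by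
          simp only [hf]
          rw [sum_sub_distrib, sum_const, nsmul_eq_mul, hcard]
          ring
        rw [h7]
        refine h6.trans ?_
        have htH : (t : ℝ) ≤ H := by exact_mod_cast ht
        apply div_le_div₀ hH0.le htH (by positivity)
        exact pow_le_pow_right₀ hL1 (by omega)
      · have h6 : ‖∑ m ∈ Ioc n (n + t), f m‖ ≤ t * (2 * z) := by
          calc _ ≤ ∑ m ∈ Ioc n (n + t), (2 * (z : ℝ)) := by
                refine (norm_sum_le _ _).trans (sum_le_sum fun m _ => ?_)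
                simp only [hf]
                refine (norm_sub_le _ _).trans ?_
                rw [norm_mul, Pool.Agent.H469R2.NK.norm_e, mul_one, Complex.norm_real, Real.norm_eq_abs,
                  abs_of_nonneg (lamz_nonneg z m)]
                have h7 : lamz z m ≤ z := by
                  have h8 : lamz z m ≤ (Vz z)⁻¹ := by
                    unfold lamz
                    split_ifs
                    · exact le_rfl
                    · exact (inv_pos.2 (Vz_pos z)).le
                  exact h8.trans (Vz_inv_le z hz1)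
                have h8 : (1 : ℝ) ≤ z := by exact_mod_cast hz1
                linarith
            _ = _ := by
                rw [sum_const, nsmul_eq_mul]
                simp
        refine h6.trans ?_
        rw [le_div_iff₀ (by positivity)]
        calc (t : ℝ) * (2 * z) * L ^ (B + 1) ≤ (n : ℝ) ^ (1 / 8 : ℝ) * (L * L ^ E) * L ^ (B + 1) := by
              gcongr
          _ ≤ (n : ℝ) ^ (1 / 8 : ℝ) * L ^ (E + 1 + (B + 2)) := by
              rw [mul_assoc]
              refine mul_le_mul_of_nonneg_left ?_ (by positivity)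
              calc L * L ^ E * L ^ (B + 1) = L ^ (E + B + 2) := by ring
                _ ≤ _ := pow_le_pow_right₀ hL1 (by omega)
          _ ≤ H := hH8
    have h5 := abel f β n H _ hK
    have h7 : (H : ℝ) / L ^ (B + 1) * (1 + 2 * Real.pi * |β| * H) ≤ η / 2 * H := by
      have h8 : |β| * H ≤ L ^ B := by
        calc |β| * H ≤ L ^ B / H * H := by gcongr
          _ = L ^ B := by field_simp
      have h9 : 1 ≤ L ^ B := one_le_pow₀ hL1
      have h10 : 1 + 2 * Real.pi * |β| * H ≤ 8 * L ^ B := by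
        have := Real.pi_lt_d2
        have h11 : 2 * Real.pi * |β| * H = 2 * Real.pi * (|β| * H) := by ring
        rw [h11]
        have h12 : 2 * Real.pi * (|β| * H) ≤ 6.3 * (|β| * H) := by
          apply mul_le_mul_of_nonneg_right (by linarith)
          positivity
        nlinarith
      calc _ ≤ (H : ℝ) / L ^ (B + 1) * (8 * L ^ B) := by gcongr
        _ = 16 / L / 2 * H := by
            rw [pow_succ]
            field_simp
            norm_num
        _ ≤ η / 2 * H := by gcongr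
    have h8 : ‖W (lamz z) θ n H‖ ≤ η / 2 * H + ‖Ge (θ - a / q) n H‖ := by
      rw [hW, hGe]
      refine (norm_add_le _ _).trans (add_le_add (h5.trans h7) ?_)
      rw [norm_mul]
      exact mul_le_of_le_one_left (norm_nonneg _) hccn
    have h9 : 2 * ‖Ge (θ - a / q) n H‖ ^ 2 ≤ ∑ d ∈ Icc 1 D, ∑ b ∈ range d, 2 * ‖Ge (θ - b / d) n H‖ ^ 2 := by
      have h10 : 2 * ‖Ge (θ - a / q) n H‖ ^ 2 ≤ ∑ b ∈ range q, 2 * ‖Ge (θ - b / q) n H‖ ^ 2 :=
        single_le_sum (f := fun b : ℕ => 2 * ‖Ge (θ - b / q) n H‖ ^ 2) (fun _ _ => by positivity) (mem_range.2 haq)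
      refine h10.trans ?_
      exact single_le_sum (f := fun d : ℕ => ∑ b ∈ range d, 2 * ‖Ge (θ - b / d) n H‖ ^ 2)
        (fun _ _ => sum_nonneg fun _ _ => by positivity) (mem_Icc.2 ⟨hq1, hqD⟩)
    have h10 : ‖W (lamz z) θ n H‖ ^ 2 ≤ (η / 2 * H + ‖Ge (θ - a / q) n H‖) ^ 2 :=
      pow_le_pow_left₀ (norm_nonneg _) h8 2
    nlinarith [sq_nonneg (η / 2 * H - ‖Ge (θ - a / q) n H‖), sq_nonneg (η * (H : ℝ))]

end Pool.Agent.Run7.h591.EG
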