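import Mathlib
import Pool.Agent.Run7.h591.EG.Core
import Pool.Agent.Run7.h591.EG.Mod

/-!
# Project ERG (helper591), part 5: stationary sequences without rational spectrum along the primes of
all subintervals of almost all intervals `((n - 1)^2, (n + 1)^2]`
-/

set_option autoImplicit false
set_option maxHeartbeats 4000000

universe u

namespace Pool.Agent.Run7.h591.EG

open Finset Filter Topology
open Pool.Agent.Run7.h794.MK (W MS S_ALL)
open Pool.Agent.H807R2.Dav (ee ee_add norm_ee ee_eq ee_int ee_zero)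
open Pool.Agent.H373R2.T7 (lamz Vz Vz_inv_le lamz_nonneg Vz_pos ev_L' ev_log')
open ArithmeticFunction (vonMangoldt)

/-- the primes in `(a, b]` -/
def pr (a b : ℕ) : Finset ℕ := (Ioc a b).filter Nat.Prime

/-- the prime powers have no weight -/
lemma pp_few (A : ℕ) : ∃ N₀ : ℕ, ∀ N : ℕ, N₀ ≤ N → ∃ Bad : Finset ℕ, Bad ⊆ Ioc N (2 * N) ∧
    (Bad.card : ℝ) ≤ N / Real.log N ^ A ∧ ∀ n ∈ Ioc N (2 * N), n ∉ Bad →
      ∑ k ∈ (Ioc ((n - 1) ^ 2) ((n + 1) ^ 2)).filter (fun k => ¬ k.Prime), vonMangoldt k ≤ Real.log N ^ (A + 2) := by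
  obtain ⟨n1, h1⟩ := ev_L' 36
  refine ⟨max n1 4, fun N hN => ?_⟩
  have hL := h1 N (le_trans (le_max_left _ _) hN)
  have hN4 : 4 ≤ N := le_trans (le_max_right _ _) hN
  set L : ℝ := Real.log N with hLdef
  have hL0 : 0 < L := by linarith
  have hNR : (4 : ℝ) ≤ N := by exact_mod_cast hN4
  set F : ℕ → ℝ := fun k => if k.Prime then 0 else vonMangoldt k with hF
  have hF0 : ∀ k, 0 ≤ F k := by
    intro k
    rw [hF]
    simp only
    split_ifs
    · exact le_rfl
    · exact ArithmeticFunction.vonMangoldt_nonneg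
  have hFs : ∀ a b : ℕ, ∑ k ∈ (Ioc a b).filter (fun k => ¬ k.Prime), vonMangoldt k = ∑ k ∈ Ico a b, F (k + 1) := by
    intro a b
    rw [sum_filter]
    refine sum_nbij' (fun k => k - 1) (fun k => k + 1) ?_ ?_ ?_ ?_ ?_
    · intro k hk; rw [mem_Ioc] at hk; rw [mem_Ico]; omega
    · intro k hk; rw [mem_Ico] at hk; rw [mem_Ioc]; omega
    · intro k hk; rw [mem_Ioc] at hk; omega
    · intro k hk; omega
    · intro k hk
      rw [mem_Ioc] at hk
      rw [Nat.sub_add_cancel (by omega), hF]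
      simp only
      by_cases hp : k.Prime
      · simp [hp]
      · simp [hp]
  set D : ℕ → ℝ := fun n => ∑ k ∈ (Ioc ((n - 1) ^ 2) ((n + 1) ^ 2)).filter (fun k => ¬ k.Prime), vonMangoldt k with hD
  refine ⟨(Ioc N (2 * N)).filter (fun n => L ^ (A + 2) < D n), filter_subset _ _, ?_, ?_⟩
  · set Bad := (Ioc N (2 * N)).filter (fun n => L ^ (A + 2) < D n) with hBad
    have h2 : (Bad.card : ℝ) * L ^ (A + 2) ≤ ∑ n ∈ Ioc N (2 * N), D n := by
      rw [← nsmul_eq_mul, ← sum_const]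
      refine le_trans (sum_le_sum (g := D) fun n hn => ?_) (sum_le_sum_of_subset_of_nonneg (filter_subset _ _) ?_)
      · rw [hBad, mem_filter] at hn
        exact hn.2.le
      · intro n _ _
        exact sum_nonneg fun _ _ => ArithmeticFunction.vonMangoldt_nonneg
    have h3 : ∑ n ∈ Ioc N (2 * N), D n ≤ 36 * N * L := by
      have e1 : Ioc N (2 * N) = Ico (N + 1) (2 * N + 1) := by
        ext k; rw [mem_Ioc, mem_Ico]; omega
      have e2 : ∀ n ∈ Ico (N + 1) (2 * N + 1), D n =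
          ∑ m ∈ Ico ((n - 1) ^ 2) ((n + 1 - 1) ^ 2), F (m + 1) + ∑ m ∈ Ico (n ^ 2) ((n + 1) ^ 2), F (m + 1) := by
        intro n _
        rw [Nat.add_sub_cancel, hD]
        simp only
        rw [hFs]
        symm
        apply sum_Ico_consecutive
        · exact Nat.pow_le_pow_left (by omega) 2
        · exact Nat.pow_le_pow_left (by omega) 2
      rw [e1, sum_congr rfl e2, sum_add_distrib]
      have m1 : Monotone (fun n : ℕ => (n - 1) ^ 2) := fun a b h => Nat.pow_le_pow_left (by omega) 2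
      have m2 : Monotone (fun n : ℕ => n ^ 2) := fun a b h => Nat.pow_le_pow_left h 2
      have s1 := sum_blocks (fun n => (n - 1) ^ 2) m1 (fun m => F (m + 1)) (N + 1) (2 * N + 1) (by omega)
      have s2 := sum_blocks (fun n => n ^ 2) m2 (fun m => F (m + 1)) (N + 1) (2 * N + 1) (by omega)
      rw [s1, s2]
      have hpsi : ∑ k ∈ Ico 0 ((2 * N + 1) ^ 2), F (k + 1) ≤ 18 * N * L := by
        rw [← hFs]
        have h4 := Chebyshev.psi_sub_theta_eq_sum_not_prime (((2 * N + 1) ^ 2 : ℕ) : ℝ)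
        rw [Nat.floor_natCast] at h4
        rw [← h4]
        have h5 : (1 : ℝ) ≤ ((2 * N + 1) ^ 2 : ℕ) := by exact_mod_cast Nat.one_le_pow _ _ (by omega)
        refine (Chebyshev.psi_sub_theta_le h5).trans ?_
        have h6 : √(((2 * N + 1) ^ 2 : ℕ) : ℝ) = 2 * N + 1 := by
          push_cast
          rw [Real.sqrt_sq (by positivity)]
        have h7 : Real.log (((2 * N + 1) ^ 2 : ℕ) : ℝ) ≤ 3 * L := by
          push_cast
          rw [Real.log_pow]
          have h8 : Real.log (2 * (N : ℝ) + 1) ≤ Real.log (3 * N) := Real.log_le_log (by positivity) (by linarith)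
          rw [Real.log_mul (by norm_num) (by linarith)] at h8
          have h9 : Real.log 3 ≤ 3 - 1 := Real.log_le_sub_one_of_pos (by norm_num)
          push_cast
          linarith
        have h10 : 0 ≤ Real.log (((2 * N + 1) ^ 2 : ℕ) : ℝ) := Real.log_nonneg h5
        rw [h6]
        calc 2 * (2 * (N : ℝ) + 1) * Real.log (((2 * N + 1) ^ 2 : ℕ) : ℝ) ≤ 2 * (3 * N) * (3 * L) := by
              gcongr
              linarith
          _ = 18 * N * L := by ring
      have t1 : ∑ m ∈ Ico ((N + 1 - 1) ^ 2) ((2 * N + 1 - 1) ^ 2), F (m + 1) ≤ 18 * N * L := by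
        refine le_trans (sum_le_sum_of_subset_of_nonneg ?_ (fun _ _ _ => hF0 _)) hpsi
        apply Ico_subset_Ico (Nat.zero_le _)
        exact Nat.pow_le_pow_left (by omega) 2
      have t2 : ∑ m ∈ Ico ((N + 1) ^ 2) ((2 * N + 1) ^ 2), F (m + 1) ≤ 18 * N * L := by
        refine le_trans (sum_le_sum_of_subset_of_nonneg ?_ (fun _ _ _ => hF0 _)) hpsi
        exact Ico_subset_Ico (Nat.zero_le _) le_rfl
      linarith
    have h4 : (Bad.card : ℝ) * L ^ (A + 2) ≤ 36 * N * L := h2.trans h3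
    rw [le_div_iff₀ (by positivity)]
    have h5 : (Bad.card : ℝ) * L ^ A * L ^ 2 ≤ N * L ^ 2 := by
      calc (Bad.card : ℝ) * L ^ A * L ^ 2 = Bad.card * L ^ (A + 2) := by rw [pow_add]; ring
        _ ≤ 36 * N * L := h4
        _ ≤ L * N * L := by gcongr
        _ = N * L ^ 2 := by ring
    exact le_of_mul_le_mul_right h5 (by positivity)
  · intro n hn hnot
    rw [mem_filter, not_and] at hnot
    exact not_lt.1 (hnot hn)

/-- from the von Mangoldt function to the primes -/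
lemma conv_primes (A : ℕ) : ∃ N₀ : ℕ, ∀ N : ℕ, N₀ ≤ N → ∃ Bad : Finset ℕ, Bad ⊆ Ioc N (2 * N) ∧
    (Bad.card : ℝ) ≤ N / Real.log N ^ A ∧ ∀ n ∈ Ioc N (2 * N), n ∉ Bad → ∀ a b : ℕ, (n - 1) ^ 2 ≤ a → a ≤ b →
      b ≤ (n + 1) ^ 2 → ∀ (H : Type u) [NormedAddCommGroup H] [InnerProductSpace ℂ H] (v : ℕ → H), Sta v →
        ‖((2 * Real.log n : ℝ) : ℂ) • ∑ p ∈ pr a b, v p - Sw (fun k => vonMangoldt k) v a b‖ ≤
          Real.log N ^ (A + 3) * ‖v 0‖ := by
  obtain ⟨n1, h1⟩ := ev_L' 36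
  obtain ⟨n2, h2⟩ := pp_few A
  refine ⟨max (max n1 n2) 4, fun N hN => ?_⟩
  have hL := h1 N (le_trans (le_trans (le_max_left _ _) (le_max_left _ _)) hN)
  obtain ⟨Bad, hB1, hB2, hB3⟩ := h2 N (le_trans (le_trans (le_max_right _ _) (le_max_left _ _)) hN)
  have hN4 : 4 ≤ N := le_trans (le_max_right _ _) hN
  refine ⟨Bad, hB1, hB2, fun n hn hnB a b ha hab hb H _ _ v hv => ?_⟩
  have hpp := hB3 n hn hnB
  rw [mem_Ioc] at hn
  set L : ℝ := Real.log N with hLdef
  have hL0 : 0 < L := by linarith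
  have hn4 : (4 : ℝ) ≤ n := by
    have : 4 ≤ n := by omega
    exact_mod_cast this
  set c : ℕ → ℝ := fun k => if k.Prime then 2 * Real.log n - Real.log k else - vonMangoldt k with hc
  have e1 : ((2 * Real.log n : ℝ) : ℂ) • ∑ p ∈ pr a b, v p - Sw (fun k => vonMangoldt k) v a b =
      ∑ k ∈ Ioc a b, ((c k : ℝ) : ℂ) • v k := by
    unfold pr Sw
    rw [smul_sum, sum_filter, ← sum_sub_distrib]
    refine sum_congr rfl fun k _ => ?_
    rw [hc]
    simp only
    split_ifs with hp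
    · rw [ArithmeticFunction.vonMangoldt_apply_prime hp, ← sub_smul, ← Complex.ofReal_sub]
    · rw [zero_sub, Complex.ofReal_neg, neg_smul]
  rw [e1]
  have hk : ∀ k ∈ Ioc a b, ‖((c k : ℝ) : ℂ) • v k‖ ≤ (4 / n + if ¬ k.Prime then vonMangoldt k else 0) * ‖v 0‖ := by
    intro k hk
    rw [mem_Ioc] at hk
    rw [norm_smul, Complex.norm_real, Real.norm_eq_abs, norm_sta hv]
    apply mul_le_mul_of_nonneg_right _ (norm_nonneg _)
    rw [hc]
    simp only
    split_ifs with hp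
    · have hn1 : (0 : ℝ) < (n : ℝ) - 1 := by linarith
      have hk1 : ((n : ℝ) - 1) ^ 2 ≤ k := by
        have h5 : (n - 1) ^ 2 ≤ k := by omega
        have h6 : (((n - 1) ^ 2 : ℕ) : ℝ) ≤ k := by exact_mod_cast h5
        rw [Nat.cast_pow, Nat.cast_sub (by omega)] at h6
        push_cast at h6
        exact h6
      have hk2 : (k : ℝ) ≤ ((n : ℝ) + 1) ^ 2 := by
        have h5 : k ≤ (n + 1) ^ 2 := by omega
        exact_mod_cast h5
      have hk0 : (0 : ℝ) < k := lt_of_lt_of_le (by positivity) hk1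
      have l1 : Real.log k ≤ 2 * Real.log ((n : ℝ) + 1) := by
        have := Real.log_le_log hk0 hk2
        rw [Real.log_pow] at this
        exact_mod_cast this
      have l2 : 2 * Real.log ((n : ℝ) - 1) ≤ Real.log k := by
        have := Real.log_le_log (by positivity) hk1
        rw [Real.log_pow] at this
        exact_mod_cast this
      have l3 : Real.log ((n : ℝ) + 1) - Real.log n ≤ 1 / n := by
        rw [← Real.log_div (by linarith) (by linarith)]
        have : ((n : ℝ) + 1) / n = 1 + 1 / n := by field_simp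
        rw [this]
        have := Real.log_le_sub_one_of_pos (show (0 : ℝ) < 1 + 1 / n by positivity)
        linarith
      have l4 : Real.log n - Real.log ((n : ℝ) - 1) ≤ 1 / ((n : ℝ) - 1) := by
        rw [← Real.log_div (by linarith) (by linarith)]
        have : (n : ℝ) / (n - 1) = 1 + 1 / (n - 1) := by field_simp; ring
        rw [this]
        have := Real.log_le_sub_one_of_pos (show (0 : ℝ) < 1 + 1 / ((n : ℝ) - 1) by positivity)
        linarith
      have l5 : 1 / ((n : ℝ) - 1) ≤ 2 / n := by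
        rw [div_le_div_iff₀ hn1 (by linarith)]
        linarith
      have l6 : 2 / (n : ℝ) ≤ 4 / n := by gcongr; norm_num
      have l7 : 2 * (1 / (n : ℝ)) = 2 / n := by ring
      have l8 : 2 * (2 / (n : ℝ)) = 4 / n := by ring
      rw [add_zero, abs_le]
      constructor <;> linarith
    · rw [abs_neg, abs_of_nonneg ArithmeticFunction.vonMangoldt_nonneg]
      have : 0 ≤ 4 / (n : ℝ) := by positivity
      linarith
  refine (norm_sum_le _ _).trans ((sum_le_sum hk).trans ?_)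
  rw [← sum_mul]
  apply mul_le_mul_of_nonneg_right _ (norm_nonneg _)
  rw [sum_add_distrib, sum_const, nsmul_eq_mul, Nat.card_Ioc, ← sum_filter]
  have c1 : ((b - a : ℕ) : ℝ) * (4 / n) ≤ 16 := by
    have h5 : b - a ≤ 4 * n := by
      obtain ⟨k, rfl⟩ : ∃ k, n = k + 1 := ⟨n - 1, by omega⟩
      have : (k + 1 + 1) ^ 2 = (k + 1 - 1) ^ 2 + 4 * (k + 1) := by
        simp only [Nat.add_sub_cancel]
        ring
      omega
    have h6 : ((b - a : ℕ) : ℝ) ≤ 4 * n := by exact_mod_cast h5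
    calc ((b - a : ℕ) : ℝ) * (4 / n) ≤ 4 * n * (4 / n) := by gcongr
      _ = 16 := by field_simp; norm_num
  have c2 : ∑ k ∈ (Ioc a b).filter (fun k => ¬ k.Prime), vonMangoldt k ≤ L ^ (A + 2) := by
    refine le_trans (sum_le_sum_of_subset_of_nonneg ?_ (fun _ _ _ => ArithmeticFunction.vonMangoldt_nonneg)) hpp
    exact filter_subset_filter _ (Ioc_subset_Ioc ha hb)
  have c3 : (1 : ℝ) ≤ L ^ (A + 2) := one_le_pow₀ (by linarith)
  calc ((b - a : ℕ) : ℝ) * (4 / n) + ∑ k ∈ (Ioc a b).filter (fun k => ¬ k.Prime), vonMangoldt k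
      ≤ 16 + L ^ (A + 2) := add_le_add c1 c2
    _ ≤ 16 * L ^ (A + 2) + L ^ (A + 2) := by linarith
    _ ≤ L * L ^ (A + 2) := by nlinarith
    _ = L ^ (A + 3) := by ring

/-- no rational spectrum -/
def NR {H : Type u} [NormedAddCommGroup H] [InnerProductSpace ℂ H] (v : ℕ → H) : Prop :=
  ∀ b d : ℕ, 1 ≤ d → Tendsto (fun K : ℕ => ‖∑ j ∈ range K, ee (-((j : ℝ) * ((b : ℝ) / d))) • v j‖ / K) atTop (𝓝 0)

/-- the sieve model does not see a stationary sequence without rational spectrum -/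
lemma lam_small {H : Type u} [NormedAddCommGroup H] [InnerProductSpace ℂ H] (v : ℕ → H) (hv : Sta v) (hNR : NR v)
    (ε : ℝ) (hε : 0 < ε) : ∃ B : ℕ, ∀ E : ℕ, ∃ X₀ : ℕ, ∀ n : ℕ, X₀ ≤ n → ∀ z : ℕ, Real.log n ^ B ≤ z →
    (z : ℝ) ≤ Real.log n ^ E → ∀ h : ℕ, (n : ℝ) ^ (1 / 4 : ℝ) ≤ h → h ≤ n → ‖Sw (lamz z) v n (n + h)‖ ≤ ε * h := by
  set η : ℝ := ε / (2 * (‖v 0‖ + 1)) with hη
  have hη0 : 0 < η := by positivity
  obtain ⟨D, B, hB⟩ := model_all η hη0
  refine ⟨B, fun E => ?_⟩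
  obtain ⟨X1, h1⟩ := hB E
  set ε' : ℝ := ε / (2 * (D + 1)) with hε'
  have hε'0 : 0 < ε' := by positivity
  have hK : ∃ K₀ : ℕ, ∀ K : ℕ, K₀ ≤ K → ∀ d ∈ Icc 1 D, ∀ b ∈ range d,
      ‖∑ j ∈ range K, ee (-((j : ℝ) * ((b : ℝ) / d))) • v j‖ ≤ ε' * K := by
    have h2 : ∀ d ∈ Icc 1 D, ∀ᶠ K : ℕ in atTop, ∀ b ∈ range d,
        ‖∑ j ∈ range K, ee (-((j : ℝ) * ((b : ℝ) / d))) • v j‖ ≤ ε' * K := by
      intro d hd
      rw [mem_Icc] at hd
      rw [Filter.eventually_all_finset]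
      intro b _
      have h3 := (hNR b d hd.1).eventually (Iio_mem_nhds hε'0)
      filter_upwards [h3, eventually_gt_atTop 0] with K hK hK0
      rw [div_lt_iff₀ (by exact_mod_cast hK0)] at hK
      exact hK.le
    have h3 := (Filter.eventually_all_finset (Icc 1 D)).2 h2
    exact Filter.eventually_atTop.1 h3
  obtain ⟨K₀, hK₀⟩ := hK
  refine ⟨max X1 (K₀ ^ 4 + 1), fun n hn z hz1 hz2 h hh1 hh2 => ?_⟩
  have a1 := h1 n (le_trans (le_max_left _ _) hn) z hz1 hz2 h hh1 hh2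
  have hnK : K₀ ^ 4 + 1 ≤ n := le_trans (le_max_right _ _) hn
  have hKh : K₀ ≤ h := by
    have h4 : ((K₀ : ℝ) ^ 4) ≤ n := by
      have : K₀ ^ 4 ≤ n := by omega
      exact_mod_cast this
    have h5 : (K₀ : ℝ) ≤ (n : ℝ) ^ (1 / 4 : ℝ) := by
      have h6 : ((K₀ : ℝ) ^ 4) ^ (1 / 4 : ℝ) ≤ (n : ℝ) ^ (1 / 4 : ℝ) :=
        Real.rpow_le_rpow (by positivity) h4 (by norm_num)
      rw [← Real.rpow_natCast, ← Real.rpow_mul (by positivity)] at h6
      norm_num at h6
      norm_num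
      exact h6
    exact_mod_cast h5.trans hh1
  have hpd := pd ({0} : Finset ℕ) ((Icc 1 D).sigma (fun d => range d))
    (fun _ m => if m ∈ Ioc n (n + h) then ((lamz z m : ℝ) : ℂ) else 0)
    (fun j m => if m ∈ Ioc n (n + h) then ((√2 : ℝ) : ℂ) * ee (-((m : ℝ) * ((j.2 : ℝ) / (j.1 : ℕ)))) else 0)
    (n + h + 1) ((η * h) ^ 2) v hv (by
      intro θ
      rw [sum_singleton, Pt_win _ _ _ _ (by omega), sum_sigma]
      refine le_trans (le_of_eq ?_) ((a1 θ).trans (le_of_eq ?_))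
      · unfold W
        rfl
      · congr 1
        refine sum_congr rfl fun d _ => sum_congr rfl fun b _ => ?_
        rw [Pt_win _ _ _ _ (by omega)]
        have e1 : ∑ m ∈ Ioc n (n + h), ((√2 : ℝ) : ℂ) * ee (-((m : ℝ) * ((b : ℝ) / d))) * ee (m * θ) =
            ((√2 : ℝ) : ℂ) * Ge (θ - b / d) n h := by
          unfold Ge
          rw [mul_sum]
          refine sum_congr rfl fun m _ => ?_
          rw [mul_assoc, ← ee_add]
          congr 2
          ring
        rw [e1, norm_mul, mul_pow, Complex.norm_real, Real.norm_eq_abs, sq_abs, Real.sq_sqrt (by norm_num)])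
  rw [sum_singleton, Vt_win _ _ _ _ _ (by omega), sum_sigma] at hpd
  have h2 : ∀ d ∈ Icc 1 D, ∀ b ∈ range d,
      ‖Vt (fun m => if m ∈ Ioc n (n + h) then ((√2 : ℝ) : ℂ) * ee (-((m : ℝ) * ((b : ℝ) / (d : ℕ)))) else 0) (n + h + 1) v‖ ^ 2 ≤
      2 * (ε' * h) ^ 2 := by
    intro d hd b hb
    rw [Vt_win _ _ _ _ _ (by omega)]
    have e1 : ∑ m ∈ Ioc n (n + h), (((√2 : ℝ) : ℂ) * ee (-((m : ℝ) * ((b : ℝ) / d)))) • v m =
        (((√2 : ℝ) : ℂ) * ee (-(((n + 1 : ℕ) : ℝ) * ((b : ℝ) / d)))) •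
          ∑ j ∈ range h, ee (-((j : ℝ) * ((b : ℝ) / d))) • v (j + (n + 1)) := by
      rw [smul_sum]
      have e2 : Ioc n (n + h) = Ico (n + 1) (n + 1 + h) := by
        ext k; rw [mem_Ioc, mem_Ico]; omega
      rw [e2, sum_Ico_eq_sum_range, Nat.add_sub_cancel_left]
      refine sum_congr rfl fun j _ => ?_
      rw [smul_smul, mul_assoc, ← ee_add, add_comm (n + 1) j]
      congr 3
      push_cast
      ring
    rw [e1, norm_smul, norm_mul, norm_ee, mul_one, mul_pow, Complex.norm_real, Real.norm_eq_abs, sq_abs,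
      Real.sq_sqrt (by norm_num), shift_norm hv]
    have h3 := hK₀ h hKh d hd b hb
    gcongr
  have h3 : ∑ d ∈ Icc 1 D, ∑ b ∈ range d,
      ‖Vt (fun m => if m ∈ Ioc n (n + h) then ((√2 : ℝ) : ℂ) * ee (-((m : ℝ) * ((b : ℝ) / (d : ℕ)))) else 0) (n + h + 1) v‖ ^ 2 ≤
      (D : ℝ) * (D * (2 * (ε' * h) ^ 2)) := by
    calc _ ≤ ∑ d ∈ Icc 1 D, (D * (2 * (ε' * h) ^ 2) : ℝ) := by
          refine sum_le_sum fun d hd => ?_
          refine (sum_le_sum (h2 d hd)).trans ?_
          rw [sum_const, card_range, nsmul_eq_mul]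
          rw [mem_Icc] at hd
          have : (d : ℝ) ≤ D := by exact_mod_cast hd.2
          gcongr
      _ = _ := by rw [sum_const, nsmul_eq_mul]; simp
  have h4 : ‖Sw (lamz z) v n (n + h)‖ ^ 2 ≤ (ε * h) ^ 2 := by
    refine (hpd.trans (add_le_add le_rfl h3)).trans ?_
    have e1 : (η * h) ^ 2 * ‖v 0‖ ^ 2 ≤ (ε * h) ^ 2 / 4 := by
      have : η * ‖v 0‖ ≤ ε / 2 := by
        rw [hη, div_mul_eq_mul_div, div_le_div_iff₀ (by positivity) (by norm_num)]
        nlinarith [norm_nonneg (v 0)]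
      calc (η * h) ^ 2 * ‖v 0‖ ^ 2 = (η * ‖v 0‖ * h) ^ 2 := by ring
        _ ≤ (ε / 2 * h) ^ 2 := by gcongr
        _ = _ := by ring
    have e2 : (D : ℝ) * (D * (2 * (ε' * h) ^ 2)) ≤ (ε * h) ^ 2 / 2 := by
      have : (D : ℝ) * ε' ≤ ε / 2 := by
        rw [hε', mul_div_assoc', div_le_div_iff₀ (by positivity) (by norm_num)]
        nlinarith
      calc (D : ℝ) * (D * (2 * (ε' * h) ^ 2)) = 2 * (D * ε' * h) ^ 2 := by ring
        _ ≤ 2 * (ε / 2 * h) ^ 2 := by gcongr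
        _ = _ := by ring
    nlinarith [sq_nonneg (ε * (h : ℝ))]
  exact le_of_sq_le_sq h4 (by positivity)

end Pool.Agent.Run7.h591.EG
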