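import Mathlib
import Pool.Agent.Run7.h591.EG.Pri
import Pool.Agent.Run7.h373.CR.Lz

/-!
# Project ERG (helper591), part 6: almost all windows; sums over primes of stationary sequences
-/

set_option autoImplicit false
set_option maxHeartbeats 4000000

universe u

namespace Pool.Agent.Run7.h591.EG

open Finset Filter Topology
open Pool.Agent.Run7.h794.MK (W MS S_ALL)
open Pool.Agent.H807R2.Dav (ee ee_add norm_ee ee_eq ee_int ee_zero)
open Pool.Agent.H373R2.T7 (lamz Vz Vz_inv_le lamz_nonneg Vz_pos ev_L' ev_log')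
open Pool.Agent.Q236.CR (cc)
open ArithmeticFunction (vonMangoldt)

/-- the property `Q N n a b` holds for all windows `(a, b]` inside `((n - 1)^2, (n + 1)^2]` which are not too
short, for all `n` in `(N, 2 N]` outside of an exceptional set with at most `N / log^A N` elements -/
def AW (Q : ℕ → ℕ → ℕ → ℕ → Prop) : Prop :=
  ∀ A B : ℕ, ∃ N₀ : ℕ, ∀ N : ℕ, N₀ ≤ N → ∃ Bad : Finset ℕ, Bad ⊆ Ioc N (2 * N) ∧
    (Bad.card : ℝ) ≤ N / Real.log N ^ A ∧ ∀ n ∈ Ioc N (2 * N), n ∉ Bad → ∀ a b : ℕ, (n - 1) ^ 2 ≤ a → a ≤ b →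
      b ≤ (n + 1) ^ 2 → N / Real.log N ^ B ≤ (b : ℝ) - a → Q N n a b

lemma AW_mono {Q R : ℕ → ℕ → ℕ → ℕ → Prop} (h : AW Q) (K : ℕ) (hQR : ∀ N n a b : ℕ, K ≤ N → N < n → n ≤ 2 * N →
    a ≤ b → Q N n a b → R N n a b) : AW R := by
  intro A B
  obtain ⟨N₀, h1⟩ := h A B
  refine ⟨max N₀ K, fun N hN => ?_⟩
  obtain ⟨Bad, h2, h3, h4⟩ := h1 N (le_trans (le_max_left _ _) hN)
  refine ⟨Bad, h2, h3, fun n hn hnB a b ha hab hb hl => ?_⟩
  have hn2 := mem_Ioc.1 hn
  exact hQR N n a b (le_trans (le_max_right _ _) hN) hn2.1 hn2.2 hab (h4 n hn hnB a b ha hab hb hl)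

lemma AW_and {Q R : ℕ → ℕ → ℕ → ℕ → Prop} (hQ : AW Q) (hR : AW R) : AW (fun N n a b => Q N n a b ∧ R N n a b) := by
  intro A B
  obtain ⟨N1, h1⟩ := hQ (A + 1) B
  obtain ⟨N2, h2⟩ := hR (A + 1) B
  obtain ⟨n3, h3⟩ := ev_L' 2
  refine ⟨max (max N1 N2) n3, fun N hN => ?_⟩
  obtain ⟨Bad1, a1, a2, a3⟩ := h1 N (le_trans (le_trans (le_max_left _ _) (le_max_left _ _)) hN)
  obtain ⟨Bad2, b1, b2, b3⟩ := h2 N (le_trans (le_trans (le_max_right _ _) (le_max_left _ _)) hN)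
  have hL := h3 N (le_trans (le_max_right _ _) hN)
  refine ⟨Bad1 ∪ Bad2, union_subset a1 b1, ?_, fun n hn hnB a b ha hab hb hl => ?_⟩
  · have h4 : ((Bad1 ∪ Bad2).card : ℝ) ≤ Bad1.card + Bad2.card := by exact_mod_cast card_union_le _ _
    have hL0 : 0 < Real.log N := by linarith
    have h5 : N / Real.log N ^ (A + 1) + N / Real.log N ^ (A + 1) ≤ N / Real.log N ^ A := by
      rw [← add_div, div_le_div_iff₀ (by positivity) (by positivity), pow_succ]
      have : (0 : ℝ) ≤ N * Real.log N ^ A := by positivity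
      nlinarith
    linarith
  · rw [mem_union, not_or] at hnB
    exact ⟨a3 n hn hnB.1 a b ha hab hb hl, b3 n hn hnB.2 a b ha hab hb hl⟩

lemma AW_true : AW (fun _ _ _ _ => True) := by
  intro A B
  obtain ⟨n3, h3⟩ := ev_L' 2
  refine ⟨n3, fun N hN => ⟨∅, by simp, ?_, fun _ _ _ _ _ _ _ _ _ => trivial⟩⟩
  have hL := h3 N hN
  have hL0 : 0 < Real.log N := by linarith
  simp only [card_empty, Nat.cast_zero]
  positivity

lemma AW_fin {ι : Type*} (s : Finset ι) (Q : ι → ℕ → ℕ → ℕ → ℕ → Prop) (h : ∀ i ∈ s, AW (Q i)) :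
    AW (fun N n a b => ∀ i ∈ s, Q i N n a b) := by
  classical
  induction s using Finset.induction_on with
  | empty => exact AW_mono AW_true 0 (fun _ _ _ _ _ _ _ _ _ i hi => absurd hi (notMem_empty i))
  | insert i s _ ih =>
    refine AW_mono (AW_and (h i (mem_insert_self _ _)) (ih fun j hj => h j (mem_insert_of_mem hj))) 0 ?_
    intro N n a b _ _ _ _ hh j hj
    rw [mem_insert] at hj
    rcases hj with rfl | hj
    · exact hh.1
    · exact hh.2 j hj

/-- the sieve model has the mean `ℓ` along `v`, up to `ε` -/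
def Mo {H : Type u} [NormedAddCommGroup H] [InnerProductSpace ℂ H] (v : ℕ → H) (l : H) (ε : ℝ) : Prop :=
  ∃ B : ℕ, ∀ E : ℕ, ∃ X₀ : ℕ, ∀ x : ℕ, X₀ ≤ x → ∀ z : ℕ, Real.log x ^ B ≤ z → (z : ℝ) ≤ Real.log x ^ E →
    ∀ h : ℕ, (x : ℝ) ^ (1 / 4 : ℝ) ≤ h → h ≤ x → ‖Sw (lamz z) v x (x + h) - (h : ℂ) • l‖ ≤ ε * h

theorem base (hALL : S_ALL) {H : Type u} [NormedAddCommGroup H] [InnerProductSpace ℂ H] (v : ℕ → H) (hv : Sta v)
    (l : H) (ε : ℝ) (hε : 0 < ε) (hMo : Mo v l ε) :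
    AW (fun _ n a b => ‖((2 * Real.log n : ℝ) : ℂ) • ∑ p ∈ pr a b, v p - (((b : ℝ) - a : ℝ) : ℂ) • l‖ ≤
      2 * ε * ((b : ℝ) - a)) := by
  intro A B
  obtain ⟨B₁, hB₁⟩ := hMo
  obtain ⟨B₀, hB₀⟩ := core.{u} hALL (A + 1) (B + 2)
  set B' : ℕ := max B₀ B₁ with hB'
  set E : ℕ := 2 * B' + 1 with hE
  obtain ⟨X₀, hX⟩ := hB₁ E
  obtain ⟨N1, h1⟩ := hB₀ E
  obtain ⟨N2, h2⟩ := conv_primes.{u} (A + 1)
  obtain ⟨n3, h3⟩ := ev_L' (max 3 (2 * ‖v 0‖ / ε))
  obtain ⟨n4, h4⟩ := ev_log' B 2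
  obtain ⟨n5, h5⟩ := ev_log' (A + 1 + 3 + B) (2 * ‖v 0‖ / ε)
  refine ⟨max (max (max N1 N2) (max n3 n4)) (max (max n5 X₀) 9), fun N hN => ?_⟩
  have g1 : N1 ≤ N := le_trans (le_trans (le_trans (le_max_left _ _) (le_max_left _ _)) (le_max_left _ _)) hN
  have g2 : N2 ≤ N := le_trans (le_trans (le_trans (le_max_right _ _) (le_max_left _ _)) (le_max_left _ _)) hN
  have g3 : n3 ≤ N := le_trans (le_trans (le_trans (le_max_left _ _) (le_max_right _ _)) (le_max_left _ _)) hN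
  have g4 : n4 ≤ N := le_trans (le_trans (le_trans (le_max_right _ _) (le_max_right _ _)) (le_max_left _ _)) hN
  have g5 : n5 ≤ N := le_trans (le_trans (le_trans (le_max_left _ _) (le_max_left _ _)) (le_max_right _ _)) hN
  have g6 : X₀ ≤ N := le_trans (le_trans (le_trans (le_max_right _ _) (le_max_left _ _)) (le_max_right _ _)) hN
  have g7 : 9 ≤ N := le_trans (le_trans (le_max_right _ _) (le_max_right _ _)) hN
  set L : ℝ := Real.log N with hLdef
  have hL3 : 3 ≤ L := le_trans (le_max_left _ _) (h3 N g3)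
  have hLv : 2 * ‖v 0‖ / ε ≤ L := le_trans (le_max_right _ _) (h3 N g3)
  have k4 := h4 N g4
  have k5 := h5 N g5
  rw [← hLdef] at k4 k5
  have hL0 : 0 < L := by linarith
  have hN9 : (9 : ℝ) ≤ N := by exact_mod_cast g7
  have hsq : √(N : ℝ) ≤ N := by
    rw [Real.sqrt_le_left (by linarith)]
    nlinarith
  set z : ℕ := ⌈(3 * L) ^ B'⌉₊ with hz
  have hz1 : (3 * L) ^ B' ≤ z := Nat.le_ceil _
  have h3L : (1 : ℝ) ≤ 3 * L := by linarith
  have hz0 : (3 * L) ^ B₀ ≤ z := le_trans (pow_le_pow_right₀ h3L (le_max_left _ _)) hz1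
  have hz2 : (z : ℝ) ≤ L ^ E := by
    have e1 : (z : ℝ) < (3 * L) ^ B' + 1 := Nat.ceil_lt_add_one (by positivity)
    have e2 : (1 : ℝ) ≤ (3 * L) ^ B' := one_le_pow₀ h3L
    have e3 : (3 * L) ^ B' ≤ (L * L) ^ B' := by gcongr
    have e4 : (L * L) ^ B' * L = L ^ E := by
      rw [hE, pow_succ, pow_mul, pow_two]
    have e5 : (0 : ℝ) ≤ (L * L) ^ B' := by positivity
    nlinarith
  obtain ⟨Bad1, a1, a2, a3⟩ := h1 N g1 z hz0 hz2 H v hv
  obtain ⟨Bad2, b1, b2, b3⟩ := h2 N g2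
  refine ⟨Bad1 ∪ Bad2, union_subset a1 b1, ?_, fun n hn hnB a b ha hab hb hl => ?_⟩
  · have h4 : ((Bad1 ∪ Bad2).card : ℝ) ≤ Bad1.card + Bad2.card := by exact_mod_cast card_union_le _ _
    have h5 : N / L ^ (A + 1) + N / L ^ (A + 1) ≤ N / L ^ A := by
      rw [← add_div, div_le_div_iff₀ (by positivity) (by positivity), pow_succ]
      have : (0 : ℝ) ≤ N * L ^ A := by positivity
      nlinarith
    linarith
  · rw [mem_union, not_or] at hnB
    have c1 := a3 n hn hnB.1 a b ha hab hb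
    have c2 := b3 n hn hnB.2 a b ha hab hb H v hv
    rw [mem_Ioc] at hn
    set h : ℕ := b - a with hh
    have hbh : b = a + h := by omega
    have hhR : ((b : ℝ) - a) = h := by rw [hbh]; push_cast; ring
    rw [hhR] at hl ⊢
    have haN : N ^ 2 ≤ a := le_trans (Nat.pow_le_pow_left (by omega) 2) ha
    have ha9 : a ≤ 9 * N ^ 2 := by
      have : a ≤ (n + 1) ^ 2 := le_trans hab hb
      have h6 : (n + 1) ^ 2 ≤ (3 * N) ^ 2 := Nat.pow_le_pow_left (by omega) 2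
      have h7 : (3 * N) ^ 2 = 9 * N ^ 2 := by ring
      omega
    have haNR : (N : ℝ) ^ 2 ≤ a := by exact_mod_cast haN
    have ha9R : (a : ℝ) ≤ 9 * (N : ℝ) ^ 2 := by exact_mod_cast ha9
    have hla : Real.log a ≤ 3 * L := by
      have e1 : Real.log a ≤ Real.log ((3 * N) ^ 2) := by
        apply Real.log_le_log (by nlinarith)
        nlinarith
      rw [Real.log_pow, Real.log_mul (by norm_num) (by linarith)] at e1
      have e2 : Real.log 3 ≤ L / 2 := by
        have : Real.log 9 = 2 * Real.log 3 := by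
          rw [show (9 : ℝ) = 3 ^ 2 by norm_num, Real.log_pow]; norm_num
        have h9 : Real.log 9 ≤ L := Real.log_le_log (by norm_num) hN9
        linarith
      push_cast at e1
      linarith
    have hlL : L ≤ Real.log a := by
      apply Real.log_le_log (by linarith)
      nlinarith
    have hxX : X₀ ≤ a := by
      have : N ≤ N ^ 2 := by nlinarith
      omega
    have d1 : Real.log a ^ B₁ ≤ z := by
      calc Real.log a ^ B₁ ≤ (3 * L) ^ B₁ := by
            apply pow_le_pow_left₀ (by linarith) hla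
        _ ≤ (3 * L) ^ B' := pow_le_pow_right₀ h3L (le_max_right _ _)
        _ ≤ z := hz1
    have d2 : (z : ℝ) ≤ Real.log a ^ E := hz2.trans (pow_le_pow_left₀ hL0.le hlL _)
    have d3 : (a : ℝ) ^ (1 / 4 : ℝ) ≤ h := by
      have e1 : (a : ℝ) ^ (1 / 4 : ℝ) ≤ (16 * (N : ℝ) ^ 2) ^ (1 / 4 : ℝ) :=
        Real.rpow_le_rpow (by positivity) (by nlinarith) (by norm_num)
      have e2 : (16 * (N : ℝ) ^ 2) ^ (1 / 4 : ℝ) = 2 * √(N : ℝ) := by
        rw [Real.mul_rpow (by norm_num) (by positivity), Real.sqrt_eq_rpow]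
        congr 1
        · rw [show (16 : ℝ) = 2 ^ (4 : ℝ) by norm_num, ← Real.rpow_mul (by norm_num)]
          norm_num
        · rw [← Real.rpow_natCast, ← Real.rpow_mul (by positivity)]
          norm_num
      have e3 : 2 * √(N : ℝ) ≤ N / L ^ B := by
        rw [le_div_iff₀ (by positivity)]
        have : √(N : ℝ) * √(N : ℝ) = N := Real.mul_self_sqrt (by positivity)
        calc 2 * √(N : ℝ) * L ^ B = (2 * L ^ B) * √(N : ℝ) := by ring
          _ ≤ √(N : ℝ) * √(N : ℝ) := by gcongr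
          _ = N := this
      linarith
    have d4 : h ≤ a := by
      have h5 : (n + 1) ^ 2 - (n - 1) ^ 2 = 4 * n := by
        obtain ⟨k, rfl⟩ : ∃ k, n = k + 1 := ⟨n - 1, by omega⟩
        have : (k + 1 + 1) ^ 2 = (k + 1 - 1) ^ 2 + 4 * (k + 1) := by
          simp only [Nat.add_sub_cancel]
          ring
        omega
      have h6 : h ≤ 4 * n := by omega
      have h7 : 8 * N ≤ N ^ 2 := by nlinarith
      omega
    have c3 := hX a hxX z d1 d2 h d3 d4
    rw [← hbh] at c3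
    have e1 : Sw (fun k => vonMangoldt k) v a b = Sw (gz z) v a b + Sw (lamz z) v a b := by
      unfold Sw gz
      rw [← sum_add_distrib]
      refine sum_congr rfl fun k _ => ?_
      rw [← add_smul, ← Complex.ofReal_add]
      congr 2
      ring
    have e2 : ((2 * Real.log n : ℝ) : ℂ) • ∑ p ∈ pr a b, v p - ((h : ℝ) : ℂ) • l =
        (((2 * Real.log n : ℝ) : ℂ) • ∑ p ∈ pr a b, v p - Sw (fun k => vonMangoldt k) v a b) +
          Sw (gz z) v a b + (Sw (lamz z) v a b - (h : ℂ) • l) := by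
      rw [e1, Complex.ofReal_natCast]
      abel
    rw [e2]
    have f1 : N / L ^ (B + 2) * ‖v 0‖ ≤ ε / 2 * h := by
      have : ‖v 0‖ ≤ ε / 2 * L ^ 2 := by
        rw [div_le_iff₀ hε] at hLv
        have hLL : L ≤ L ^ 2 := by nlinarith
        calc ‖v 0‖ ≤ ε / 2 * L := by linarith
          _ ≤ ε / 2 * L ^ 2 := by gcongr
      calc N / L ^ (B + 2) * ‖v 0‖ ≤ N / L ^ (B + 2) * (ε / 2 * L ^ 2) := by gcongr
        _ = ε / 2 * (N / L ^ B) := by
            rw [pow_add]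
            field_simp
        _ ≤ ε / 2 * h := by gcongr
    have f2 : L ^ (A + 1 + 3) * ‖v 0‖ ≤ ε / 2 * h := by
      have : 2 * ‖v 0‖ / ε * L ^ (A + 1 + 3 + B) ≤ N := k5.trans hsq
      have e3 : L ^ (A + 1 + 3) * ‖v 0‖ ≤ ε / 2 * (N / L ^ B) := by
        rw [mul_div_assoc', le_div_iff₀ (by positivity)]
        rw [pow_add _ (A + 1 + 3) B] at this
        calc L ^ (A + 1 + 3) * ‖v 0‖ * L ^ B = ε / 2 * (2 * ‖v 0‖ / ε * (L ^ (A + 1 + 3) * L ^ B)) := by
              field_simp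
          _ ≤ ε / 2 * N := by gcongr
      refine e3.trans ?_
      gcongr
    calc _ ≤ ‖((2 * Real.log n : ℝ) : ℂ) • ∑ p ∈ pr a b, v p - Sw (fun k => vonMangoldt k) v a b‖ +
          ‖Sw (gz z) v a b‖ + ‖Sw (lamz z) v a b - (h : ℂ) • l‖ := norm_add₃_le
      _ ≤ L ^ (A + 1 + 3) * ‖v 0‖ + N / L ^ (B + 2) * ‖v 0‖ + ε * h := add_le_add (add_le_add c2 c1) c3
      _ ≤ 2 * ε * h := by linarith

end Pool.Agent.Run7.h591.EG
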