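import Mathlib
import Pool.Agent.Run7.h591.EG.Aw

/-!
# Project ERG (helper591), part 7: arithmetic progressions with a fixed modulus
-/

set_option autoImplicit false
set_option maxHeartbeats 4000000

universe u

namespace Pool.Agent.Run7.h591.EG

open Finset Filter Topology
open Pool.Agent.Run7.h794.MK (W MS S_ALL)
open Pool.Agent.H807R2.Dav (ee ee_add norm_ee ee_eq ee_int ee_zero)
open Pool.Agent.H373R2.T7 (lamz Vz Vz_inv_le lamz_nonneg Vz_pos ev_L' ev_log')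
open Pool.Agent.Run7.h609.MK (eNK)
open Pool.Agent.Q236.CR (cc)

lemma Mo_NR {H : Type u} [NormedAddCommGroup H] [InnerProductSpace ℂ H] (v : ℕ → H) (hv : Sta v) (hNR : NR v)
    (ε : ℝ) (hε : 0 < ε) : Mo v 0 ε := by
  obtain ⟨B, hB⟩ := lam_small v hv hNR ε hε
  refine ⟨B, fun E => ?_⟩
  obtain ⟨X₀, hX⟩ := hB E
  refine ⟨X₀, fun x hx z h1 h2 h h3 h4 => ?_⟩
  rw [smul_zero, sub_zero]
  exact hX x hx z h1 h2 h h3 h4

lemma Sta_ee (t : ℝ) : Sta (fun k : ℕ => ee ((k : ℝ) * t)) := by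
  intro m n k
  simp only [RCLike.inner_apply]
  have e1 : ee (((m + k : ℕ) : ℝ) * t) = ee ((m : ℝ) * t) * ee ((k : ℝ) * t) := by
    rw [← ee_add]; congr 1; push_cast; ring
  have e2 : ee (((n + k : ℕ) : ℝ) * t) = ee ((n : ℝ) * t) * ee ((k : ℝ) * t) := by
    rw [← ee_add]; congr 1; push_cast; ring
  have e3 : ee ((k : ℝ) * t) * ee (-((k : ℝ) * t)) = 1 := by
    rw [← ee_add, add_neg_cancel, ee_zero]
  rw [e1, e2, map_mul, ee_conj, ee_conj]
  linear_combination (ee ((n : ℝ) * t) * ee (-((m : ℝ) * t))) * e3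

lemma Mo_rat (r s : ℕ) (hr : 1 ≤ r) (ε : ℝ) (hε : 0 < ε) :
    Mo (fun k : ℕ => ee ((k : ℝ) * ((s : ℝ) / r))) (cc r s) ε := by
  refine ⟨1, fun E => ?_⟩
  obtain ⟨X₀, hX⟩ := Run7.h373.CR.lz 1 E 1
  obtain ⟨n1, h1⟩ := ev_L' (max r (1 / ε))
  refine ⟨max (max X₀ n1) 2, fun x hx z hz1 hz2 h h3 h4 => ?_⟩
  have hxX : X₀ ≤ x := le_trans (le_trans (le_max_left _ _) (le_max_left _ _)) hx
  have hL := h1 x (le_trans (le_trans (le_max_right _ _) (le_max_left _ _)) hx)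
  have hx2 : 2 ≤ x := le_trans (le_max_right _ _) hx
  have hLr : (r : ℝ) ≤ Real.log x := le_trans (le_max_left _ _) hL
  have hLe : 1 / ε ≤ Real.log x := le_trans (le_max_right _ _) hL
  have hL0 : 0 < Real.log x := lt_of_lt_of_le (by positivity) hLe
  rw [pow_one] at hz1
  have hrz : r ≤ z := by exact_mod_cast hLr.trans hz1
  have h8 : (x : ℝ) ^ (1 / 8 : ℝ) ≤ h := by
    refine le_trans (Real.rpow_le_rpow_of_exponent_le ?_ (by norm_num)) h3
    have : 1 ≤ x := by omega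
    exact_mod_cast this
  have h5 := hX x hxX z r hr (by rw [pow_one]; exact hLr) hrz hz2 s x h h8
  have e1 : ∑ n ∈ Ioc x (x + h), (lamz z n : ℂ) * Pool.Agent.H469R2.NK.e ((s : ℝ) * n / r) =
      Sw (lamz z) (fun k : ℕ => ee ((k : ℝ) * ((s : ℝ) / r))) x (x + h) := by
    unfold Sw
    refine sum_congr rfl fun n _ => ?_
    rw [eNK, smul_eq_mul]
    congr 2
    ring
  have e2 : (h : ℂ) • cc r s = cc r s * h := by rw [smul_eq_mul, mul_comm]
  rw [e2, ← e1]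
  refine h5.trans ?_
  rw [pow_one, div_le_iff₀ hL0]
  have : 1 ≤ ε * Real.log x := by
    rw [div_le_iff₀ hε] at hLe
    linarith
  have h6 : (0 : ℝ) ≤ h := by positivity
  nlinarith

lemma Sta_twist {H : Type u} [NormedAddCommGroup H] [InnerProductSpace ℂ H] {v : ℕ → H} (hv : Sta v) (t : ℝ) :
    Sta (fun k : ℕ => ee ((k : ℝ) * t) • v k) := by
  intro m n k
  simp only [inner_smul_left, inner_smul_right]
  rw [hv m n k]
  have e1 : ee (((m + k : ℕ) : ℝ) * t) = ee ((m : ℝ) * t) * ee ((k : ℝ) * t) := by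
    rw [← ee_add]; congr 1; push_cast; ring
  have e2 : ee (((n + k : ℕ) : ℝ) * t) = ee ((n : ℝ) * t) * ee ((k : ℝ) * t) := by
    rw [← ee_add]; congr 1; push_cast; ring
  have e3 : ee ((k : ℝ) * t) * ee (-((k : ℝ) * t)) = 1 := by
    rw [← ee_add, add_neg_cancel, ee_zero]
  rw [e1, e2, map_mul, ee_conj, ee_conj]
  linear_combination (ee ((n : ℝ) * t) * ee (-((m : ℝ) * t)) * inner ℂ (v m) (v n)) * e3

lemma NR_twist {H : Type u} [NormedAddCommGroup H] [InnerProductSpace ℂ H] {v : ℕ → H} (hv : NR v) (s r : ℕ)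
    (hr : 1 ≤ r) : NR (fun k : ℕ => ee ((k : ℝ) * ((s : ℝ) / r)) • v k) := by
  intro b d hd
  have h1 := hv (b * r + s * d * (r - 1)) (d * r) (Nat.mul_pos hd hr)
  refine h1.congr fun K => ?_
  congr 2
  refine sum_congr rfl fun j _ => ?_
  rw [smul_smul, ← ee_add]
  congr 1
  have hr0 : (r : ℝ) ≠ 0 := by positivity
  have hd0 : (d : ℝ) ≠ 0 := by positivity
  have e1 : (((b * r + s * d * (r - 1) : ℕ)) : ℝ) / ((d * r : ℕ) : ℝ) = (b : ℝ) / d - (s : ℝ) / r + s := by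
    rw [Nat.cast_add, Nat.cast_mul, Nat.cast_mul, Nat.cast_mul, Nat.cast_mul, Nat.cast_sub hr]
    push_cast
    field_simp
    ring
  rw [e1]
  have e2 : -((j : ℝ) * ((b : ℝ) / d - (s : ℝ) / r + s)) =
      (-((j : ℝ) * ((b : ℝ) / d)) + (j : ℝ) * ((s : ℝ) / r)) + ((-((j : ℤ) * s) : ℤ) : ℝ) := by
    push_cast; ring
  rw [e2, ee_add _ ((-((j : ℤ) * s) : ℤ) : ℝ), ee_int, mul_one]

/-- orthogonality modulo `r` -/
lemma orthr (r m c : ℕ) (hr : 1 ≤ r) :
    ∑ s ∈ range r, ee (((m : ℝ) - c) * ((s : ℝ) / r)) = if m % r = c % r then (r : ℂ) else 0 := by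
  have h1 := orth r (c % r) (m % r) (Nat.mod_lt _ hr) (Nat.mod_lt _ hr)
  have h2 : (if c % r = m % r then (r : ℂ) else 0) = if m % r = c % r then (r : ℂ) else 0 := by
    by_cases h : c % r = m % r
    · rw [if_pos h, if_pos h.symm]
    · rw [if_neg h, if_neg (fun h' => h h'.symm)]
  rw [← h2, ← h1]
  refine sum_congr rfl fun s _ => ?_
  have hr0 : (r : ℝ) ≠ 0 := by positivity
  have e1 : (m : ℝ) = r * (m / r : ℕ) + (m % r : ℕ) := by exact_mod_cast (Nat.div_add_mod m r).symm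
  have e2 : (c : ℝ) = r * (c / r : ℕ) + (c % r : ℕ) := by exact_mod_cast (Nat.div_add_mod c r).symm
  generalize m / r = M1 at e1
  generalize c / r = C1 at e2
  have e3 : ((m : ℝ) - c) * ((s : ℝ) / r) = (((m % r : ℕ) : ℝ) - (c % r : ℕ)) * ((s : ℝ) / r) +
      ((((M1 : ℤ) - (C1 : ℤ)) * (s : ℤ) : ℤ) : ℝ) := by
    have e4 : (s : ℝ) / r * r = s := div_mul_cancel₀ _ hr0
    push_cast
    linear_combination ((s : ℝ) / r) * e1 - ((s : ℝ) / r) * e2 + ((M1 : ℝ) - C1) * e4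
  rw [e3, ee_add, ee_int, mul_one]

lemma sum_class {H : Type u} [NormedAddCommGroup H] [InnerProductSpace ℂ H] (v : ℕ → H) (S : Finset ℕ) (r c : ℕ)
    (hr : 1 ≤ r) : ∑ p ∈ S.filter (fun p => p % r = c % r), v p =
      ((1 / r : ℝ) : ℂ) • ∑ s ∈ range r, ee (-((c : ℝ) * ((s : ℝ) / r))) •
        ∑ p ∈ S, ee ((p : ℝ) * ((s : ℝ) / r)) • v p := by
  have h1 : ∑ s ∈ range r, ee (-((c : ℝ) * ((s : ℝ) / r))) • ∑ p ∈ S, ee ((p : ℝ) * ((s : ℝ) / r)) • v p =
      ∑ p ∈ S, (if p % r = c % r then (r : ℂ) else 0) • v p := by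
    simp only [smul_sum]
    rw [sum_comm]
    refine sum_congr rfl fun p _ => ?_
    rw [← orthr r p c hr, sum_smul]
    refine sum_congr rfl fun s _ => ?_
    rw [smul_smul, ← ee_add]
    congr 2
    ring
  rw [h1, sum_filter, smul_sum]
  refine sum_congr rfl fun p _ => ?_
  have hr0 : (r : ℂ) ≠ 0 := by exact_mod_cast (show r ≠ 0 by omega)
  split_ifs
  · rw [smul_smul]
    push_cast
    rw [one_div_mul_cancel hr0, one_smul]
  · rw [zero_smul, smul_zero]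

/-- **E1**: sequences without rational spectrum, primes in a residue class -/
theorem E1 (hALL : S_ALL) {H : Type u} [NormedAddCommGroup H] [InnerProductSpace ℂ H] (v : ℕ → H) (hv : Sta v)
    (hNR : NR v) (r c : ℕ) (hr : 1 ≤ r) (ε : ℝ) (hε : 0 < ε) :
    AW (fun _ n a b => 2 * Real.log n * ‖∑ p ∈ (pr a b).filter (fun p => p % r = c % r), v p‖ ≤
      ε * ((b : ℝ) - a)) := by
  have h1 := AW_fin (range r) (fun s _ n a b => ‖((2 * Real.log n : ℝ) : ℂ) •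
      ∑ p ∈ pr a b, ee ((p : ℝ) * ((s : ℝ) / r)) • v p - (((b : ℝ) - a : ℝ) : ℂ) • (0 : H)‖ ≤
      2 * (ε / 2) * ((b : ℝ) - a)) (fun s _ => base hALL _ (Sta_twist hv _) 0 (ε / 2) (by positivity)
        (Mo_NR _ (Sta_twist hv _) (NR_twist hNR s r hr) _ (by positivity)))
  refine AW_mono h1 1 ?_
  intro N n a b hN1 hNn _ hab h
  have hlog : 0 ≤ 2 * Real.log n := mul_nonneg (by norm_num) (Real.log_natCast_nonneg n)
  have hr0 : (0 : ℝ) < r := by exact_mod_cast hr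
  rw [sum_class v _ r c hr, norm_smul, Complex.norm_real, Real.norm_eq_abs, abs_of_pos (by positivity : 0 < 1 / (r : ℝ))]
  have h2 : 2 * Real.log n * ‖∑ s ∈ range r, ee (-((c : ℝ) * ((s : ℝ) / r))) •
        ∑ p ∈ pr a b, ee ((p : ℝ) * ((s : ℝ) / r)) • v p‖ ≤ r * (ε * ((b : ℝ) - a)) := by
    calc 2 * Real.log n * ‖∑ s ∈ range r, ee (-((c : ℝ) * ((s : ℝ) / r))) •
        ∑ p ∈ pr a b, ee ((p : ℝ) * ((s : ℝ) / r)) • v p‖ ≤ 2 * Real.log n * ∑ s ∈ range r,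
          ‖∑ p ∈ pr a b, ee ((p : ℝ) * ((s : ℝ) / r)) • v p‖ := by
          apply mul_le_mul_of_nonneg_left _ hlog
          refine (norm_sum_le _ _).trans (le_of_eq (sum_congr rfl fun s _ => ?_))
          rw [norm_smul, norm_ee, one_mul]
      _ = ∑ s ∈ range r, 2 * Real.log n * ‖∑ p ∈ pr a b, ee ((p : ℝ) * ((s : ℝ) / r)) • v p‖ := mul_sum _ _ _
      _ ≤ ∑ s ∈ range r, ε * ((b : ℝ) - a) := by
          refine sum_le_sum fun s hs => ?_
          have h3 := h s hs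
          rw [smul_zero, sub_zero, norm_smul, Complex.norm_real, Real.norm_eq_abs, abs_of_nonneg hlog] at h3
          linarith
      _ = r * (ε * ((b : ℝ) - a)) := by rw [sum_const, card_range, nsmul_eq_mul]
  calc 2 * Real.log n * (1 / r * ‖∑ s ∈ range r, ee (-((c : ℝ) * ((s : ℝ) / r))) •
        ∑ p ∈ pr a b, ee ((p : ℝ) * ((s : ℝ) / r)) • v p‖) = 1 / r * (2 * Real.log n * ‖∑ s ∈ range r,
        ee (-((c : ℝ) * ((s : ℝ) / r))) • ∑ p ∈ pr a b, ee ((p : ℝ) * ((s : ℝ) / r)) • v p‖) := by ring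
    _ ≤ 1 / r * (r * (ε * ((b : ℝ) - a))) := by gcongr
    _ = ε * ((b : ℝ) - a) := by field_simp

lemma cc_avg (r c : ℕ) (hr : 1 ≤ r) (hc : Nat.Coprime c r) :
    ((1 / r : ℝ) : ℂ) * ∑ s ∈ range r, ee (-((c : ℝ) * ((s : ℝ) / r))) * cc r s = 1 / (Nat.totient r : ℂ) := by
  have hr0 : (r : ℂ) ≠ 0 := by exact_mod_cast (show r ≠ 0 by omega)
  have h1 : ∀ s ∈ range r, ee (-((c : ℝ) * ((s : ℝ) / r))) * cc r s = (1 / (Nat.totient r : ℂ)) *
      ∑ b ∈ (range r).filter (fun b => b.Coprime r), ee (((b : ℝ) - c) * ((s : ℝ) / r)) := by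
    intro s _
    unfold cc
    rw [mul_left_comm, mul_sum]
    congr 1
    refine sum_congr rfl fun b _ => ?_
    rw [eNK, ← ee_add]
    congr 1
    ring
  rw [sum_congr rfl h1, ← mul_sum, sum_comm]
  simp_rw [orthr r _ c hr]
  rw [← sum_filter, sum_const, nsmul_eq_mul]
  have h2 : (((range r).filter (fun b => b.Coprime r)).filter (fun b => b % r = c % r)).card = 1 := by
    rw [card_eq_one]
    refine ⟨c % r, ?_⟩
    ext b
    rw [mem_filter, mem_filter, mem_range, mem_singleton]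
    constructor
    · rintro ⟨⟨h1, _⟩, h2⟩
      rwa [Nat.mod_eq_of_lt h1] at h2
    · rintro rfl
      refine ⟨⟨Nat.mod_lt _ hr, ?_⟩, Nat.mod_mod _ _⟩
      rw [Nat.Coprime, ← Nat.gcd_rec, Nat.gcd_comm]
      exact hc
  rw [h2]
  push_cast
  field_simp

/-- **E2**: the number of primes in a reduced residue class -/
theorem E2 (hALL : S_ALL) (r c : ℕ) (hr : 1 ≤ r) (hc : Nat.Coprime c r) (ε : ℝ) (hε : 0 < ε) :
    AW (fun _ n a b => |2 * Real.log n * (((pr a b).filter (fun p => p % r = c % r)).card : ℝ) -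
      ((b : ℝ) - a) / Nat.totient r| ≤ ε * ((b : ℝ) - a)) := by
  have h1 := AW_fin (range r) (fun s _ n a b => ‖((2 * Real.log n : ℝ) : ℂ) •
      ∑ p ∈ pr a b, ee ((p : ℝ) * ((s : ℝ) / r)) - (((b : ℝ) - a : ℝ) : ℂ) • cc r s‖ ≤
      2 * (ε / 2) * ((b : ℝ) - a)) (fun s _ => base hALL _ (Sta_ee _) (cc r s) (ε / 2) (by positivity)
        (Mo_rat r s hr _ (by positivity)))
  refine AW_mono h1 1 ?_
  intro N n a b hN1 hNn _ hab h
  have hr0 : (0 : ℝ) < r := by exact_mod_cast hr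
  have e1 := sum_class (fun _ => (1 : ℂ)) (pr a b) r c hr
  rw [sum_const, nsmul_eq_mul, mul_one] at e1
  have e2 : (((2 * Real.log n * (((pr a b).filter (fun p => p % r = c % r)).card : ℝ) -
      ((b : ℝ) - a) / Nat.totient r) : ℝ) : ℂ) = ((1 / r : ℝ) : ℂ) * ∑ s ∈ range r,
        ee (-((c : ℝ) * ((s : ℝ) / r))) * (((2 * Real.log n : ℝ) : ℂ) •
      ∑ p ∈ pr a b, ee ((p : ℝ) * ((s : ℝ) / r)) - (((b : ℝ) - a : ℝ) : ℂ) • cc r s) := by
    have h3 := cc_avg r c hr hc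
    simp only [smul_eq_mul, mul_one] at e1 ⊢
    have h4 : ∑ s ∈ range r, ee (-((c : ℝ) * ((s : ℝ) / r))) * (((2 * Real.log n : ℝ) : ℂ) *
      ∑ p ∈ pr a b, ee ((p : ℝ) * ((s : ℝ) / r)) - (((b : ℝ) - a : ℝ) : ℂ) * cc r s) =
      ((2 * Real.log n : ℝ) : ℂ) * ∑ s ∈ range r, ee (-((c : ℝ) * ((s : ℝ) / r))) *
        ∑ p ∈ pr a b, ee ((p : ℝ) * ((s : ℝ) / r)) -
      (((b : ℝ) - a : ℝ) : ℂ) * ∑ s ∈ range r, ee (-((c : ℝ) * ((s : ℝ) / r))) * cc r s := by
      rw [mul_sum, mul_sum, ← sum_sub_distrib]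
      refine sum_congr rfl fun s _ => ?_
      ring
    rw [h4]
    generalize 2 * Real.log (n : ℝ) = Lg
    push_cast at e1 h3 ⊢
    linear_combination (Lg : ℂ) * e1 + ((b : ℂ) - a) * h3
  have e3 : |2 * Real.log n * (((pr a b).filter (fun p => p % r = c % r)).card : ℝ) -
      ((b : ℝ) - a) / Nat.totient r| = ‖(((2 * Real.log n * (((pr a b).filter (fun p => p % r = c % r)).card : ℝ) -
      ((b : ℝ) - a) / Nat.totient r) : ℝ) : ℂ)‖ := by
    rw [Complex.norm_real, Real.norm_eq_abs]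
  rw [e3, e2, norm_mul, Complex.norm_real, Real.norm_eq_abs, abs_of_pos (by positivity : 0 < 1 / (r : ℝ))]
  calc _ ≤ 1 / (r : ℝ) * ∑ s ∈ range r, ε * ((b : ℝ) - a) := by
        apply mul_le_mul_of_nonneg_left _ (by positivity)
        refine (norm_sum_le _ _).trans (sum_le_sum fun s hs => ?_)
        rw [norm_mul, norm_ee, one_mul]
        have := h s hs
        linarith
    _ = ε * ((b : ℝ) - a) := by
        rw [sum_const, card_range, nsmul_eq_mul]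
        field_simp

end Pool.Agent.Run7.h591.EG
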