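import Mathlib
import Pool.Agent.Run7.h591.EG.Ap

/-!
# Project ERG (helper591), part 8: isometries of a Hilbert space; recurrence along the primes
-/

set_option autoImplicit false
set_option maxHeartbeats 4000000

universe u

namespace Pool.Agent.Run7.h591.EG

open Finset Filter Topology
open Pool.Agent.Run7.h794.MK (W MS S_ALL)
open Pool.Agent.H807R2.Dav (ee ee_add norm_ee ee_eq ee_int ee_zero)

section basic

variable {H : Type u} [NormedAddCommGroup H] [InnerProductSpace ℂ H]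

lemma it_succ (U : H →ₗᵢ[ℂ] H) (k : ℕ) (x : H) : U^[k + 1] x = U (U^[k] x) := Function.iterate_succ_apply' _ _ _

lemma it_add (U : H →ₗᵢ[ℂ] H) (k : ℕ) (x y : H) : U^[k] (x + y) = U^[k] x + U^[k] y := by
  induction k with
  | zero => rfl
  | succ k ih => rw [it_succ, it_succ, it_succ, ih, map_add]

lemma it_sub (U : H →ₗᵢ[ℂ] H) (k : ℕ) (x y : H) : U^[k] (x - y) = U^[k] x - U^[k] y := by
  induction k with
  | zero => rfl
  | succ k ih => rw [it_succ, it_succ, it_succ, ih, map_sub]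

lemma it_smul (U : H →ₗᵢ[ℂ] H) (k : ℕ) (c : ℂ) (x : H) : U^[k] (c • x) = c • U^[k] x := by
  induction k with
  | zero => rfl
  | succ k ih => rw [it_succ, it_succ, ih, map_smul]

lemma it_zero (U : H →ₗᵢ[ℂ] H) (k : ℕ) : U^[k] (0 : H) = 0 := by
  induction k with
  | zero => rfl
  | succ k ih => rw [it_succ, ih, map_zero]

lemma it_inner (U : H →ₗᵢ[ℂ] H) (k : ℕ) (x y : H) : inner ℂ (U^[k] x) (U^[k] y) = inner ℂ x y := by
  induction k with
  | zero => rfl
  | succ k ih => rw [it_succ, it_succ, LinearIsometry.inner_map_map, ih]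

lemma it_norm (U : H →ₗᵢ[ℂ] H) (k : ℕ) (x : H) : ‖U^[k] x‖ = ‖x‖ := by
  induction k with
  | zero => rfl
  | succ k ih => rw [it_succ, LinearIsometry.norm_map, ih]

lemma it_it (U : H →ₗᵢ[ℂ] H) (j k : ℕ) (x : H) : U^[j] (U^[k] x) = U^[j + k] x :=
  (Function.iterate_add_apply _ _ _ _).symm

lemma it_mul (U : H →ₗᵢ[ℂ] H) (r k : ℕ) (x : H) (h : U^[r] x = x) : U^[r * k] x = x := by
  rw [Function.iterate_mul]
  exact Function.iterate_fixed h k

lemma it_mod (U : H →ₗᵢ[ℂ] H) (r k : ℕ) (x : H) (h : U^[r] x = x) : U^[k] x = U^[k % r] x := by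
  conv_lhs => rw [← Nat.mod_add_div k r]
  rw [← it_it, it_mul U r _ x h]

lemma Sta_it (U : H →ₗᵢ[ℂ] H) (f : H) : Sta (fun k => U^[k] f) := by
  intro m n k
  simp only
  rw [add_comm m k, add_comm n k, ← it_it, ← it_it, it_inner]

/-- the periodic vectors -/
def Per (U : H →ₗᵢ[ℂ] H) : Submodule ℂ H where
  carrier := {g | ∃ r : ℕ, 1 ≤ r ∧ U^[r] g = g}
  zero_mem' := ⟨1, le_rfl, by rw [it_zero]⟩
  add_mem' := by
    rintro x y ⟨r, hr, hx⟩ ⟨s, hs, hy⟩
    refine ⟨r * s, Nat.mul_pos hr hs, ?_⟩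
    rw [it_add, it_mul U r s x hx, mul_comm r s, it_mul U s r y hy]
  smul_mem' := by
    rintro c x ⟨r, hr, hx⟩
    exact ⟨r, hr, by rw [it_smul, hx]⟩

/-- totally non periodic vectors: orthogonal to all periodic ones -/
def Tot (U : H →ₗᵢ[ℂ] H) (f : H) : Prop := ∀ (g : H) (r : ℕ), 1 ≤ r → U^[r] g = g → inner ℂ g f = 0

/-- limits of periodic vectors -/
def Rat (U : H →ₗᵢ[ℂ] H) (f : H) : Prop := ∀ δ : ℝ, 0 < δ → ∃ (g : H) (r : ℕ), 1 ≤ r ∧ U^[r] g = g ∧ ‖f - g‖ ≤ δ

lemma dec [CompleteSpace H] (U : H →ₗᵢ[ℂ] H) (f : H) : ∃ f₁ f₂ : H, f = f₁ + f₂ ∧ Rat U f₁ ∧ Tot U f₂ := by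
  set K : Submodule ℂ H := (Per U).topologicalClosure with hK
  have : CompleteSpace K := (Submodule.isClosed_topologicalClosure _).completeSpace_coe
  refine ⟨K.starProjection f, f - K.starProjection f, by abel, ?_, ?_⟩
  · intro δ hδ
    have h1 : K.starProjection f ∈ closure (Per U : Set H) := by
      have := K.starProjection_apply_mem f
      exact this
    obtain ⟨g, hg, hd⟩ := Metric.mem_closure_iff.1 h1 δ hδ
    obtain ⟨r, hr, hgr⟩ := hg
    exact ⟨g, r, hr, hgr, by rw [← dist_eq_norm]; exact hd.le⟩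
  · intro g r hr hg
    have h1 := K.sub_starProjection_mem_orthogonal f
    rw [Submodule.mem_orthogonal] at h1
    exact h1 g ((Per U).le_topologicalClosure ⟨r, hr, hg⟩)

lemma Tot_it (U : H →ₗᵢ[ℂ] H) (f : H) (hf : Tot U f) (k : ℕ) : Tot U (U^[k] f) := by
  intro g r hr hg
  have h1 : g = U^[k] (U^[(r - 1) * k] g) := by
    rw [it_it]
    have : k + (r - 1) * k = r * k := by
      obtain ⟨s, rfl⟩ : ∃ s, r = s + 1 := ⟨r - 1, by omega⟩
      simp only [Nat.add_sub_cancel]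
      ring
    rw [this, it_mul U r k g hg]
  rw [h1, it_inner]
  refine hf _ r hr ?_
  rw [it_it, add_comm, ← it_it, hg]

lemma Rat_Tot (U : H →ₗᵢ[ℂ] H) (f₁ f₂ : H) (h1 : Rat U f₁) (h2 : Tot U f₂) : inner ℂ f₁ f₂ = 0 := by
  rw [← norm_eq_zero]
  apply le_antisymm _ (norm_nonneg _)
  apply le_of_forall_pos_le_add
  intro ε hε
  obtain ⟨g, r, hr, hg, hd⟩ := h1 (ε / (‖f₂‖ + 1)) (by positivity)
  have e1 : inner ℂ f₁ f₂ = inner ℂ (f₁ - g) f₂ := by
    rw [inner_sub_left, h2 g r hr hg, sub_zero]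
  rw [e1, zero_add]
  calc ‖inner ℂ (f₁ - g) f₂‖ ≤ ‖f₁ - g‖ * ‖f₂‖ := norm_inner_le_norm _ _
    _ ≤ ε / (‖f₂‖ + 1) * ‖f₂‖ := by gcongr
    _ ≤ ε := by
      rw [div_mul_eq_mul_div, div_le_iff₀ (by positivity)]
      nlinarith [norm_nonneg f₂]

lemma Rat_it (U : H →ₗᵢ[ℂ] H) (f : H) (hf : Rat U f) (k : ℕ) : Rat U (U^[k] f) := by
  intro δ hδ
  obtain ⟨g, r, hr, hg, hd⟩ := hf δ hδ
  refine ⟨U^[k] g, r, hr, ?_, ?_⟩
  · rw [it_it, add_comm, ← it_it, hg]
  · rw [← it_sub, it_norm]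
    exact hd

/-- totally non periodic vectors have no rational spectrum (mean ergodic theorem) -/
lemma Tot_NR [CompleteSpace H] (U : H →ₗᵢ[ℂ] H) (f : H) (hf : Tot U f) : NR (fun k => U^[k] f) := by
  intro b d hd
  have hd0 : (d : ℝ) ≠ 0 := by positivity
  set w : ℂ := ee (-((b : ℝ) / d)) with hw
  have hwn : ‖w‖ = 1 := norm_ee _
  set V : H →L[ℂ] H := w • U.toContinuousLinearMap with hV
  have hVn : ‖V‖ ≤ 1 := by
    rw [hV, norm_smul, hwn, one_mul]
    exact U.norm_toContinuousLinearMap_le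
  have hVx : ∀ x, V x = w • U x := fun x => rfl
  have h1 := V.tendsto_birkhoffAverage_orthogonalProjection hVn f
  have hwd : w ^ d = 1 := by
    rw [hw, ← ee_nat_pow]
    have : (d : ℝ) * -((b : ℝ) / d) = ((-(b : ℤ) : ℤ) : ℝ) := by
      push_cast
      field_simp
    rw [this, ee_int]
  have hit : ∀ (k : ℕ) (x : H), V^[k] x = w ^ k • U^[k] x := by
    intro k x
    induction k with
    | zero => simp
    | succ k ih =>
      rw [Function.iterate_succ_apply', ih, hVx, map_smul, smul_smul, it_succ, pow_succ']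
  have h2 : ((V.eqLocus (1 : H →L[ℂ] H)).orthogonalProjectionOnto f : H) = 0 := by
    have h3 : f ∈ (V.eqLocus (1 : H →L[ℂ] H))ᗮ := by
      rw [Submodule.mem_orthogonal]
      intro g hg
      have hg1 : V g = g := by
        have := hg
        rw [LinearMap.mem_eqLocus] at this
        simpa using this
      apply hf g d hd
      have h4 : V^[d] g = g := Function.iterate_fixed hg1 d
      rw [hit, hwd, one_smul] at h4
      exact h4
    exact (Submodule.starProjection_apply_eq_zero_iff _).2 h3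
  rw [h2] at h1
  have h5 := h1.norm
  rw [norm_zero] at h5
  refine h5.congr fun K => ?_
  rw [birkhoffAverage, birkhoffSum, norm_smul, norm_inv, Complex.norm_natCast, div_eq_inv_mul]
  congr 2
  refine sum_congr rfl fun j _ => ?_
  rw [_root_.id, hit, hw, ← ee_nat_pow]
  congr 2
  ring

end basic

end Pool.Agent.Run7.h591.EG
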