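import Mathlib
import Pool.Agent.Run7.h591.EG.Dec

/-!
# Project ERG (helper591), part 9: recurrence along `p - 1` and `p + 1`, and the mean ergodic theorem along the
primes of almost all short intervals near squares, for isometries of a Hilbert space
-/

set_option autoImplicit false
set_option maxHeartbeats 4000000

universe u

namespace Pool.Agent.Run7.h591.EG

open Finset Filter Topology
open Pool.Agent.Run7.h794.MK (W MS S_ALL)
open Pool.Agent.H373R2.T7 (ev_L')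
open Pool.Agent.H807R2.Dav (ee ee_add norm_ee ee_eq ee_int ee_zero)

section rec

variable {H : Type u} [NormedAddCommGroup H] [InnerProductSpace ℂ H]

lemma inner_split (U : H →ₗᵢ[ℂ] H) (f₁ f₂ : H) (h1 : Rat U f₁) (h2 : Tot U f₂) (k : ℕ) :
    inner ℂ (f₁ + f₂) (U^[k] (f₁ + f₂)) = inner ℂ f₁ (U^[k] f₁) + inner ℂ f₂ (U^[k] f₂) := by
  rw [it_add, inner_add_left, inner_add_right, inner_add_right, Rat_Tot U f₁ _ h1 (Tot_it U f₂ h2 k)]
  have h3 : inner ℂ f₂ (U^[k] f₁) = 0 := by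
    rw [← inner_conj_symm, Rat_Tot U _ f₂ (Rat_it U f₁ h1 k) h2, map_zero]
  rw [h3, add_zero, zero_add]

lemma recur_aux (hALL : S_ALL) [CompleteSpace H] (U : H →ₗᵢ[ℂ] H) (f₁ f₂ : H) (h1 : Rat U f₁) (h2 : Tot U f₂)
    (τ : ℕ → ℕ) (r c : ℕ) (hr : 1 ≤ r) (hc : Nat.Coprime c r) (hτ : ∀ p, 1 ≤ p → p % r = c % r → r ∣ τ p)
    (hτ2 : ∀ S : Finset ℕ, (∀ p ∈ S, 1 ≤ p) → ‖∑ p ∈ S, inner ℂ f₂ (U^[τ p] f₂)‖ ≤ ‖f₂‖ * ‖∑ p ∈ S, U^[p] f₂‖)
    (g : H) (hg : U^[r] g = g) (δ ε : ℝ) (hε : 0 < ε) (hδ : ‖f₁ - g‖ ≤ δ) (hδε : 2 * δ * ‖f₁‖ ≤ ε / 4) :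
    AW (fun _ n a b => (‖f₁‖ ^ 2 - ε) * (((b : ℝ) - a) / Nat.totient r) ≤
      2 * Real.log n * ∑ p ∈ (pr a b).filter (fun p => p % r = c % r), (inner ℂ (f₁ + f₂) (U^[τ p] (f₁ + f₂))).re) := by
  have hφ : (0 : ℝ) < Nat.totient r := by exact_mod_cast Nat.totient_pos.2 (by omega)
  set φ : ℝ := (Nat.totient r : ℝ) with hφd
  set c₀ : ℝ := ‖f₁‖ ^ 2 - 2 * δ * ‖f₁‖ with hc₀
  have hE1 := E1 hALL (fun k => U^[k] f₂) (Sta_it U f₂) (Tot_NR U f₂ h2) r c hr (ε / (4 * φ * (‖f₂‖ + 1))) (by positivity)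
  have hE2 := E2 hALL r c hr hc (ε / (4 * φ * (|c₀| + 1))) (by positivity)
  refine AW_mono (AW_and hE1 hE2) 1 ?_
  rintro N n a b hN hNn _ hab ⟨e1, e2⟩
  have hlog : 0 ≤ 2 * Real.log n := mul_nonneg (by norm_num) (Real.log_natCast_nonneg n)
  set S := (pr a b).filter (fun p => p % r = c % r) with hS
  have hS1 : ∀ p ∈ S, 1 ≤ p := by
    intro p hp
    rw [hS, mem_filter, pr, mem_filter] at hp
    exact hp.1.2.one_lt.le
  have hD : (0 : ℝ) ≤ (b : ℝ) - a := by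
    have : (a : ℝ) ≤ b := by exact_mod_cast hab
    linarith
  set D : ℝ := (b : ℝ) - a with hDd
  have hx : ∀ p ∈ S, c₀ ≤ (inner ℂ f₁ (U^[τ p] f₁)).re := by
    intro p hp
    have hp1 := hS1 p hp
    rw [hS, mem_filter] at hp
    obtain ⟨m, hm⟩ := hτ p hp1 hp.2
    have hgp : U^[τ p] g = g := by rw [hm]; exact it_mul U r m g hg
    have h3 : ‖U^[τ p] f₁ - f₁‖ ≤ 2 * δ := by
      have : U^[τ p] f₁ - f₁ = U^[τ p] (f₁ - g) - (f₁ - g) := by
        rw [it_sub, hgp]; abel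
      rw [this]
      refine (norm_sub_le _ _).trans ?_
      rw [it_norm]
      linarith
    have h4 : (inner ℂ f₁ (U^[τ p] f₁)).re = ‖f₁‖ ^ 2 + (inner ℂ f₁ (U^[τ p] f₁ - f₁)).re := by
      rw [inner_sub_right, Complex.sub_re]
      have : (inner ℂ f₁ f₁).re = ‖f₁‖ ^ 2 := by
        have := inner_self_eq_norm_sq (𝕜 := ℂ) f₁
        simpa using this
      rw [this]; ring
    have h5 : -(‖f₁‖ * (2 * δ)) ≤ (inner ℂ f₁ (U^[τ p] f₁ - f₁)).re := by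
      have h6 : |(inner ℂ f₁ (U^[τ p] f₁ - f₁)).re| ≤ ‖f₁‖ * (2 * δ) := by
        refine (Complex.abs_re_le_norm _).trans ((norm_inner_le_norm _ _).trans ?_)
        gcongr
      exact (abs_le.1 h6).1
    rw [h4, hc₀]
    linarith
  have hy : -(‖f₂‖ * ‖∑ p ∈ S, U^[p] f₂‖) ≤ ∑ p ∈ S, (inner ℂ f₂ (U^[τ p] f₂)).re := by
    have h6 : |(∑ p ∈ S, inner ℂ f₂ (U^[τ p] f₂)).re| ≤ ‖f₂‖ * ‖∑ p ∈ S, U^[p] f₂‖ :=
      (Complex.abs_re_le_norm _).trans (hτ2 S hS1)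
    rw [← Complex.re_sum]
    exact (abs_le.1 h6).1
  have hsum : ∑ p ∈ S, (inner ℂ (f₁ + f₂) (U^[τ p] (f₁ + f₂))).re =
      ∑ p ∈ S, (inner ℂ f₁ (U^[τ p] f₁)).re + ∑ p ∈ S, (inner ℂ f₂ (U^[τ p] f₂)).re := by
    rw [← sum_add_distrib]
    refine sum_congr rfl fun p _ => ?_
    rw [inner_split U f₁ f₂ h1 h2, Complex.add_re]
  rw [hsum, mul_add]
  have hx2 : (S.card : ℝ) * c₀ ≤ ∑ p ∈ S, (inner ℂ f₁ (U^[τ p] f₁)).re := by
    rw [← nsmul_eq_mul, ← sum_const]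
    exact sum_le_sum hx
  have k1 : 2 * Real.log n * (S.card : ℝ) * c₀ ≥ D / φ * c₀ - ε / (4 * φ) * D := by
    have h6 : |(2 * Real.log n * (S.card : ℝ) - D / φ) * c₀| ≤ ε / (4 * φ) * D := by
      rw [abs_mul]
      calc _ ≤ ε / (4 * φ * (|c₀| + 1)) * D * |c₀| := by gcongr
        _ = ε / (4 * φ) * D * (|c₀| / (|c₀| + 1)) := by field_simp
        _ ≤ ε / (4 * φ) * D * 1 := by
            gcongr
            rw [div_le_one (by positivity)]
            linarith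
        _ = _ := by ring
    have := (abs_le.1 h6).1
    linarith
  have k2 : 2 * Real.log n * (‖f₂‖ * ‖∑ p ∈ S, U^[p] f₂‖) ≤ ε / (4 * φ) * D := by
    calc 2 * Real.log n * (‖f₂‖ * ‖∑ p ∈ S, U^[p] f₂‖) = ‖f₂‖ * (2 * Real.log n * ‖∑ p ∈ S, U^[p] f₂‖) := by ring
      _ ≤ ‖f₂‖ * (ε / (4 * φ * (‖f₂‖ + 1)) * D) := by gcongr
      _ = ε / (4 * φ) * D * (‖f₂‖ / (‖f₂‖ + 1)) := by field_simp
      _ ≤ ε / (4 * φ) * D * 1 := by
            gcongr
            rw [div_le_one (by positivity)]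
            linarith
      _ = _ := by ring
  have k3 : 2 * Real.log n * ((S.card : ℝ) * c₀) ≤ 2 * Real.log n * ∑ p ∈ S, (inner ℂ f₁ (U^[τ p] f₁)).re := by
    gcongr
  have k4 : 2 * Real.log n * -(‖f₂‖ * ‖∑ p ∈ S, U^[p] f₂‖) ≤
      2 * Real.log n * ∑ p ∈ S, (inner ℂ f₂ (U^[τ p] f₂)).re := mul_le_mul_of_nonneg_left hy hlog
  have k5 : D / φ * (‖f₁‖ ^ 2 - ε / 4) ≤ D / φ * c₀ := by
    apply mul_le_mul_of_nonneg_left _ (by positivity)
    rw [hc₀]; linarith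
  have k6 : ε / (4 * φ) * D = D / φ * (ε / 4) := by field_simp
  have k7 : 0 ≤ D / φ * (ε / 4) := by positivity
  have k8 : (‖f₁‖ ^ 2 - ε) * (D / φ) = D / φ * (‖f₁‖ ^ 2 - ε / 4) - D / φ * (ε / 4) - D / φ * (ε / 4) - D / φ * (ε / 4) := by
    ring
  rw [k6] at k1 k2
  rw [k8]
  linarith

lemma minus_inner (U : H →ₗᵢ[ℂ] H) (f : H) (S : Finset ℕ) (hS : ∀ p ∈ S, 1 ≤ p) :
    ‖∑ p ∈ S, inner ℂ f (U^[p - 1] f)‖ ≤ ‖f‖ * ‖∑ p ∈ S, U^[p] f‖ := by
  have h1 : ∑ p ∈ S, inner ℂ f (U^[p - 1] f) = inner ℂ (U f) (∑ p ∈ S, U^[p] f) := by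
    rw [inner_sum]
    refine sum_congr rfl fun p hp => ?_
    have h2 : U^[p] f = U (U^[p - 1] f) := by
      rw [← it_succ, Nat.sub_add_cancel (hS p hp)]
    rw [h2, LinearIsometry.inner_map_map]
  rw [h1]
  refine (norm_inner_le_norm _ _).trans ?_
  rw [LinearIsometry.norm_map]

lemma plus_inner (U : H →ₗᵢ[ℂ] H) (f : H) (S : Finset ℕ) :
    ‖∑ p ∈ S, inner ℂ f (U^[p + 1] f)‖ ≤ ‖f‖ * ‖∑ p ∈ S, U^[p] f‖ := by
  have h1 : ∑ p ∈ S, inner ℂ f (U^[p + 1] f) = inner ℂ f (U (∑ p ∈ S, U^[p] f)) := by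
    rw [map_sum, inner_sum]
    exact sum_congr rfl fun p hp => by rw [it_succ]
  rw [h1]
  refine (norm_inner_le_norm _ _).trans ?_
  rw [LinearIsometry.norm_map]

/-- **recurrence along `p - 1` and along `p + 1`**, averages over the primes in the residue classes `1` and `-1` -/
theorem recur (hALL : S_ALL) [CompleteSpace H] (U : H →ₗᵢ[ℂ] H) (f u : H) (hu : U u = u) (hun : ‖u‖ = 1) (ε : ℝ)
    (hε : 0 < ε) : ∃ r₀ : ℕ, 1 ≤ r₀ ∧ ∀ r : ℕ, 1 ≤ r → r₀ ∣ r →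
    AW (fun _ n a b => (‖inner ℂ u f‖ ^ 2 - ε) * (((b : ℝ) - a) / Nat.totient r) ≤
      2 * Real.log n * ∑ p ∈ (pr a b).filter (fun p => p % r = 1 % r), (inner ℂ f (U^[p - 1] f)).re) ∧
    AW (fun _ n a b => (‖inner ℂ u f‖ ^ 2 - ε) * (((b : ℝ) - a) / Nat.totient r) ≤
      2 * Real.log n * ∑ p ∈ (pr a b).filter (fun p => p % r = (r - 1) % r), (inner ℂ f (U^[p + 1] f)).re) := by
  obtain ⟨f₁, f₂, rfl, h1, h2⟩ := dec U f
  obtain ⟨g, r₀, hr₀, hg, hδ⟩ := h1 (ε / (8 * (‖f₁‖ + 1))) (by positivity)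
  have hδε : 2 * (ε / (8 * (‖f₁‖ + 1))) * ‖f₁‖ ≤ ε / 4 := by
    calc 2 * (ε / (8 * (‖f₁‖ + 1))) * ‖f₁‖ = ε / 4 * (‖f₁‖ / (‖f₁‖ + 1)) := by field_simp; ring
      _ ≤ ε / 4 * 1 := by
          gcongr
          rw [div_le_one (by positivity)]
          linarith
      _ = _ := by ring
  have huf : ‖inner ℂ u (f₁ + f₂)‖ ^ 2 ≤ ‖f₁‖ ^ 2 := by
    have h3 : inner ℂ u (f₁ + f₂) = inner ℂ u f₁ := by
      rw [inner_add_right, h2 u 1 le_rfl (by simpa using hu), add_zero]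
    rw [h3]
    have h4 := norm_inner_le_norm (𝕜 := ℂ) u f₁
    rw [hun, one_mul] at h4
    gcongr
  refine ⟨r₀, hr₀, fun r hr hrr => ?_⟩
  have hgr : U^[r] g = g := by
    obtain ⟨m, rfl⟩ := hrr
    exact it_mul U r₀ m g hg
  have hφ : (0 : ℝ) < Nat.totient r := by exact_mod_cast Nat.totient_pos.2 (by omega)
  have hmono : ∀ (F : ℕ → ℕ → ℕ → ℝ), AW (fun _ n a b => (‖f₁‖ ^ 2 - ε) * (((b : ℝ) - a) / Nat.totient r) ≤ F n a b) →
      AW (fun _ n a b => (‖inner ℂ u (f₁ + f₂)‖ ^ 2 - ε) * (((b : ℝ) - a) / Nat.totient r) ≤ F n a b) := by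
    intro F hF
    refine AW_mono hF 0 ?_
    intro N n a b _ _ _ hab h
    refine le_trans ?_ h
    have : (a : ℝ) ≤ b := by exact_mod_cast hab
    have hD : 0 ≤ ((b : ℝ) - a) / Nat.totient r := div_nonneg (by linarith) hφ.le
    gcongr
  constructor
  · refine hmono _ (recur_aux hALL U f₁ f₂ h1 h2 (fun p => p - 1) r 1 hr (Nat.coprime_one_left r) ?_
      (fun S hS => minus_inner U f₂ S hS) g hgr _ ε hε hδ hδε)
    intro p hp hpr
    exact (Nat.modEq_iff_dvd' hp).1 (Eq.symm hpr)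
  · refine hmono _ (recur_aux hALL U f₁ f₂ h1 h2 (fun p => p + 1) r (r - 1) hr ?_ ?_
      (fun S _ => plus_inner U f₂ S) g hgr _ ε hε hδ hδε)
    · rcases Nat.eq_or_lt_of_le hr with h | h
      · rw [← h]; exact Nat.coprime_one_right _
      · have := Nat.coprime_self_sub_left (n := r) (m := 1) (by omega)
        rw [this]
        exact Nat.coprime_one_left r
    · intro p _ hpr
      have h5 : (p + 1) % r = (r - 1 + 1) % r := Nat.ModEq.add_right 1 hpr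
      rw [Nat.sub_add_cancel hr, Nat.mod_self] at h5
      exact Nat.dvd_of_mod_eq_zero h5

/-- counting: a positive proportion of the primes -/
lemma count_aux (hALL : S_ALL) (x : ℕ → ℝ) (hx1 : ∀ k, x k ≤ 1) (s ε : ℝ) (hs : s ≤ 1) (hε : 0 < ε) (r c : ℕ)
    (hs0 : 0 ≤ s) (hr : 1 ≤ r) (hc : Nat.Coprime c r)
    (h : AW (fun _ n a b => (s - ε) * (((b : ℝ) - a) / Nat.totient r) ≤
      2 * Real.log n * ∑ p ∈ (pr a b).filter (fun p => p % r = c % r), x p)) :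
    ∃ κ : ℝ, 0 < κ ∧ AW (fun _ n a b => κ * ((b : ℝ) - a) ≤
      Real.log n * (((pr a b).filter (fun p => s - 2 * ε < x p)).card : ℝ)) := by
  have hφ : (0 : ℝ) < Nat.totient r := by exact_mod_cast Nat.totient_pos.2 (by omega)
  set φ : ℝ := (Nat.totient r : ℝ) with hφd
  refine ⟨ε / (4 * φ * (1 + 2 * ε)), by positivity, ?_⟩
  have hE2 := E2 hALL r c hr hc (ε / (2 * φ * (|s - 2 * ε| + 1))) (by positivity)
  refine AW_mono (AW_and h hE2) 1 ?_
  rintro N n a b hN hNn _ hab ⟨e1, e2⟩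
  have hlog : 0 ≤ Real.log n := Real.log_natCast_nonneg n
  set S := (pr a b).filter (fun p => p % r = c % r) with hS
  set G := (pr a b).filter (fun p => s - 2 * ε < x p) with hG
  have hD : (0 : ℝ) ≤ (b : ℝ) - a := by
    have : (a : ℝ) ≤ b := by exact_mod_cast hab
    linarith
  set D : ℝ := (b : ℝ) - a with hDd
  have h3 : ∑ p ∈ S, x p ≤ (G.card : ℝ) * (1 - s + 2 * ε) + S.card * (s - 2 * ε) := by
    have h4 : ∀ p ∈ S, x p ≤ (if s - 2 * ε < x p then (1 - s + 2 * ε) else 0) + (s - 2 * ε) := by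
      intro p _
      split_ifs with h5
      · have := hx1 p; linarith
      · push Not at h5; linarith
    refine (sum_le_sum h4).trans ?_
    rw [sum_add_distrib, sum_const, nsmul_eq_mul, ← sum_filter, sum_const, nsmul_eq_mul]
    have h6 : (S.filter (fun p => s - 2 * ε < x p)).card ≤ G.card :=
      card_le_card (filter_subset_filter _ (filter_subset _ _))
    have h7 : ((S.filter (fun p => s - 2 * ε < x p)).card : ℝ) ≤ G.card := by exact_mod_cast h6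
    have h8 : 0 ≤ 1 - s + 2 * ε := by linarith
    gcongr
  have h4 : 2 * Real.log n * ∑ p ∈ S, x p ≤
      2 * Real.log n * ((G.card : ℝ) * (1 - s + 2 * ε) + S.card * (s - 2 * ε)) := by
    gcongr
  have k1 : 2 * Real.log n * (S.card : ℝ) * (s - 2 * ε) ≤ D / φ * (s - 2 * ε) + ε / (2 * φ) * D := by
    have h6 : |(2 * Real.log n * (S.card : ℝ) - D / φ) * (s - 2 * ε)| ≤ ε / (2 * φ) * D := by
      rw [abs_mul]
      calc _ ≤ ε / (2 * φ * (|s - 2 * ε| + 1)) * D * |s - 2 * ε| := by gcongr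
        _ = ε / (2 * φ) * D * (|s - 2 * ε| / (|s - 2 * ε| + 1)) := by field_simp
        _ ≤ ε / (2 * φ) * D * 1 := by
            gcongr
            rw [div_le_one (by positivity)]
            linarith
        _ = _ := by ring
    have := (abs_le.1 h6).2
    linarith
  have k2 : ε / (2 * φ) * D ≤ 2 * Real.log n * (G.card : ℝ) * (1 - s + 2 * ε) := by
    have e3 : (s - ε) * (D / φ) = D / φ * (s - 2 * ε) + ε / (2 * φ) * D + ε / (2 * φ) * D := by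
      field_simp
      ring
    linarith
  have k3 : 2 * Real.log n * (G.card : ℝ) * (1 - s + 2 * ε) ≤ 2 * Real.log n * (G.card : ℝ) * (1 + 2 * ε) := by
    gcongr
    linarith
  have k4 : ε / (4 * φ * (1 + 2 * ε)) * D = ε / (2 * φ) * D / (2 * (1 + 2 * ε)) := by
    field_simp
    norm_num
  rw [k4, div_le_iff₀ (by positivity)]
  linarith

/-- **many primes `p` with `p - 1` (with `p + 1`) a return time** -/
theorem recur_count (hALL : S_ALL) [CompleteSpace H] (U : H →ₗᵢ[ℂ] H) (f u : H) (hu : U u = u) (hun : ‖u‖ = 1)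
    (hf : ‖f‖ ≤ 1) (ε : ℝ) (hε : 0 < ε) : ∃ κ : ℝ, 0 < κ ∧
    AW (fun _ n a b => κ * ((b : ℝ) - a) ≤ Real.log n *
      (((pr a b).filter (fun p => ‖inner ℂ u f‖ ^ 2 - ε < (inner ℂ f (U^[p - 1] f)).re)).card : ℝ)) ∧
    AW (fun _ n a b => κ * ((b : ℝ) - a) ≤ Real.log n *
      (((pr a b).filter (fun p => ‖inner ℂ u f‖ ^ 2 - ε < (inner ℂ f (U^[p + 1] f)).re)).card : ℝ)) := by
  obtain ⟨r, hr, h⟩ := recur hALL U f u hu hun (ε / 2) (by positivity)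
  obtain ⟨h1, h2⟩ := h r hr dvd_rfl
  have hx : ∀ k, (inner ℂ f (U^[k] f)).re ≤ 1 := by
    intro k
    have h3 := (abs_le.1 ((Complex.abs_re_le_norm _).trans (norm_inner_le_norm (𝕜 := ℂ) f (U^[k] f)))).2
    rw [it_norm] at h3
    nlinarith [norm_nonneg f]
  have hs : ‖inner ℂ u f‖ ^ 2 ≤ 1 := by
    have h4 := norm_inner_le_norm (𝕜 := ℂ) u f
    rw [hun, one_mul] at h4
    have h5 : ‖inner ℂ u f‖ ≤ 1 := h4.trans hf
    nlinarith [norm_nonneg (inner ℂ u f)]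
  obtain ⟨κ₁, hκ₁, a1⟩ := count_aux hALL (fun p => (inner ℂ f (U^[p - 1] f)).re) (fun k => hx _) (‖inner ℂ u f‖ ^ 2)
    (ε / 2) hs (by positivity) r 1 (by positivity) hr (Nat.coprime_one_left r) h1
  have hcop : Nat.Coprime (r - 1) r := by
    rcases Nat.eq_or_lt_of_le hr with h | h
    · rw [← h]; exact Nat.coprime_one_right _
    · have := Nat.coprime_self_sub_left (n := r) (m := 1) (by omega)
      rw [this]
      exact Nat.coprime_one_left r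
  obtain ⟨κ₂, hκ₂, a2⟩ := count_aux hALL (fun p => (inner ℂ f (U^[p + 1] f)).re) (fun k => hx _) (‖inner ℂ u f‖ ^ 2)
    (ε / 2) hs (by positivity) r (r - 1) (by positivity) hr hcop h2
  have e0 : ‖inner ℂ u f‖ ^ 2 - 2 * (ε / 2) = ‖inner ℂ u f‖ ^ 2 - ε := by ring
  rw [e0] at a1 a2
  refine ⟨min κ₁ κ₂, lt_min hκ₁ hκ₂, AW_mono a1 0 ?_, AW_mono a2 0 ?_⟩
  · intro N n a b _ _ _ hab h
    refine le_trans ?_ h
    have : (a : ℝ) ≤ b := by exact_mod_cast hab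
    exact mul_le_mul_of_nonneg_right (min_le_left _ _) (by linarith)
  · intro N n a b _ _ _ hab h
    refine le_trans ?_ h
    have : (a : ℝ) ≤ b := by exact_mod_cast hab
    exact mul_le_mul_of_nonneg_right (min_le_right _ _) (by linarith)

end rec

end Pool.Agent.Run7.h591.EG
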