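import Mathlib
import Pool.Agent.Run7.h591.EG.Rec

/-!
# Project ERG (helper591), part 10: measure preserving systems (Khintchine recurrence, total ergodicity, weak mixing)
along the primes of almost all short intervals near squares
-/

set_option autoImplicit false
set_option maxHeartbeats 4000000

universe u

namespace Pool.Agent.Run7.h591.EG

open Finset Filter Topology
open MeasureTheory
open Pool.Agent.Run7.h794.MK (W MS S_ALL)
open Pool.Agent.H373R2.T7 (ev_L')
open Pool.Agent.H807R2.Dav (ee ee_add norm_ee ee_eq ee_int ee_zero)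
open scoped ENNReal

section mea

variable {X : Type u} [MeasurableSpace X] {μ : Measure X} [IsProbabilityMeasure μ] {T : X → X}

/-- the Koopman operator -/
noncomputable def KU (hT : MeasurePreserving T μ μ) : Lp ℂ 2 μ →ₗᵢ[ℂ] Lp ℂ 2 μ := Lp.compMeasurePreservingₗᵢ ℂ T hT

/-- the indicator function -/
noncomputable def ind {A : Set X} (hA : MeasurableSet A) : Lp ℂ 2 μ := indicatorConstLp 2 hA (measure_ne_top μ A) 1

lemma KU_apply (hT : MeasurePreserving T μ μ) (k : ℕ) (g : Lp ℂ 2 μ) :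
    (KU hT)^[k] g = Lp.compMeasurePreserving T^[k] (hT.iterate k) g := by
  rw [← Lp.compMeasurePreserving_iterate]
  rfl

lemma KU_ind (hT : MeasurePreserving T μ μ) (k : ℕ) {A : Set X} (hA : MeasurableSet A) :
    (KU hT)^[k] (ind (μ := μ) hA) = ind ((hT.iterate k).measurable hA) := by
  rw [KU_apply]
  rfl

lemma inner_ind {A B : Set X} (hA : MeasurableSet A) (hB : MeasurableSet B) :
    inner ℂ (ind (μ := μ) hA) (ind (μ := μ) hB) = ((μ.real (A ∩ B) : ℝ) : ℂ) :=
  L2.inner_indicatorConstLp_one_indicatorConstLp_one (𝕜 := ℂ) hA hB (measure_ne_top μ A) (measure_ne_top μ B)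

lemma norm_ind_sq {A : Set X} (hA : MeasurableSet A) : ‖ind (μ := μ) hA‖ ^ 2 = μ.real A := by
  have h := inner_self_eq_norm_sq (𝕜 := ℂ) (ind (μ := μ) hA)
  rw [inner_ind hA hA, Set.inter_self] at h
  rw [← h]
  exact RCLike.ofReal_re _

lemma norm_ind_le {A : Set X} (hA : MeasurableSet A) : ‖ind (μ := μ) hA‖ ≤ 1 := by
  have h := norm_ind_sq (μ := μ) hA
  have h2 : μ.real A ≤ 1 := measureReal_le_one
  nlinarith [norm_nonneg (ind (μ := μ) hA)]

lemma norm_one_ind : ‖ind (μ := μ) MeasurableSet.univ‖ = 1 := by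
  have h := norm_ind_sq (μ := μ) MeasurableSet.univ
  rw [probReal_univ] at h
  exact (pow_eq_one_iff_of_nonneg (norm_nonneg _) two_ne_zero).1 h

lemma KU_one (hT : MeasurePreserving T μ μ) : KU hT (ind (μ := μ) MeasurableSet.univ) = ind (μ := μ) MeasurableSet.univ := rfl

lemma KU_one_it (hT : MeasurePreserving T μ μ) (k : ℕ) :
    (KU hT)^[k] (ind (μ := μ) MeasurableSet.univ) = ind (μ := μ) MeasurableSet.univ :=
  Function.iterate_fixed (KU_one hT) k

/-- **Khintchine recurrence** along `p - 1` and `p + 1`, `p` in the windows -/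
theorem khin (hALL : S_ALL) (hT : MeasurePreserving T μ μ) {A : Set X} (hA : MeasurableSet A) (ε : ℝ) (hε : 0 < ε) :
    ∃ κ : ℝ, 0 < κ ∧
    AW (fun _ n a b => κ * ((b : ℝ) - a) ≤ Real.log n *
      (((pr a b).filter (fun p => μ.real A ^ 2 - ε < μ.real (A ∩ T^[p - 1] ⁻¹' A))).card : ℝ)) ∧
    AW (fun _ n a b => κ * ((b : ℝ) - a) ≤ Real.log n *
      (((pr a b).filter (fun p => μ.real A ^ 2 - ε < μ.real (A ∩ T^[p + 1] ⁻¹' A))).card : ℝ)) := by
  have h := recur_count hALL (KU hT) (ind hA) (ind MeasurableSet.univ) (KU_one hT) norm_one_ind (norm_ind_le hA) ε hε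
  have e1 : ‖inner ℂ (ind (μ := μ) MeasurableSet.univ) (ind (μ := μ) hA)‖ = μ.real A := by
    rw [inner_ind, Set.univ_inter, Complex.norm_real, Real.norm_eq_abs, abs_of_nonneg measureReal_nonneg]
  have e2 : ∀ k : ℕ, (inner ℂ (ind (μ := μ) hA) ((KU hT)^[k] (ind (μ := μ) hA))).re = μ.real (A ∩ T^[k] ⁻¹' A) := by
    intro k
    rw [KU_ind, inner_ind, Complex.ofReal_re]
  simp only [e1, e2] at h
  exact h

/-- the projection of an indicator function to the functions with mean zero -/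
noncomputable def ce {A : Set X} (hA : MeasurableSet A) : Lp ℂ 2 μ :=
  ind (μ := μ) hA - ((μ.real A : ℝ) : ℂ) • ind (μ := μ) MeasurableSet.univ

lemma inner_ce (hT : MeasurePreserving T μ μ) {A B : Set X} (hA : MeasurableSet A) (hB : MeasurableSet B) (k : ℕ) :
    inner ℂ (ind (μ := μ) hA) ((KU hT)^[k] (ce (μ := μ) hB)) =
      ((μ.real (A ∩ T^[k] ⁻¹' B) - μ.real A * μ.real B : ℝ) : ℂ) := by
  unfold ce
  rw [it_sub, it_smul, KU_one_it, KU_ind, inner_sub_right, inner_smul_right, inner_ind, inner_ind, Set.inter_univ]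
  push_cast
  ring

lemma inner_ce_ce (hT : MeasurePreserving T μ μ) {B : Set X} (hB : MeasurableSet B) (k : ℕ) :
    inner ℂ (ce (μ := μ) hB) ((KU hT)^[k] (ce (μ := μ) hB)) =
      ((μ.real (B ∩ T^[k] ⁻¹' B) - μ.real B * μ.real B : ℝ) : ℂ) := by
  have h1 : inner ℂ (ind (μ := μ) MeasurableSet.univ) ((KU hT)^[k] (ce (μ := μ) hB)) = 0 := by
    rw [inner_ce, Set.univ_inter]
    have : μ.real (T^[k] ⁻¹' B) = μ.real B := by
      rw [measureReal_def, measureReal_def, (hT.iterate k).measure_preimage hB.nullMeasurableSet]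
    rw [this, probReal_univ]
    simp
  have h2 : inner ℂ (ce (μ := μ) hB) ((KU hT)^[k] (ce (μ := μ) hB)) =
      inner ℂ (ind (μ := μ) hB - ((μ.real B : ℝ) : ℂ) • ind (μ := μ) MeasurableSet.univ)
        ((KU hT)^[k] (ce (μ := μ) hB)) := rfl
  rw [h2, inner_sub_left, inner_smul_left, h1, mul_zero, sub_zero, inner_ce]

lemma norm_ce_le {A : Set X} (hA : MeasurableSet A) : ‖ce (μ := μ) hA‖ ≤ 2 := by
  unfold ce
  refine (norm_sub_le _ _).trans ?_
  rw [norm_smul, norm_one_ind, mul_one, Complex.norm_real, Real.norm_eq_abs, abs_of_nonneg measureReal_nonneg]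
  have h1 := norm_ind_le (μ := μ) hA
  have h2 : μ.real A ≤ 1 := measureReal_le_one
  linarith

/-- all powers of `T` are ergodic -/
def TotErg (T : X → X) (μ : Measure X) : Prop := ∀ r : ℕ, 1 ≤ r → Ergodic T^[r] μ

lemma Tot_ce (hT : MeasurePreserving T μ μ) (hE : TotErg T μ) {A : Set X} (hA : MeasurableSet A) :
    Tot (KU hT) (ce (μ := μ) hA) := by
  intro g r hr hg
  rw [KU_apply] at hg
  have h1 := Lp.coeFn_compMeasurePreserving g (hT.iterate r)
  rw [hg] at h1
  obtain ⟨c, hc⟩ := (hE r hr).quasiErgodic.ae_eq_const_of_ae_eq_comp_ae (Lp.aestronglyMeasurable g) h1.symm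
  have h2 : g = c • ind (μ := μ) MeasurableSet.univ := by
    apply Lp.ext
    refine hc.trans ?_
    have h3 := Lp.coeFn_smul c (ind (μ := μ) MeasurableSet.univ)
    have h4 : (ind (μ := μ) MeasurableSet.univ : X → ℂ) =ᵐ[μ] fun _ => 1 := by
      have := indicatorConstLp_coeFn (p := 2) (hs := (MeasurableSet.univ : MeasurableSet (Set.univ : Set X)))
        (hμs := measure_ne_top μ _) (c := (1 : ℂ))
      refine this.trans ?_
      rw [Set.indicator_univ]
    filter_upwards [h3, h4] with x hx hx2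
    rw [hx, Pi.smul_apply, hx2]
    simp
  have h5 := inner_ce (μ := μ) hT MeasurableSet.univ hA 0
  rw [Function.iterate_zero_apply, Function.iterate_zero, Set.preimage_id, Set.univ_inter, probReal_univ] at h5
  rw [h2, inner_smul_left, h5]
  simp

/-- the number of primes of a window -/
lemma count_pr (hALL : S_ALL) (ε : ℝ) (hε : 0 < ε) :
    AW (fun _ n a b => |2 * Real.log n * ((pr a b).card : ℝ) - ((b : ℝ) - a)| ≤ ε * ((b : ℝ) - a)) := by
  refine AW_mono (E2 hALL 1 0 le_rfl (by decide) ε hε) 0 ?_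
  intro N n a b _ _ _ _ h
  simpa [Nat.mod_one] using h

/-- sequences without rational spectrum, all primes of a window -/
lemma E1_all (hALL : S_ALL) {H : Type u} [NormedAddCommGroup H] [InnerProductSpace ℂ H] (v : ℕ → H) (hv : Sta v)
    (hNR : NR v) (ε : ℝ) (hε : 0 < ε) :
    AW (fun _ n a b => 2 * Real.log n * ‖∑ p ∈ pr a b, v p‖ ≤ ε * ((b : ℝ) - a)) := by
  refine AW_mono (E1 hALL v hv hNR 1 0 le_rfl ε hε) 0 ?_
  intro N n a b _ _ _ _ h
  simpa [Nat.mod_one] using h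

/-- **sweeping out**: for a totally ergodic map almost every point is in `A` at a prime time of the window -/
theorem sweep (hALL : S_ALL) (hT : MeasurePreserving T μ μ) (hE : TotErg T μ) {A : Set X} (hA : MeasurableSet A)
    (hA0 : 0 < μ.real A) (ε : ℝ) (hε : 0 < ε) :
    AW (fun _ _ a b => 1 - ε < μ.real (⋃ p ∈ pr a b, T^[p] ⁻¹' A)) := by
  have h1 := E1_all hALL (fun k => (KU hT)^[k] (ce (μ := μ) hA)) (Sta_it _ _) (Tot_NR _ _ (Tot_ce hT hE hA))
    (ε * μ.real A / 4) (by positivity)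
  have h2 := count_pr hALL (1 / 2) (by norm_num)
  have h3 : AW (fun _ _ a b => 0 < (b : ℝ) - a) := by
    intro A' B'
    obtain ⟨N₀, h4⟩ := AW_true A' B'
    obtain ⟨n1, h5⟩ := ev_L' 1
    refine ⟨max N₀ (max n1 1), fun N hN => ?_⟩
    obtain ⟨Bad, b1, b2, b3⟩ := h4 N (le_trans (le_max_left _ _) hN)
    have hL := h5 N (le_trans (le_trans (le_max_left _ _) (le_max_right _ _)) hN)
    have hN1 : 1 ≤ N := le_trans (le_trans (le_max_right _ _) (le_max_right _ _)) hN
    refine ⟨Bad, b1, b2, fun n hn hnB a b ha hab hb hl => lt_of_lt_of_le ?_ hl⟩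
    have : 0 < Real.log N := by linarith
    positivity
  refine AW_mono (AW_and (AW_and h1 h2) h3) 1 ?_
  rintro N n a b hN hNn _ hab ⟨⟨e1, e2⟩, hD⟩
  set D : ℝ := (b : ℝ) - a with hDd
  have hlog : 0 ≤ Real.log n := Real.log_natCast_nonneg n
  set Z : Set X := (⋃ p ∈ pr a b, T^[p] ⁻¹' A)ᶜ with hZ
  have hUm : MeasurableSet (⋃ p ∈ pr a b, T^[p] ⁻¹' A) :=
    Finset.measurableSet_biUnion _ (fun p _ => (hT.iterate p).measurable hA)
  have hZm : MeasurableSet Z := hUm.compl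
  have hZA : ∀ p ∈ pr a b, μ.real (Z ∩ T^[p] ⁻¹' A) = 0 := by
    intro p hp
    have : Z ∩ T^[p] ⁻¹' A = ∅ := by
      rw [Set.eq_empty_iff_forall_notMem]
      rintro x ⟨hx1, hx2⟩
      apply hx1
      exact Set.mem_biUnion hp hx2
    rw [this, measureReal_empty]
  have h4 : ‖inner ℂ (ind (μ := μ) hZm) (∑ p ∈ pr a b, (KU hT)^[p] (ce (μ := μ) hA))‖ = (pr a b).card * (μ.real Z * μ.real A) := by
    rw [inner_sum]
    have : ∀ p ∈ pr a b, inner ℂ (ind (μ := μ) hZm) ((KU hT)^[p] (ce (μ := μ) hA)) = ((-(μ.real Z * μ.real A) : ℝ) : ℂ) := by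
      intro p hp
      rw [inner_ce, hZA p hp, zero_sub]
    rw [sum_congr rfl this, sum_const, nsmul_eq_mul, norm_mul, Complex.norm_natCast, Complex.norm_real, Real.norm_eq_abs,
      abs_neg, abs_of_nonneg (by positivity)]
  have h5 : (pr a b).card * (μ.real Z * μ.real A) ≤ ‖∑ p ∈ pr a b, (KU hT)^[p] (ce (μ := μ) hA)‖ := by
    rw [← h4]
    refine (norm_inner_le_norm _ _).trans ?_
    have := norm_ind_le (μ := μ) hZm
    nlinarith [norm_nonneg (∑ p ∈ pr a b, (KU hT)^[p] (ce (μ := μ) hA))]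
  have h6 : D / 2 ≤ 2 * Real.log n * ((pr a b).card : ℝ) := by
    have := (abs_le.1 e2).1
    linarith
  have h7 : D / 2 * (μ.real Z * μ.real A) ≤ ε * μ.real A / 4 * D := by
    calc D / 2 * (μ.real Z * μ.real A) ≤ 2 * Real.log n * ((pr a b).card : ℝ) * (μ.real Z * μ.real A) := by gcongr
      _ = 2 * Real.log n * ((pr a b).card * (μ.real Z * μ.real A)) := by ring
      _ ≤ 2 * Real.log n * ‖∑ p ∈ pr a b, (KU hT)^[p] (ce (μ := μ) hA)‖ := by gcongr
      _ ≤ _ := e1
  have h8 : μ.real Z ≤ ε / 2 := by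
    have h9 : 0 < D * μ.real A := by positivity
    by_contra hcon
    push Not at hcon
    have : D * μ.real A * (ε / 2) < D * μ.real A * μ.real Z := by gcongr
    linarith
  have h9 : μ.real Z = 1 - μ.real (⋃ p ∈ pr a b, T^[p] ⁻¹' A) := by
    rw [hZ, measureReal_compl hUm, probReal_univ]
  linarith

/-- weakly mixing maps -/
def WMix (T : X → X) (μ : Measure X) : Prop := ∀ A B : Set X, MeasurableSet A → MeasurableSet B →
  Tendsto (fun K : ℕ => (∑ k ∈ range K, |μ.real (A ∩ T^[k] ⁻¹' B) - μ.real A * μ.real B|) / K) atTop (𝓝 0)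

open TensorProduct in
lemma wm_NR (hT : MeasurePreserving T μ μ) (hW : WMix T μ) {B : Set X} (hB : MeasurableSet B) :
    Sta (fun k => ((KU hT)^[k] (ce (μ := μ) hB)) ⊗ₜ[ℂ] ((KU hT)^[k] (ce (μ := μ) hB))) ∧
    NR (fun k => ((KU hT)^[k] (ce (μ := μ) hB)) ⊗ₜ[ℂ] ((KU hT)^[k] (ce (μ := μ) hB))) := by
  set w : ℕ → Lp ℂ 2 μ := fun k => (KU hT)^[k] (ce (μ := μ) hB) with hw
  have hws : Sta w := Sta_it _ _
  constructor
  · intro m n k
    simp only [TensorProduct.inner_tmul]
    have := hws m n k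
    simp only [hw] at this
    rw [this]
  · intro b d hd
    set γ : ℕ → ℝ := fun k => |μ.real (B ∩ T^[k] ⁻¹' B) - μ.real B * μ.real B| with hγ
    have hγ1 : ∀ k, γ k ≤ 1 := by
      intro k
      rw [hγ]
      simp only
      rw [abs_le]
      have h1 : μ.real (B ∩ T^[k] ⁻¹' B) ≤ 1 := measureReal_le_one
      have h2 : μ.real B ≤ 1 := measureReal_le_one
      have h3 : 0 ≤ μ.real B := measureReal_nonneg
      have h4 : 0 ≤ μ.real (B ∩ T^[k] ⁻¹' B) := measureReal_nonneg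
      constructor <;> nlinarith
    have hγ0 : ∀ k, 0 ≤ γ k := fun k => abs_nonneg _
    have hlim := hW B B hB hB
    have hin : ∀ i j : ℕ, i ≤ j → ‖inner ℂ (w i) (w j)‖ ≤ γ (j - i) := by
      intro i j hij
      have h1 := hws 0 (j - i) i
      rw [Nat.zero_add, Nat.sub_add_cancel hij] at h1
      rw [h1]
      simp only [hw]
      rw [Function.iterate_zero_apply, inner_ce_ce, Complex.norm_real, Real.norm_eq_abs]
    have hin2 : ∀ i j : ℕ, ‖inner ℂ (w i ⊗ₜ[ℂ] w i) (w j ⊗ₜ[ℂ] w j)‖ ≤ γ (max i j - min i j) := by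
      intro i j
      rw [TensorProduct.inner_tmul, norm_mul]
      rcases le_total i j with h | h
      · rw [max_eq_right h, min_eq_left h]
        have h1 := hin i j h
        have h2 := hγ1 (j - i)
        nlinarith [norm_nonneg (inner ℂ (w i) (w j)), hγ0 (j - i)]
      · rw [max_eq_left h, min_eq_right h]
        have h1 := hin j i h
        rw [norm_inner_symm] at h1
        have h2 := hγ1 (i - j)
        nlinarith [norm_nonneg (inner ℂ (w i) (w j)), hγ0 (i - j)]
    have hsq : ∀ K : ℕ, 1 ≤ K → (‖∑ j ∈ range K, ee (-((j : ℝ) * ((b : ℝ) / d))) • (w j ⊗ₜ[ℂ] w j)‖ / K) ^ 2 ≤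
        2 * ((∑ k ∈ range K, γ k) / K) := by
      intro K hK
      have hK0 : (0 : ℝ) < K := by exact_mod_cast hK
      have h1 := norm_sq_sum (range K) (fun j => ee (-((j : ℝ) * ((b : ℝ) / d)))) (fun j => w j ⊗ₜ[ℂ] w j)
      have h2 : ‖∑ j ∈ range K, ee (-((j : ℝ) * ((b : ℝ) / d))) • (w j ⊗ₜ[ℂ] w j)‖ ^ 2 ≤
          ∑ i ∈ range K, ∑ j ∈ range K, γ (max i j - min i j) := by
        have h3 : ‖∑ j ∈ range K, ee (-((j : ℝ) * ((b : ℝ) / d))) • (w j ⊗ₜ[ℂ] w j)‖ ^ 2 =
            ‖((‖∑ j ∈ range K, ee (-((j : ℝ) * ((b : ℝ) / d))) • (w j ⊗ₜ[ℂ] w j)‖ ^ 2 : ℝ) : ℂ)‖ := by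
          rw [Complex.norm_real, Real.norm_eq_abs, abs_of_nonneg (by positivity)]
        rw [h3, h1]
        refine (norm_sum_le _ _).trans (sum_le_sum fun i _ => (norm_sum_le _ _).trans (sum_le_sum fun j _ => ?_))
        rw [norm_mul, norm_mul, RCLike.norm_conj, norm_ee, norm_ee, one_mul, one_mul]
        exact hin2 i j
      have h4 : ∀ i ∈ range K, ∑ j ∈ range K, γ (max i j - min i j) ≤ 2 * ∑ k ∈ range K, γ k := by
        intro i hi
        rw [mem_range] at hi
        have h5 : ∑ j ∈ range K, γ (max i j - min i j) = ∑ j ∈ range (i + 1), γ (i - j) + ∑ j ∈ Ico (i + 1) K, γ (j - i) := by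
          rw [range_eq_Ico, ← sum_Ico_consecutive _ (Nat.zero_le (i + 1)) (by omega : i + 1 ≤ K), ← range_eq_Ico]
          congr 1
          · refine sum_congr rfl fun j hj => ?_
            rw [mem_range] at hj
            rw [max_eq_left (by omega), min_eq_right (by omega)]
          · refine sum_congr rfl fun j hj => ?_
            rw [mem_Ico] at hj
            rw [max_eq_right (by omega), min_eq_left (by omega)]
        have h6 : ∑ j ∈ range (i + 1), γ (i - j) ≤ ∑ k ∈ range K, γ k := by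
          have h7 := sum_range_reflect γ (i + 1)
          simp only [Nat.add_sub_cancel] at h7
          rw [h7]
          exact sum_le_sum_of_subset_of_nonneg (range_subset_range.2 (by omega)) (fun k _ _ => hγ0 k)
        have h8 : ∑ j ∈ Ico (i + 1) K, γ (j - i) ≤ ∑ k ∈ range K, γ k := by
          rw [sum_Ico_eq_sum_range]
          have h9 : ∑ k ∈ range (K - (i + 1)), γ (i + 1 + k - i) = ∑ k ∈ Ico 1 (K - i), γ k := by
            rw [sum_Ico_eq_sum_range]
            have : K - (i + 1) = K - i - 1 := by omega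
            rw [this]
            refine sum_congr rfl fun k _ => ?_
            congr 1
            omega
          rw [h9]
          refine sum_le_sum_of_subset_of_nonneg ?_ (fun k _ _ => hγ0 k)
          intro k hk
          rw [mem_Ico] at hk
          rw [mem_range]
          omega
        rw [h5]
        linarith
      rw [div_pow, div_le_iff₀ (by positivity)]
      refine h2.trans ((sum_le_sum h4).trans ?_)
      rw [sum_const, card_range, nsmul_eq_mul]
      apply le_of_eq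
      field_simp
    have h10 : Tendsto (fun K : ℕ => 2 * ((∑ k ∈ range K, γ k) / K)) atTop (𝓝 0) := by
      have := hlim.const_mul 2
      rwa [mul_zero] at this
    have h11 : Tendsto (fun K : ℕ => (‖∑ j ∈ range K, ee (-((j : ℝ) * ((b : ℝ) / d))) • (w j ⊗ₜ[ℂ] w j)‖ / K) ^ 2)
        atTop (𝓝 0) := by
      refine squeeze_zero' (Eventually.of_forall fun K => by positivity) ?_ h10
      filter_upwards [eventually_ge_atTop 1] with K hK using hsq K hK
    have h12 := h11.sqrt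
    rw [Real.sqrt_zero] at h12
    refine h12.congr fun K => ?_
    rw [Real.sqrt_sq (by positivity)]

open TensorProduct in
/-- **weakly mixing maps mix along almost all primes of every window** -/
theorem wmix (hALL : S_ALL) (hT : MeasurePreserving T μ μ) (hW : WMix T μ) {A B : Set X} (hA : MeasurableSet A)
    (hB : MeasurableSet B) (ε : ℝ) (hε : 0 < ε) :
    AW (fun _ n a b => Real.log n *
      (((pr a b).filter (fun p => ε ≤ |μ.real (A ∩ T^[p] ⁻¹' B) - μ.real A * μ.real B|)).card : ℝ) ≤ ε * ((b : ℝ) - a)) := by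
  obtain ⟨hS, hN⟩ := wm_NR hT hW hB
  refine AW_mono (E1_all hALL (fun k => ((KU hT)^[k] (ce (μ := μ) hB)) ⊗ₜ[ℂ] ((KU hT)^[k] (ce (μ := μ) hB)))
    hS hN (2 * ε ^ 3) (by positivity)) 0 ?_
  intro N n a b _ _ _ _ h
  have hlog : 0 ≤ Real.log n := Real.log_natCast_nonneg n
  set G := (pr a b).filter (fun p => ε ≤ |μ.real (A ∩ T^[p] ⁻¹' B) - μ.real A * μ.real B|) with hG
  have h1 : ∑ p ∈ pr a b, (μ.real (A ∩ T^[p] ⁻¹' B) - μ.real A * μ.real B) ^ 2 ≤
      ‖∑ p ∈ pr a b, ((KU hT)^[p] (ce (μ := μ) hB)) ⊗ₜ[ℂ] ((KU hT)^[p] (ce (μ := μ) hB))‖ := by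
    have h2 : inner ℂ ((ind (μ := μ) hA) ⊗ₜ[ℂ] (ind (μ := μ) hA))
        (∑ p ∈ pr a b, ((KU hT)^[p] (ce (μ := μ) hB)) ⊗ₜ[ℂ] ((KU hT)^[p] (ce (μ := μ) hB))) =
        ((∑ p ∈ pr a b, (μ.real (A ∩ T^[p] ⁻¹' B) - μ.real A * μ.real B) ^ 2 : ℝ) : ℂ) := by
      rw [inner_sum, Complex.ofReal_sum]
      refine sum_congr rfl fun p _ => ?_
      rw [TensorProduct.inner_tmul, inner_ce, ← Complex.ofReal_mul, sq]
    have h3 : ∑ p ∈ pr a b, (μ.real (A ∩ T^[p] ⁻¹' B) - μ.real A * μ.real B) ^ 2 =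
        ‖((∑ p ∈ pr a b, (μ.real (A ∩ T^[p] ⁻¹' B) - μ.real A * μ.real B) ^ 2 : ℝ) : ℂ)‖ := by
      rw [Complex.norm_real, Real.norm_eq_abs, abs_of_nonneg (sum_nonneg fun _ _ => sq_nonneg _)]
    rw [h3, ← h2]
    refine (norm_inner_le_norm (𝕜 := ℂ) ((ind (μ := μ) hA) ⊗ₜ[ℂ] (ind (μ := μ) hA))
      (∑ p ∈ pr a b, ((KU hT)^[p] (ce (μ := μ) hB)) ⊗ₜ[ℂ] ((KU hT)^[p] (ce (μ := μ) hB)))).trans ?_
    rw [TensorProduct.norm_tmul]
    have h4 := norm_ind_le (μ := μ) hA
    have h5 : ‖ind (μ := μ) hA‖ * ‖ind (μ := μ) hA‖ ≤ 1 := by nlinarith [norm_nonneg (ind (μ := μ) hA)]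
    exact mul_le_of_le_one_left (norm_nonneg _) h5
  have h2 : (G.card : ℝ) * ε ^ 2 ≤ ∑ p ∈ pr a b, (μ.real (A ∩ T^[p] ⁻¹' B) - μ.real A * μ.real B) ^ 2 := by
    rw [← nsmul_eq_mul, ← sum_const]
    refine le_trans (sum_le_sum (g := fun p => (μ.real (A ∩ T^[p] ⁻¹' B) - μ.real A * μ.real B) ^ 2) fun p hp => ?_)
      (sum_le_sum_of_subset_of_nonneg (filter_subset _ _) fun _ _ _ => sq_nonneg _)
    rw [hG, mem_filter] at hp
    rw [← sq_abs (μ.real (A ∩ T^[p] ⁻¹' B) - μ.real A * μ.real B)]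
    exact pow_le_pow_left₀ hε.le hp.2 2
  have h3 : Real.log n * (G.card : ℝ) * ε ^ 2 ≤ ε * ((b : ℝ) - a) * ε ^ 2 := by
    have h4 : 2 * Real.log n * (G.card * ε ^ 2) ≤ 2 * ε ^ 3 * ((b : ℝ) - a) := by
      refine le_trans ?_ h
      gcongr
      exact h2.trans h1
    nlinarith
  exact le_of_mul_le_mul_right h3 (by positivity)

end mea

end Pool.Agent.Run7.h591.EG
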