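import Mathlib
import Pool.Agent.Run7.h591.EG.Mea

/-!
# Project ERG (helper591), part 11: the mean ergodic theorem along the primes of almost all short intervals near
squares
-/

set_option autoImplicit false
set_option maxHeartbeats 4000000

universe u

namespace Pool.Agent.Run7.h591.EG

open Finset Filter Topology
open MeasureTheory
open Pool.Agent.Run7.h794.MK (W MS S_ALL)
open Pool.Agent.H373R2.T7 (ev_L')
open Pool.Agent.H807R2.Dav (ee ee_add norm_ee ee_eq ee_int ee_zero)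

/-- the shape of the windows -/
lemma AW_win (K : ℕ) : AW (fun N n a b => K ≤ N ∧ N < n ∧ n ≤ 2 * N ∧ (n - 1) ^ 2 ≤ a ∧ b ≤ (n + 1) ^ 2 ∧
    0 < (b : ℝ) - a) := by
  intro A' B'
  obtain ⟨N₀, h4⟩ := AW_true A' B'
  obtain ⟨n1, h5⟩ := ev_L' 1
  refine ⟨max (max N₀ K) (max n1 1), fun N hN => ?_⟩
  obtain ⟨Bad, b1, b2, b3⟩ := h4 N (le_trans (le_trans (le_max_left _ _) (le_max_left _ _)) hN)
  have hK : K ≤ N := le_trans (le_trans (le_max_right _ _) (le_max_left _ _)) hN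
  have hL := h5 N (le_trans (le_trans (le_max_left _ _) (le_max_right _ _)) hN)
  have hN1 : 1 ≤ N := le_trans (le_trans (le_max_right _ _) (le_max_right _ _)) hN
  refine ⟨Bad, b1, b2, fun n hn hnB a b ha hab hb hl => ?_⟩
  rw [mem_Ioc] at hn
  refine ⟨hK, hn.1, hn.2, ha, hb, lt_of_lt_of_le ?_ hl⟩
  have : 0 < Real.log N := by linarith
  positivity

lemma AW_exists {Q : ℕ → ℕ → ℕ → ℕ → Prop} (h : AW Q) : ∃ N n a b : ℕ, Q N n a b := by
  obtain ⟨N₀, h1⟩ := h 1 1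
  obtain ⟨n1, h5⟩ := ev_L' 2
  set N := max N₀ (max n1 1) with hN
  obtain ⟨Bad, b1, b2, b3⟩ := h1 N (le_max_left _ _)
  have hL := h5 N (le_trans (le_max_left _ _) (le_max_right _ _))
  have hN1 : 1 ≤ N := le_trans (le_max_right _ _) (le_max_right _ _)
  have hNR : (1 : ℝ) ≤ N := by exact_mod_cast hN1
  have hcard : Bad.card < (Ioc N (2 * N)).card := by
    rw [Nat.card_Ioc]
    have h2 : (Bad.card : ℝ) < N := by
      refine lt_of_le_of_lt b2 ?_
      rw [pow_one, div_lt_iff₀ (by linarith)]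
      nlinarith
    have h3 : Bad.card < N := by exact_mod_cast h2
    omega
  obtain ⟨n, hn, hnB⟩ := exists_mem_notMem_of_card_lt_card hcard
  have hn2 := mem_Ioc.1 hn
  have h6 : (n - 1) ^ 2 ≤ (n + 1) ^ 2 := Nat.pow_le_pow_left (by omega) 2
  refine ⟨N, n, (n - 1) ^ 2, (n + 1) ^ 2, b3 n hn hnB _ _ le_rfl h6 le_rfl ?_⟩
  have h7 : (((n + 1) ^ 2 : ℕ) : ℝ) - (((n - 1) ^ 2 : ℕ) : ℝ) = 4 * n := by
    rw [Nat.cast_pow, Nat.cast_pow, Nat.cast_sub (by omega)]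
    push_cast
    ring
  rw [h7, pow_one, div_le_iff₀ (by linarith)]
  have h8 : (N : ℝ) ≤ n := by exact_mod_cast hn2.1.le
  nlinarith

section erg

variable {H : Type u} [NormedAddCommGroup H] [InnerProductSpace ℂ H]

lemma uniq (F : ℕ → ℕ → ℕ → ℕ → H) (x y : H) (δ δ' : ℝ)
    (hx : AW (fun N n a b => ‖F N n a b - (((b : ℝ) - a : ℝ) : ℂ) • x‖ ≤ δ * ((b : ℝ) - a)))
    (hy : AW (fun N n a b => ‖F N n a b - (((b : ℝ) - a : ℝ) : ℂ) • y‖ ≤ δ' * ((b : ℝ) - a))) :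
    ‖x - y‖ ≤ δ + δ' := by
  obtain ⟨N, n, a, b, ⟨h1, h2⟩, _, _, _, _, _, h3⟩ := AW_exists (AW_and (AW_and hx hy) (AW_win 0))
  have h4 : (((b : ℝ) - a : ℝ) : ℂ) • (x - y) = (F N n a b - (((b : ℝ) - a : ℝ) : ℂ) • y) -
      (F N n a b - (((b : ℝ) - a : ℝ) : ℂ) • x) := by
    rw [smul_sub]; abel
  have h5 : ((b : ℝ) - a) * ‖x - y‖ ≤ ((b : ℝ) - a) * (δ + δ') := by
    calc ((b : ℝ) - a) * ‖x - y‖ = ‖(((b : ℝ) - a : ℝ) : ℂ) • (x - y)‖ := by
          rw [norm_smul, Complex.norm_real, Real.norm_eq_abs, abs_of_pos h3]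
      _ ≤ _ := by
          rw [h4]
          refine (norm_sub_le _ _).trans ?_
          linarith
  exact le_of_mul_le_mul_left h5 h3

lemma per_AW (hALL : S_ALL) (U : H →ₗᵢ[ℂ] H) (g : H) (r : ℕ) (hr : 1 ≤ r) (hg : U^[r] g = g) (ε : ℝ) (hε : 0 < ε) :
    AW (fun _ n a b => ‖((2 * Real.log n : ℝ) : ℂ) • ∑ p ∈ pr a b, U^[p] g -
      (((b : ℝ) - a : ℝ) : ℂ) • ((1 / (Nat.totient r : ℂ)) • ∑ c ∈ (range r).filter (fun c => c.Coprime r), U^[c] g)‖ ≤
        ε * ((b : ℝ) - a)) := by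
  set ε' : ℝ := ε / (r * (‖g‖ + 1)) with hε'
  have hr0 : (0 : ℝ) < r := by exact_mod_cast hr
  have h1 := AW_fin ((range r).filter (fun c => c.Coprime r)) (fun c _ n a b =>
    |2 * Real.log n * (((pr a b).filter (fun p => p % r = c % r)).card : ℝ) -
      ((b : ℝ) - a) / Nat.totient r| ≤ ε' * ((b : ℝ) - a)) (fun c hc => by
        rw [mem_filter] at hc
        exact E2 hALL r c hr hc.2 ε' (by positivity))
  refine AW_mono (AW_and h1 (AW_win (r + 2))) 0 ?_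
  rintro N n a b - - - hab ⟨e1, hK, hn1, hn2, ha, hb, hD⟩
  have hcop : ∀ p ∈ pr a b, p % r ∈ (range r).filter (fun c => c.Coprime r) := by
    intro p hp
    rw [pr, mem_filter, mem_Ioc] at hp
    rw [mem_filter, mem_range]
    refine ⟨Nat.mod_lt _ hr, ?_⟩
    rw [Nat.Coprime, ← Nat.gcd_rec, Nat.gcd_comm]
    refine (Nat.Prime.coprime_iff_not_dvd hp.2).2 fun hd => ?_
    have h2 := Nat.le_of_dvd hr hd
    have h3 : n - 1 ≤ (n - 1) ^ 2 := by nlinarith [show 1 ≤ n - 1 by omega]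
    omega
  have h2 : ∑ p ∈ pr a b, U^[p] g = ∑ c ∈ (range r).filter (fun c => c.Coprime r),
      ((((pr a b).filter (fun p => p % r = c % r)).card : ℝ) : ℂ) • U^[c] g := by
    rw [← sum_fiberwise_of_maps_to hcop]
    refine sum_congr rfl fun c hc => ?_
    rw [mem_filter, mem_range] at hc
    have h3 : (pr a b).filter (fun p => p % r = c) = (pr a b).filter (fun p => p % r = c % r) := by
      rw [Nat.mod_eq_of_lt hc.1]
    rw [h3]
    have h4 : ∀ p ∈ (pr a b).filter (fun p => p % r = c % r), U^[p] g = U^[c] g := by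
      intro p hp
      rw [mem_filter] at hp
      rw [it_mod U r p g hg, hp.2, Nat.mod_eq_of_lt hc.1]
    rw [sum_congr rfl h4, sum_const, ← Nat.cast_smul_eq_nsmul ℂ]
    norm_cast
  set D : ℝ := (b : ℝ) - a with hDd
  have hφ : (0 : ℝ) < Nat.totient r := by exact_mod_cast Nat.totient_pos.2 (by omega)
  have h5 : ((2 * Real.log n : ℝ) : ℂ) • ∑ p ∈ pr a b, U^[p] g -
      ((D : ℝ) : ℂ) • ((1 / (Nat.totient r : ℂ)) • ∑ c ∈ (range r).filter (fun c => c.Coprime r), U^[c] g) =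
      ∑ c ∈ (range r).filter (fun c => c.Coprime r),
        ((2 * Real.log n * (((pr a b).filter (fun p => p % r = c % r)).card : ℝ) - D / Nat.totient r : ℝ) : ℂ) • U^[c] g := by
    rw [h2, smul_sum, smul_sum, smul_sum, ← sum_sub_distrib]
    refine sum_congr rfl fun c _ => ?_
    rw [smul_smul, smul_smul, ← sub_smul]
    congr 1
    generalize Real.log (n : ℝ) = Lg
    push_cast
    ring
  rw [h5]
  refine (norm_sum_le _ _).trans ?_
  have h6 : ∀ c ∈ (range r).filter (fun c => c.Coprime r),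
      ‖((2 * Real.log n * (((pr a b).filter (fun p => p % r = c % r)).card : ℝ) - D / Nat.totient r : ℝ) : ℂ) • U^[c] g‖ ≤
        ε' * D * ‖g‖ := by
    intro c hc
    rw [norm_smul, Complex.norm_real, Real.norm_eq_abs, it_norm]
    exact mul_le_mul_of_nonneg_right (e1 c hc) (norm_nonneg _)
  refine (sum_le_sum h6).trans ?_
  rw [sum_const, nsmul_eq_mul]
  have h7 : (((range r).filter (fun c => c.Coprime r)).card : ℝ) ≤ r := by
    have := card_filter_le (range r) (fun c => c.Coprime r)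
    rw [card_range] at this
    exact_mod_cast this
  calc (((range r).filter (fun c => c.Coprime r)).card : ℝ) * (ε' * D * ‖g‖) ≤ r * (ε' * D * ‖g‖) := by
        gcongr
    _ = ε * D * (‖g‖ / (‖g‖ + 1)) := by rw [hε']; field_simp
    _ ≤ ε * D * 1 := by
        gcongr
        rw [div_le_one (by positivity)]
        linarith
    _ = ε * D := mul_one _

lemma mean_step (hALL : S_ALL) [CompleteSpace H] (U : H →ₗᵢ[ℂ] H) (f : H) (δ : ℝ) (hδ : 0 < δ) : ∃ l : H,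
    AW (fun _ n a b => ‖((2 * Real.log n : ℝ) : ℂ) • ∑ p ∈ pr a b, U^[p] f - (((b : ℝ) - a : ℝ) : ℂ) • l‖ ≤
      δ * ((b : ℝ) - a)) := by
  obtain ⟨f₁, f₂, rfl, h1, h2⟩ := dec U f
  obtain ⟨g, r, hr, hg, hd⟩ := h1 (δ / 4) (by positivity)
  refine ⟨(1 / (Nat.totient r : ℂ)) • ∑ c ∈ (range r).filter (fun c => c.Coprime r), U^[c] g, ?_⟩
  have a1 := per_AW hALL U g r hr hg (δ / 4) (by positivity)
  have a2 := E1_all hALL (fun k => U^[k] f₂) (Sta_it U f₂) (Tot_NR U f₂ h2) (δ / 4) (by positivity)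
  have a3 := count_pr hALL 1 one_pos
  refine AW_mono (AW_and (AW_and a1 a2) (AW_and a3 (AW_win 0))) 0 ?_
  rintro N n a b - - - hab ⟨⟨e1, e2⟩, e3, _, _, _, _, _, hD⟩
  have hlog : 0 ≤ 2 * Real.log n := mul_nonneg (by norm_num) (Real.log_natCast_nonneg n)
  set D : ℝ := (b : ℝ) - a with hDd
  set l : H := (1 / (Nat.totient r : ℂ)) • ∑ c ∈ (range r).filter (fun c => c.Coprime r), U^[c] g with hl
  have h3 : ((2 * Real.log n : ℝ) : ℂ) • ∑ p ∈ pr a b, U^[p] (f₁ + f₂) - ((D : ℝ) : ℂ) • l =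
      (((2 * Real.log n : ℝ) : ℂ) • ∑ p ∈ pr a b, U^[p] g - ((D : ℝ) : ℂ) • l) +
      ((2 * Real.log n : ℝ) : ℂ) • ∑ p ∈ pr a b, U^[p] (f₁ - g) + ((2 * Real.log n : ℝ) : ℂ) • ∑ p ∈ pr a b, U^[p] f₂ := by
    have h4 : ∑ p ∈ pr a b, U^[p] (f₁ + f₂) = ∑ p ∈ pr a b, U^[p] g + ∑ p ∈ pr a b, U^[p] (f₁ - g) +
        ∑ p ∈ pr a b, U^[p] f₂ := by
      rw [← sum_add_distrib, ← sum_add_distrib]
      refine sum_congr rfl fun p _ => ?_
      rw [it_add, it_sub]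
      abel
    rw [h4, smul_add, smul_add]
    abel
  rw [h3]
  have h4 : ‖((2 * Real.log n : ℝ) : ℂ) • ∑ p ∈ pr a b, U^[p] (f₁ - g)‖ ≤ 2 * D * (δ / 4) := by
    rw [norm_smul, Complex.norm_real, Real.norm_eq_abs, abs_of_nonneg hlog]
    have h5 : ‖∑ p ∈ pr a b, U^[p] (f₁ - g)‖ ≤ (pr a b).card * (δ / 4) := by
      refine (norm_sum_le _ _).trans ?_
      rw [← nsmul_eq_mul, ← sum_const]
      exact sum_le_sum fun p _ => by rw [it_norm]; exact hd
    have h6 := (abs_le.1 e3).2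
    calc 2 * Real.log n * ‖∑ p ∈ pr a b, U^[p] (f₁ - g)‖ ≤ 2 * Real.log n * ((pr a b).card * (δ / 4)) := by gcongr
      _ = 2 * Real.log n * (pr a b).card * (δ / 4) := by ring
      _ ≤ 2 * D * (δ / 4) := mul_le_mul_of_nonneg_right (by linarith) (by positivity)
  have h5 : ‖((2 * Real.log n : ℝ) : ℂ) • ∑ p ∈ pr a b, U^[p] f₂‖ ≤ δ / 4 * D := by
    rw [norm_smul, Complex.norm_real, Real.norm_eq_abs, abs_of_nonneg hlog]
    exact e2
  refine norm_add₃_le.trans ?_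
  linarith

/-- **the mean ergodic theorem along the primes of almost all short intervals near squares** -/
theorem mean_erg (hALL : S_ALL) [CompleteSpace H] (U : H →ₗᵢ[ℂ] H) : ∃ l : H → H,
    (∀ (f : H) (ε : ℝ), 0 < ε → AW (fun _ n a b => ‖((2 * Real.log n : ℝ) : ℂ) • ∑ p ∈ pr a b, U^[p] f -
      (((b : ℝ) - a : ℝ) : ℂ) • l f‖ ≤ ε * ((b : ℝ) - a))) ∧
    (∀ (g : H) (r : ℕ), 1 ≤ r → U^[r] g = g →
      l g = (1 / (Nat.totient r : ℂ)) • ∑ c ∈ (range r).filter (fun c => c.Coprime r), U^[c] g) ∧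
    (∀ f : H, (∀ (g : H) (r : ℕ), 1 ≤ r → U^[r] g = g → inner ℂ g f = 0) → l f = 0) := by
  have hex : ∀ f : H, ∃ l : H, ∀ ε : ℝ, 0 < ε → AW (fun _ n a b =>
      ‖((2 * Real.log n : ℝ) : ℂ) • ∑ p ∈ pr a b, U^[p] f - (((b : ℝ) - a : ℝ) : ℂ) • l‖ ≤ ε * ((b : ℝ) - a)) := by
    intro f
    have h1 : ∀ j : ℕ, ∃ l : H, AW (fun _ n a b =>
      ‖((2 * Real.log n : ℝ) : ℂ) • ∑ p ∈ pr a b, U^[p] f - (((b : ℝ) - a : ℝ) : ℂ) • l‖ ≤ (1 / ((j : ℝ) + 1)) * ((b : ℝ) - a)) :=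
      fun j => mean_step hALL U f _ (by positivity)
    choose l hl using h1
    have h2 : ∀ i j : ℕ, ‖l i - l j‖ ≤ 1 / ((i : ℝ) + 1) + 1 / ((j : ℝ) + 1) := fun i j =>
      uniq (fun _ n a b => ((2 * Real.log n : ℝ) : ℂ) • ∑ p ∈ pr a b, U^[p] f) (l i) (l j) _ _ (hl i) (hl j)
    have h3 : Tendsto (fun j : ℕ => 1 / ((j : ℝ) + 1)) atTop (𝓝 0) := tendsto_one_div_add_atTop_nhds_zero_nat
    have hC : CauchySeq l := by
      refine cauchySeq_of_le_tendsto_0 (fun j : ℕ => 1 / ((j : ℝ) + 1) + 1 / ((j : ℝ) + 1)) ?_ ?_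
      · intro i j N hi hj
        rw [dist_eq_norm]
        refine (h2 i j).trans ?_
        have h4 : (N : ℝ) ≤ i := by exact_mod_cast hi
        have h5 : (N : ℝ) ≤ j := by exact_mod_cast hj
        gcongr
      · have := h3.add h3
        rwa [add_zero] at this
    obtain ⟨x, hx⟩ := cauchySeq_tendsto_of_complete hC
    have h4 : ∀ j : ℕ, ‖l j - x‖ ≤ 1 / ((j : ℝ) + 1) := by
      intro j
      have h5 : Tendsto (fun i => ‖l j - l i‖) atTop (𝓝 ‖l j - x‖) := (tendsto_const_nhds.sub hx).norm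
      have h6 : Tendsto (fun i : ℕ => 1 / ((j : ℝ) + 1) + 1 / ((i : ℝ) + 1)) atTop (𝓝 (1 / ((j : ℝ) + 1) + 0)) :=
        tendsto_const_nhds.add h3
      rw [add_zero] at h6
      exact le_of_tendsto_of_tendsto' h5 h6 (fun i => h2 j i)
    refine ⟨x, fun ε hε => ?_⟩
    obtain ⟨j, hj⟩ := exists_nat_one_div_lt (show 0 < ε / 2 by positivity)
    refine AW_mono (AW_and (hl j) (AW_win 0)) 0 ?_
    rintro N n a b - - - hab ⟨e1, _, _, _, _, _, hD⟩
    set D : ℝ := (b : ℝ) - a with hDd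
    have h7 : ((2 * Real.log n : ℝ) : ℂ) • ∑ p ∈ pr a b, U^[p] f - ((D : ℝ) : ℂ) • x =
        (((2 * Real.log n : ℝ) : ℂ) • ∑ p ∈ pr a b, U^[p] f - ((D : ℝ) : ℂ) • l j) + ((D : ℝ) : ℂ) • (l j - x) := by
      rw [smul_sub]; abel
    rw [h7]
    refine (norm_add_le _ _).trans ?_
    rw [norm_smul, Complex.norm_real, Real.norm_eq_abs, abs_of_pos hD]
    have h8 := h4 j
    have h9 : D * ‖l j - x‖ ≤ D * (ε / 2) := by
      gcongr
      exact h8.trans hj.le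
    have h10 : 1 / ((j : ℝ) + 1) * D ≤ ε / 2 * D := by gcongr
    linarith
  choose l hl using hex
  refine ⟨l, hl, ?_, ?_⟩
  · intro g r hr hg
    rw [← sub_eq_zero, ← norm_eq_zero]
    apply le_antisymm _ (norm_nonneg _)
    apply le_of_forall_pos_le_add
    intro ε hε
    have := uniq _ _ _ _ _ (hl g (ε / 2) (by positivity)) (per_AW hALL U g r hr hg (ε / 2) (by positivity))
    linarith
  · intro f hf
    rw [← norm_eq_zero]
    apply le_antisymm _ (norm_nonneg _)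
    apply le_of_forall_pos_le_add
    intro ε hε
    have h1 : AW (fun _ n a b => ‖((2 * Real.log n : ℝ) : ℂ) • ∑ p ∈ pr a b, U^[p] f -
        (((b : ℝ) - a : ℝ) : ℂ) • (0 : H)‖ ≤ ε / 2 * ((b : ℝ) - a)) := by
      refine AW_mono (E1_all hALL (fun k => U^[k] f) (Sta_it U f) (Tot_NR U f hf) (ε / 2) (by positivity)) 0 ?_
      intro N n a b _ _ _ _ h
      have hlog : 0 ≤ 2 * Real.log n := mul_nonneg (by norm_num) (Real.log_natCast_nonneg n)
      rw [smul_zero, sub_zero, norm_smul, Complex.norm_real, Real.norm_eq_abs, abs_of_nonneg hlog]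
      exact h
    have := uniq _ _ _ _ _ (hl f (ε / 2) (by positivity)) h1
    rw [sub_zero] at this
    linarith

end erg

end Pool.Agent.Run7.h591.EG
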