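import Mathlib
import Pool.Agent.Run7.h591.EG.Erg
import Pool.Agent.R481.TH.Tot

/-!
# Project ERG (helper591), part 12: transfer to the intervals of the problems
-/

set_option autoImplicit false
set_option maxHeartbeats 4000000

universe u

namespace Pool.Agent.Run7.h591.EG

open Finset Filter Topology
open MeasureTheory
open Pool.Agent.Run7.h794.MK (W MS S_ALL)
open Pool.Agent.H373R2.T7 (ev_L' ev_log')

lemma sq_not_prime (n : ℕ) : ¬ (n ^ 2).Prime := by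
  intro h
  exact Nat.Prime.one_lt h |>.ne' (by
    have h1 := (Nat.prime_mul_iff.1 (by rwa [pow_two] at h))
    rcases h1 with ⟨_, h2⟩ | ⟨_, h2⟩ <;> rw [h2] <;> norm_num)

lemma pro_not_prime (n : ℕ) (hn : 2 ≤ n) : ¬ (n ^ 2 + n).Prime := by
  have : n ^ 2 + n = n * (n + 1) := by ring
  rw [this]
  exact Nat.not_prime_mul (by omega) (by omega)

/-- windows given by functions of `n` -/
lemma AW_at {Q : ℕ → ℕ → ℕ → ℕ → Prop} (hQ : AW Q) (α β : ℕ → ℕ) (B n₀ : ℕ)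
    (h : ∀ n : ℕ, n₀ ≤ n → (n - 1) ^ 2 ≤ α n ∧ α n ≤ β n ∧ β n ≤ (n + 1) ^ 2 ∧
      (n : ℝ) / Real.log n ^ B ≤ (β n : ℝ) - α n) :
    ∀ C : ℕ, ∃ N₀ : ℕ, ∀ N : ℕ, N₀ ≤ N → ∃ Bad : Finset ℕ, Bad ⊆ Ioc N (2 * N) ∧
      (Bad.card : ℝ) ≤ N / Real.log N ^ C ∧ ∀ n ∈ Ioc N (2 * N), n ∉ Bad → Q N n (α n) (β n) := by
  intro C
  obtain ⟨N₀, h1⟩ := hQ C (2 * B)
  obtain ⟨n1, h5⟩ := ev_L' 2
  refine ⟨max (max N₀ n₀) (max n1 2), fun N hN => ?_⟩
  obtain ⟨Bad, b1, b2, b3⟩ := h1 N (le_trans (le_trans (le_max_left _ _) (le_max_left _ _)) hN)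
  have hn0 : n₀ ≤ N := le_trans (le_trans (le_max_right _ _) (le_max_left _ _)) hN
  have hL := h5 N (le_trans (le_trans (le_max_left _ _) (le_max_right _ _)) hN)
  have hN2 : 2 ≤ N := le_trans (le_trans (le_max_right _ _) (le_max_right _ _)) hN
  refine ⟨Bad, b1, b2, fun n hn hnB => ?_⟩
  have hn2 := mem_Ioc.1 hn
  obtain ⟨c1, c2, c3, c4⟩ := h n (by omega)
  refine b3 n hn hnB _ _ c1 c2 c3 (le_trans ?_ c4)
  have hNR : (2 : ℝ) ≤ N := by exact_mod_cast hN2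
  have hnN : (N : ℝ) ≤ n := by exact_mod_cast hn2.1.le
  have hn2N : (n : ℝ) ≤ 2 * N := by exact_mod_cast hn2.2
  have hl1 : Real.log n ≤ Real.log N * Real.log N := by
    have e1 : Real.log n ≤ Real.log (2 * N) := Real.log_le_log (by linarith) hn2N
    rw [Real.log_mul (by norm_num) (by linarith)] at e1
    have e2 : Real.log 2 ≤ Real.log N := Real.log_le_log (by norm_num) hNR
    nlinarith
  have hl0 : 0 < Real.log n := lt_of_lt_of_le (by linarith) (Real.log_le_log (by linarith) hnN)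
  rw [pow_mul, sq]
  have e3 : Real.log n ^ B ≤ (Real.log N * Real.log N) ^ B := pow_le_pow_left₀ hl0.le hl1 _
  calc (N : ℝ) / (Real.log N * Real.log N) ^ B ≤ N / Real.log n ^ B := by gcongr
    _ ≤ n / Real.log n ^ B := by gcongr

/-- the same, counting exceptions -/
lemma AW_at' {Q : ℕ → ℕ → ℕ → ℕ → Prop} (hQ : AW Q) (α β : ℕ → ℕ) (B n₀ : ℕ)
    (h : ∀ n : ℕ, n₀ ≤ n → (n - 1) ^ 2 ≤ α n ∧ α n ≤ β n ∧ β n ≤ (n + 1) ^ 2 ∧
      (n : ℝ) / Real.log n ^ B ≤ (β n : ℝ) - α n) (P : ℕ → Prop) (hP : ∀ N n : ℕ, n₀ ≤ n → Q N n (α n) (β n) → P n) :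
    ∀ C : ℕ, ∃ N₀ : ℕ, ∀ N : ℕ, N₀ ≤ N → ∃ Bad : Finset ℕ, Bad ⊆ Ioc N (2 * N) ∧
      (Bad.card : ℝ) ≤ N / Real.log N ^ C ∧ ∀ n ∈ Ioc N (2 * N), n ∉ Bad → P n := by
  intro C
  obtain ⟨N₀, h1⟩ := AW_at hQ α β B n₀ h C
  refine ⟨max N₀ n₀, fun N hN => ?_⟩
  obtain ⟨Bad, b1, b2, b3⟩ := h1 N (le_trans (le_max_left _ _) hN)
  refine ⟨Bad, b1, b2, fun n hn hnB => hP N n ?_ (b3 n hn hnB)⟩
  have := (mem_Ioc.1 hn).1
  have h2 : n₀ ≤ N := le_trans (le_max_right _ _) hN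
  omega

/-- even indices -/
lemma ev_half (P : ℕ → Prop) (h : ∀ C : ℕ, ∃ N₀ : ℕ, ∀ N : ℕ, N₀ ≤ N → ∃ Bad : Finset ℕ, Bad ⊆ Ioc N (2 * N) ∧
      (Bad.card : ℝ) ≤ N / Real.log N ^ C ∧ ∀ n ∈ Ioc N (2 * N), n ∉ Bad → P n) :
    ∀ C : ℕ, ∃ K₀ : ℕ, ∀ K : ℕ, K₀ ≤ K → ∃ Bad : Finset ℕ, Bad ⊆ Ioc K (2 * K) ∧
      (Bad.card : ℝ) ≤ K / Real.log K ^ C ∧ ∀ k ∈ Ioc K (2 * K), k ∉ Bad → P (2 * k) := by
  intro C
  obtain ⟨N₀, h1⟩ := h (C + 1)
  obtain ⟨n1, h5⟩ := ev_L' 2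
  refine ⟨max N₀ (max n1 2), fun K hK => ?_⟩
  obtain ⟨Bad, b1, b2, b3⟩ := h1 (2 * K) (by have := le_trans (le_max_left _ _) hK; omega)
  have hL := h5 K (le_trans (le_trans (le_max_left _ _) (le_max_right _ _)) hK)
  have hK2 : 2 ≤ K := le_trans (le_trans (le_max_right _ _) (le_max_right _ _)) hK
  have hKR : (2 : ℝ) ≤ K := by exact_mod_cast hK2
  refine ⟨(Ioc K (2 * K)).filter (fun k => 2 * k ∈ Bad), filter_subset _ _, ?_, ?_⟩
  · have h2 : ((Ioc K (2 * K)).filter (fun k => 2 * k ∈ Bad)).card ≤ Bad.card := by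
      apply card_le_card_of_injOn (fun k => 2 * k)
      · intro k hk
        simp only [coe_filter, mem_Ioc, Set.mem_ofPred_eq] at hk
        exact hk.2
      · intro x _ y _ hxy
        simp only at hxy
        omega
    have h3 : (((Ioc K (2 * K)).filter (fun k => 2 * k ∈ Bad)).card : ℝ) ≤ Bad.card := by exact_mod_cast h2
    refine h3.trans (b2.trans ?_)
    have hlog : Real.log K ≤ Real.log ((2 * K : ℕ) : ℝ) := by
      apply Real.log_le_log (by linarith)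
      push_cast
      linarith
    have h4 : Real.log K ^ (C + 1) ≤ Real.log ((2 * K : ℕ) : ℝ) ^ (C + 1) := pow_le_pow_left₀ (by linarith) hlog _
    have h0 : 0 < Real.log K := by linarith
    calc ((2 * K : ℕ) : ℝ) / Real.log ((2 * K : ℕ) : ℝ) ^ (C + 1) ≤ ((2 * K : ℕ) : ℝ) / Real.log K ^ (C + 1) := by gcongr
      _ ≤ K / Real.log K ^ C := by
        rw [div_le_div_iff₀ (by positivity) (by positivity), pow_succ]
        push_cast
        have : (0 : ℝ) ≤ K * Real.log K ^ C := by positivity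
        nlinarith
  · intro k hk hkB
    rw [mem_filter, not_and] at hkB
    have hk2 := mem_Ioc.1 hk
    exact b3 (2 * k) (mem_Ioc.2 ⟨by omega, by omega⟩) (hkB hk)

/-- all integers `m`: the windows `(m, m + h]` with `√X / log^C X ≤ h ≤ √X` -/
lemma AW_int {Q : ℕ → ℕ → ℕ → ℕ → Prop} (hQ : AW Q) (A C : ℕ) : ∃ X₀ : ℕ, ∀ X : ℕ, X₀ ≤ X → ∃ Bad : Finset ℕ,
    Bad ⊆ Ioc X (2 * X) ∧ (Bad.card : ℝ) ≤ X / Real.log X ^ A ∧ ∀ m ∈ Ioc X (2 * X), m ∉ Bad → ∀ h : ℕ,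
      √(X : ℝ) / Real.log X ^ C ≤ h → h ≤ Nat.sqrt X → ∃ N n : ℕ, N < n ∧ n ≤ 2 * N ∧ (n - 1) ^ 2 ≤ m ∧ m < n ^ 2 ∧
        Nat.sqrt X = N ∧ Q N n m (m + h) := by
  obtain ⟨N₀, h1⟩ := hQ (A + 1) (2 * C)
  obtain ⟨n1, h5⟩ := ev_L' (4 * 3 ^ (A + 1))
  obtain ⟨n2, h6⟩ := ev_L' 3
  refine ⟨max (max ((N₀ + 3) ^ 2) n1) ((n2 + 3) ^ 2), fun X hX => ?_⟩
  have hX1 : (N₀ + 3) ^ 2 ≤ X := le_trans (le_trans (le_max_left _ _) (le_max_left _ _)) hX
  have hLX := h5 X (le_trans (le_trans (le_max_right _ _) (le_max_left _ _)) hX)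
  have hX2 : (n2 + 3) ^ 2 ≤ X := le_trans (le_max_right _ _) hX
  set N := Nat.sqrt X with hN
  have hNX : N ^ 2 ≤ X := Nat.sqrt_le' X
  have hXN : X < (N + 1) ^ 2 := Nat.lt_succ_sqrt' X
  have hN3 : N₀ + 3 ≤ N := Nat.le_sqrt'.2 hX1
  have hN4 : n2 + 3 ≤ N := Nat.le_sqrt'.2 hX2
  have hL := h6 N (by omega)
  obtain ⟨Bad, b1, b2, b3⟩ := h1 N (by omega)
  have hNR : (3 : ℝ) ≤ N := by exact_mod_cast (show 3 ≤ N by omega)
  have hXR : (N : ℝ) ^ 2 ≤ X := by exact_mod_cast hNX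
  have hXR2 : (X : ℝ) ≤ (N + 1) ^ 2 := by exact_mod_cast hXN.le
  have hlogX : Real.log X ≤ 3 * Real.log N := by
    have e1 : Real.log X ≤ Real.log ((N : ℝ) ^ 3) := by
      apply Real.log_le_log (by nlinarith)
      nlinarith
    rw [Real.log_pow] at e1
    exact_mod_cast e1
  have hlogX0 : 0 < Real.log X := lt_of_lt_of_le (by positivity) hLX
  have hL0 : 0 < Real.log N := by linarith
  have hrange : ∀ m ∈ Ioc X (2 * X), Nat.sqrt m + 1 ∈ Ioc N (2 * N) := by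
    intro m hm
    rw [mem_Ioc] at hm ⊢
    have e1 : N ≤ Nat.sqrt m := Nat.sqrt_le_sqrt hm.1.le
    have e2 : Nat.sqrt m < 2 * N := by
      rw [Nat.sqrt_lt']
      have : 2 * (N + 1) ^ 2 ≤ (2 * N) ^ 2 := by nlinarith [show 3 ≤ N by omega]
      omega
    omega
  refine ⟨(Ioc X (2 * X)).filter (fun m => Nat.sqrt m + 1 ∈ Bad), filter_subset _ _, ?_, ?_⟩
  · have h2 : ((Ioc X (2 * X)).filter (fun m => Nat.sqrt m + 1 ∈ Bad)).card ≤ Bad.card * (4 * N) := by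
      refine (card_le_mul_card_image_of_maps_to (f := fun m => Nat.sqrt m + 1) (t := Bad) ?_ (4 * N) ?_).trans
        (le_of_eq (mul_comm _ _))
      · intro m hm
        rw [mem_filter] at hm
        exact hm.2
      · intro n hn
        have hn2 := mem_Ioc.1 (b1 hn)
        have h3 : ((Ioc X (2 * X)).filter (fun m => Nat.sqrt m + 1 ∈ Bad)).filter (fun m => Nat.sqrt m + 1 = n) ⊆
            Ico ((n - 1) ^ 2) (n ^ 2) := by
          intro m hm
          rw [mem_filter] at hm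
          have h4 : Nat.sqrt m = n - 1 := by omega
          rw [mem_Ico]
          constructor
          · rw [← h4]; exact Nat.sqrt_le' m
          · have := Nat.lt_succ_sqrt' m
            rw [h4] at this
            have h5 : (n - 1).succ = n := by omega
            rwa [h5] at this
        refine (card_le_card h3).trans ?_
        rw [Nat.card_Ico]
        obtain ⟨k, rfl⟩ : ∃ k, n = k + 1 := ⟨n - 1, by omega⟩
        have : (k + 1) ^ 2 = (k + 1 - 1) ^ 2 + (2 * k + 1) := by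
          simp only [Nat.add_sub_cancel]
          ring
        omega
    have h3 : (((Ioc X (2 * X)).filter (fun m => Nat.sqrt m + 1 ∈ Bad)).card : ℝ) ≤ Bad.card * (4 * N) := by
      exact_mod_cast h2
    refine h3.trans ?_
    have h4 : (Bad.card : ℝ) * (4 * N) ≤ N / Real.log N ^ (A + 1) * (4 * N) := by gcongr
    refine h4.trans ?_
    have h5 : Real.log X ^ (A + 1) ≤ 3 ^ (A + 1) * Real.log N ^ (A + 1) := by
      rw [← mul_pow]
      exact pow_le_pow_left₀ hlogX0.le hlogX _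
    rw [div_mul_eq_mul_div, div_le_div_iff₀ (by positivity) (by positivity)]
    calc (N : ℝ) * (4 * N) * Real.log X ^ A = 4 * (N : ℝ) ^ 2 * Real.log X ^ A := by ring
      _ ≤ 4 * X * Real.log X ^ A := by gcongr
      _ = X * (4 * Real.log X ^ A) := by ring
      _ ≤ X * Real.log N ^ (A + 1) := by
          apply mul_le_mul_of_nonneg_left _ (by positivity)
          have h6 : 3 ^ (A + 1) * (4 * Real.log X ^ A) ≤ 3 ^ (A + 1) * Real.log N ^ (A + 1) := by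
            calc 3 ^ (A + 1) * (4 * Real.log X ^ A) = (4 * 3 ^ (A + 1)) * Real.log X ^ A := by ring
              _ ≤ Real.log X * Real.log X ^ A := by gcongr
              _ = Real.log X ^ (A + 1) := by ring
              _ ≤ _ := h5
          exact le_of_mul_le_mul_left h6 (by positivity)
  · intro m hm hmB h hh1 hh2
    rw [mem_filter, not_and] at hmB
    have hr := hrange m hm
    have hr2 := mem_Ioc.1 hr
    have q1 : (Nat.sqrt m + 1 - 1) ^ 2 ≤ m := by rw [Nat.add_sub_cancel]; exact Nat.sqrt_le' m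
    have q2 : m < (Nat.sqrt m + 1) ^ 2 := Nat.lt_succ_sqrt' m
    refine ⟨N, Nat.sqrt m + 1, hr2.1, hr2.2, q1, q2, rfl, ?_⟩
    refine b3 _ hr (hmB hm) m (m + h) q1 (by omega) ?_ ?_
    · have h7 : (Nat.sqrt m + 1) ^ 2 + (Nat.sqrt m + 1) ≤ (Nat.sqrt m + 1 + 1) ^ 2 := by nlinarith
      omega
    · have h8 : (((m + h : ℕ) : ℝ)) - m = h := by push_cast; ring
      rw [h8]
      refine le_trans ?_ hh1
      have e1 : (N : ℝ) ≤ √(X : ℝ) := Real.le_sqrt_of_sq_le hXR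
      have e2 : Real.log X ^ C ≤ Real.log N ^ (2 * C) := by
        rw [pow_mul]
        apply pow_le_pow_left₀ hlogX0.le
        nlinarith
      gcongr

end Pool.Agent.Run7.h591.EG
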