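import Mathlib
import Pool.Agent.Run7.h591.EG.Fin

/-!
# Project ERG (helper591), part 13: small lemmas for the final statements
-/

set_option autoImplicit false
set_option maxHeartbeats 4000000

universe u

namespace Pool.Agent.Run7.h591.EG

open Finset Filter Topology
open MeasureTheory
open Pool.Agent.Run7.h794.MK (W MS S_ALL)
open Pool.Agent.H373R2.T7 (ev_L' ev_log')

lemma pr_Ioo (a b : ℕ) (hb : ¬ b.Prime) (P : ℕ → Prop) [DecidablePred P] :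
    (pr a b).filter P = (Ioo a b).filter (fun p => p.Prime ∧ P p) := by
  ext p
  simp only [pr, mem_filter, mem_Ioc, mem_Ioo]
  constructor
  · rintro ⟨⟨⟨h1, h2⟩, h3⟩, h4⟩
    refine ⟨⟨h1, lt_of_le_of_ne h2 ?_⟩, h3, h4⟩
    rintro rfl
    exact hb h3
  · rintro ⟨⟨h1, h2⟩, h3, h4⟩
    exact ⟨⟨⟨h1, h2.le⟩, h3⟩, h4⟩

lemma pr_Ioc (a b : ℕ) (P : ℕ → Prop) [DecidablePred P] :
    (pr a b).filter P = (Ioc a b).filter (fun p => p.Prime ∧ P p) := by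
  ext p
  simp only [pr, mem_filter, and_assoc]

lemma pr_Icc (a b : ℕ) (ha : ¬ a.Prime) : pr a b = (Icc a b).filter Nat.Prime := by
  ext p
  simp only [pr, mem_filter, mem_Ioc, mem_Icc]
  constructor
  · rintro ⟨⟨h1, h2⟩, h3⟩
    exact ⟨⟨h1.le, h2⟩, h3⟩
  · rintro ⟨⟨h1, h2⟩, h3⟩
    refine ⟨⟨lt_of_le_of_ne h1 ?_, h2⟩, h3⟩
    rintro rfl
    exact ha h3

lemma lo_not_prime (n : ℕ) (hn : 3 ≤ n) : ¬ (n ^ 2 - n).Prime := by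
  have : n ^ 2 - n = n * (n - 1) := by
    obtain ⟨k, rfl⟩ : ∃ k, n = k + 1 := ⟨n - 1, by omega⟩
    simp only [Nat.add_sub_cancel]
    have : (k + 1) ^ 2 = (k + 1) * k + (k + 1) := by ring
    omega
  rw [this]
  exact Nat.not_prime_mul (by omega) (by omega)

/-- the two halves of Oppermann's conjecture -/
lemma half_lo : ∃ n₀ : ℕ, ∀ n : ℕ, n₀ ≤ n → (n - 1) ^ 2 ≤ n ^ 2 - n ∧ n ^ 2 - n ≤ n ^ 2 ∧ n ^ 2 ≤ (n + 1) ^ 2 ∧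
    (n : ℝ) / Real.log n ^ 1 ≤ ((n ^ 2 : ℕ) : ℝ) - ((n ^ 2 - n : ℕ) : ℝ) := by
  obtain ⟨n1, h1⟩ := ev_L' 1
  refine ⟨max n1 3, fun n hn => ?_⟩
  have hL := h1 n (le_trans (le_max_left _ _) hn)
  have hn3 : 3 ≤ n := le_trans (le_max_right _ _) hn
  obtain ⟨k, rfl⟩ : ∃ k, n = k + 1 := ⟨n - 1, by omega⟩
  have e1 : (k + 1) ^ 2 - (k + 1) = (k + 1) * k := by
    have : (k + 1) ^ 2 = (k + 1) * k + (k + 1) := by ring
    omega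
  refine ⟨?_, Nat.sub_le _ _, Nat.pow_le_pow_left (by omega) 2, ?_⟩
  · rw [e1]
    simp only [Nat.add_sub_cancel]
    nlinarith
  · rw [e1, pow_one]
    push_cast at hL ⊢
    rw [div_le_iff₀ (by linarith)]
    nlinarith [show (0 : ℝ) ≤ k by positivity]

lemma half_hi : ∃ n₀ : ℕ, ∀ n : ℕ, n₀ ≤ n → (n - 1) ^ 2 ≤ n ^ 2 ∧ n ^ 2 ≤ n ^ 2 + n ∧ n ^ 2 + n ≤ (n + 1) ^ 2 ∧
    (n : ℝ) / Real.log n ^ 1 ≤ ((n ^ 2 + n : ℕ) : ℝ) - ((n ^ 2 : ℕ) : ℝ) := by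
  obtain ⟨n1, h1⟩ := ev_L' 1
  refine ⟨max n1 3, fun n hn => ?_⟩
  have hL := h1 n (le_trans (le_max_left _ _) hn)
  have hn3 : 3 ≤ n := le_trans (le_max_right _ _) hn
  refine ⟨Nat.pow_le_pow_left (by omega) 2, by omega, by nlinarith, ?_⟩
  rw [pow_one]
  push_cast at hL ⊢
  rw [div_le_iff₀ (by linarith)]
  nlinarith [show (0 : ℝ) ≤ n by positivity]

/-- the whole interval -/
lemma full : ∃ n₀ : ℕ, ∀ n : ℕ, n₀ ≤ n → (n - 1) ^ 2 ≤ (n - 1) ^ 2 ∧ (n - 1) ^ 2 ≤ (n + 1) ^ 2 ∧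
    (n + 1) ^ 2 ≤ (n + 1) ^ 2 ∧
    (n : ℝ) / Real.log n ^ 1 ≤ (((n + 1) ^ 2 : ℕ) : ℝ) - (((n - 1) ^ 2 : ℕ) : ℝ) := by
  obtain ⟨n1, h1⟩ := ev_L' 1
  refine ⟨max n1 3, fun n hn => ?_⟩
  have hL := h1 n (le_trans (le_max_left _ _) hn)
  have hn3 : 3 ≤ n := le_trans (le_max_right _ _) hn
  refine ⟨le_rfl, Nat.pow_le_pow_left (by omega) 2, le_rfl, ?_⟩
  obtain ⟨k, rfl⟩ : ∃ k, n = k + 1 := ⟨n - 1, by omega⟩
  rw [pow_one]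
  push_cast at hL ⊢
  rw [div_le_iff₀ (by linarith)]
  nlinarith [show (0 : ℝ) ≤ k by positivity]

lemma len_full (n : ℕ) (hn : 1 ≤ n) : (((n + 1) ^ 2 : ℕ) : ℝ) - (((n - 1) ^ 2 : ℕ) : ℝ) = 4 * n := by
  rw [Nat.cast_pow, Nat.cast_pow, Nat.cast_sub (by omega)]
  push_cast
  ring

lemma len_lo (n : ℕ) : ((n ^ 2 : ℕ) : ℝ) - ((n ^ 2 - n : ℕ) : ℝ) = n := by
  rw [Nat.cast_sub (by nlinarith)]
  ring

lemma len_hi (n : ℕ) : ((n ^ 2 + n : ℕ) : ℝ) - ((n ^ 2 : ℕ) : ℝ) = n := by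
  push_cast
  ring

/-- combine two `for almost all n` statements -/
lemma alm_and (P R : ℕ → Prop)
    (h1 : ∀ C : ℕ, ∃ N₀ : ℕ, ∀ N : ℕ, N₀ ≤ N → ∃ Bad : Finset ℕ, Bad ⊆ Ioc N (2 * N) ∧
      (Bad.card : ℝ) ≤ N / Real.log N ^ C ∧ ∀ n ∈ Ioc N (2 * N), n ∉ Bad → P n)
    (h2 : ∀ C : ℕ, ∃ N₀ : ℕ, ∀ N : ℕ, N₀ ≤ N → ∃ Bad : Finset ℕ, Bad ⊆ Ioc N (2 * N) ∧
      (Bad.card : ℝ) ≤ N / Real.log N ^ C ∧ ∀ n ∈ Ioc N (2 * N), n ∉ Bad → R n) :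
    ∀ C : ℕ, ∃ N₀ : ℕ, ∀ N : ℕ, N₀ ≤ N → ∃ Bad : Finset ℕ, Bad ⊆ Ioc N (2 * N) ∧
      (Bad.card : ℝ) ≤ N / Real.log N ^ C ∧ ∀ n ∈ Ioc N (2 * N), n ∉ Bad → P n ∧ R n := by
  intro C
  obtain ⟨N1, a⟩ := h1 (C + 1)
  obtain ⟨N2, b⟩ := h2 (C + 1)
  obtain ⟨n3, h3⟩ := ev_L' 2
  refine ⟨max (max N1 N2) n3, fun N hN => ?_⟩
  obtain ⟨Bad1, a1, a2, a3⟩ := a N (le_trans (le_trans (le_max_left _ _) (le_max_left _ _)) hN)
  obtain ⟨Bad2, b1, b2, b3⟩ := b N (le_trans (le_trans (le_max_right _ _) (le_max_left _ _)) hN)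
  have hL := h3 N (le_trans (le_max_right _ _) hN)
  refine ⟨Bad1 ∪ Bad2, union_subset a1 b1, ?_, fun n hn hnB => ?_⟩
  · have h4 : ((Bad1 ∪ Bad2).card : ℝ) ≤ Bad1.card + Bad2.card := by exact_mod_cast card_union_le _ _
    have hL0 : 0 < Real.log N := by linarith
    have h5 : N / Real.log N ^ (C + 1) + N / Real.log N ^ (C + 1) ≤ N / Real.log N ^ C := by
      rw [← add_div, div_le_div_iff₀ (by positivity) (by positivity), pow_succ]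
      have : (0 : ℝ) ≤ N * Real.log N ^ C := by positivity
      nlinarith
    linarith
  · rw [mem_union, not_or] at hnB
    exact ⟨a3 n hn hnB.1, b3 n hn hnB.2⟩

/-- weaken an `almost all` statement -/
lemma alm_mono (P R : ℕ → Prop) (K : ℕ) (hPR : ∀ n, K ≤ n → P n → R n)
    (h1 : ∀ C : ℕ, ∃ N₀ : ℕ, ∀ N : ℕ, N₀ ≤ N → ∃ Bad : Finset ℕ, Bad ⊆ Ioc N (2 * N) ∧
      (Bad.card : ℝ) ≤ N / Real.log N ^ C ∧ ∀ n ∈ Ioc N (2 * N), n ∉ Bad → P n) :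
    ∀ C : ℕ, ∃ N₀ : ℕ, ∀ N : ℕ, N₀ ≤ N → ∃ Bad : Finset ℕ, Bad ⊆ Ioc N (2 * N) ∧
      (Bad.card : ℝ) ≤ N / Real.log N ^ C ∧ ∀ n ∈ Ioc N (2 * N), n ∉ Bad → R n := by
  intro C
  obtain ⟨N1, a⟩ := h1 C
  refine ⟨max N1 K, fun N hN => ?_⟩
  obtain ⟨Bad1, a1, a2, a3⟩ := a N (le_trans (le_max_left _ _) hN)
  refine ⟨Bad1, a1, a2, fun n hn hnB => hPR n ?_ (a3 n hn hnB)⟩
  have h2 := (mem_Ioc.1 hn).1
  have h3 := le_trans (le_max_right _ _) hN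
  omega

/-- `κ n / log n` is large -/
lemma ev_big (κ c : ℝ) (hκ : 0 < κ) : ∃ n₀ : ℕ, ∀ n : ℕ, n₀ ≤ n → c ≤ κ * n / Real.log n := by
  obtain ⟨n1, h1⟩ := ev_log' 1 (|c| / κ)
  obtain ⟨n2, h2⟩ := ev_L' 1
  refine ⟨max n1 n2, fun n hn => ?_⟩
  have a1 := h1 n (le_trans (le_max_left _ _) hn)
  have a2 := h2 n (le_trans (le_max_right _ _) hn)
  rw [pow_one] at a1
  have h0 : 0 < Real.log n := by linarith
  have h3 : √(n : ℝ) ≤ n := by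
    have h4 : (1 : ℝ) ≤ n := by
      have : 1 ≤ n := by
        rcases Nat.eq_zero_or_pos n with h | h
        · rw [h] at a2; norm_num at a2
        · exact h
      exact_mod_cast this
    rw [Real.sqrt_le_left (by linarith)]
    nlinarith
  rw [le_div_iff₀ h0]
  have h5 : |c| / κ * Real.log n ≤ n := a1.trans h3
  calc c * Real.log n ≤ |c| * Real.log n := by
        gcongr
        exact le_abs_self c
    _ = κ * (|c| / κ * Real.log n) := by field_simp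
    _ ≤ κ * n := by gcongr

end Pool.Agent.Run7.h591.EG
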