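import Mathlib
import Pool.Agent.Run7.h591.EG.Fin2

/-!
# Project ERG (helper591), part 14: shift of the index
-/

set_option autoImplicit false
set_option maxHeartbeats 4000000

namespace Pool.Agent.Run7.h591.EG

open Finset Filter Topology
open Pool.Agent.H373R2.T7 (ev_L' ev_log')

lemma alm_shift (P : ℕ → Prop)
    (h1 : ∀ C : ℕ, ∃ N₀ : ℕ, ∀ N : ℕ, N₀ ≤ N → ∃ Bad : Finset ℕ, Bad ⊆ Ioc N (2 * N) ∧
      (Bad.card : ℝ) ≤ N / Real.log N ^ C ∧ ∀ n ∈ Ioc N (2 * N), n ∉ Bad → P n) :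
    ∀ C : ℕ, ∃ N₀ : ℕ, ∀ N : ℕ, N₀ ≤ N → ∃ Bad : Finset ℕ, Bad ⊆ Ioc N (2 * N) ∧
      (Bad.card : ℝ) ≤ N / Real.log N ^ C ∧ ∀ n ∈ Ioc N (2 * N), n ∉ Bad → P (n + 1) := by
  intro C
  obtain ⟨N₀, hN₀⟩ := h1 (C + 1)
  obtain ⟨N₁, hN₁⟩ := ev_L' 2
  obtain ⟨N₂, hN₂⟩ := ev_log' C 2
  refine ⟨max (max N₀ N₁) (max N₂ 4), fun N hN => ?_⟩
  have hLN := hN₁ N (le_trans (le_trans (le_max_right _ _) (le_max_left _ _)) hN)
  have hlg := hN₂ N (le_trans (le_trans (le_max_left _ _) (le_max_right _ _)) hN)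
  have hN4 : 4 ≤ N := le_trans (le_trans (le_max_right _ _) (le_max_right _ _)) hN
  obtain ⟨Bad, b1, b2, b3⟩ := hN₀ N (le_trans (le_trans (le_max_left _ _) (le_max_left _ _)) hN)
  have hNR : (4 : ℝ) ≤ N := by exact_mod_cast hN4
  have hsq : √(N : ℝ) ≤ N := by
    rw [Real.sqrt_le_left (by linarith)]
    nlinarith
  have hL0 : 0 < Real.log N := by linarith
  refine ⟨(Ioc N (2 * N)).filter (fun q => q + 1 ∈ Bad ∨ q = 2 * N), filter_subset _ _, ?_, ?_⟩
  · have h4 : ((Ioc N (2 * N)).filter (fun q => q + 1 ∈ Bad ∨ q = 2 * N)).card ≤ Bad.card + 1 := by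
      have h5 : (Ioc N (2 * N)).filter (fun q => q + 1 ∈ Bad ∨ q = 2 * N) ⊆ Bad.image (fun n => n - 1) ∪ {2 * N} := by
        intro q hq
        rw [mem_filter] at hq
        rw [mem_union, mem_image, mem_singleton]
        rcases hq.2 with h | h
        · left; exact ⟨q + 1, h, by omega⟩
        · right; exact h
      refine (card_le_card h5).trans ((card_union_le _ _).trans ?_)
      have := card_image_le (s := Bad) (f := fun n => n - 1)
      rw [card_singleton]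
      omega
    have h5 : (((Ioc N (2 * N)).filter (fun q => q + 1 ∈ Bad ∨ q = 2 * N)).card : ℝ) ≤ Bad.card + 1 := by
      exact_mod_cast h4
    refine h5.trans ?_
    have h6 : (N : ℝ) / Real.log N ^ (C + 1) ≤ N / Real.log N ^ C / 2 := by
      rw [div_div, div_le_div_iff₀ (by positivity) (by positivity), pow_succ]
      have : (0 : ℝ) ≤ N * Real.log N ^ C := by positivity
      nlinarith
    have h7 : (1 : ℝ) ≤ N / Real.log N ^ C / 2 := by
      rw [div_div, le_div_iff₀ (by positivity)]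
      linarith
    linarith
  · intro q hq hqB
    rw [mem_filter, not_and, not_or] at hqB
    obtain ⟨h1, h2⟩ := hqB hq
    have := mem_Ioc.1 hq
    exact b3 (q + 1) (mem_Ioc.2 ⟨by omega, by omega⟩) h1

end Pool.Agent.Run7.h591.EG
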