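import Mathlib
import Pool.Agent.Run7.h591.EG.Fin3

/-!
# Project ERG (helper591), part 15: gaps; product systems
-/

set_option autoImplicit false
set_option maxHeartbeats 4000000

universe u

namespace Pool.Agent.Run7.h591.EG

open Finset Filter Topology
open MeasureTheory
open Pool.Agent.Run7.h794.MK (W MS S_ALL)
open Pool.Agent.H373R2.T7 (ev_L' ev_log')

lemma ex_of_count (κ : ℝ) (hκ : 0 < κ) (R : ℕ → Prop) [DecidablePred R]
    (h : AW (fun _ n a b => κ * ((b : ℝ) - a) ≤ Real.log n * (((pr a b).filter R).card : ℝ))) :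
    AW (fun _ _ a b => ∃ p, a < p ∧ p ≤ b ∧ p.Prime ∧ R p) := by
  refine AW_mono (AW_and h (AW_win 0)) 0 ?_
  rintro N n a b - - - hab ⟨e1, _, _, _, _, _, hD⟩
  have h1 : 0 < Real.log n * (((pr a b).filter R).card : ℝ) := lt_of_lt_of_le (by positivity) e1
  have h2 : 0 < ((pr a b).filter R).card := by
    rcases Nat.eq_zero_or_pos ((pr a b).filter R).card with h | h
    · rw [h] at h1; simp at h1
    · exact h
  obtain ⟨p, hp⟩ := card_pos.1 h2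
  rw [mem_filter, pr, mem_filter, mem_Ioc] at hp
  exact ⟨p, hp.1.1.1, hp.1.1.2, hp.1.2, hp.2⟩

lemma ex_of_few (hALL : S_ALL) (R : ℕ → Prop) [DecidablePred R]
    (h : AW (fun _ n a b => Real.log n * (((pr a b).filter (fun p => ¬ R p)).card : ℝ) ≤ 1 / 8 * ((b : ℝ) - a))) :
    AW (fun _ _ a b => ∃ p, a < p ∧ p ≤ b ∧ p.Prime ∧ R p) := by
  have h2 := count_pr hALL (1 / 2) (by norm_num)
  refine AW_mono (AW_and (AW_and h h2) (AW_win 2)) 0 ?_
  rintro N n a b - - - hab ⟨⟨e1, e2⟩, hN2, hNn, _, _, _, hD⟩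
  have h3 := (abs_le.1 e2).1
  have hL : 0 < Real.log n := Real.log_pos (by exact_mod_cast (by omega : 1 < n))
  have h4 : Real.log n * (((pr a b).filter (fun p => ¬ R p)).card : ℝ) < Real.log n * ((pr a b).card : ℝ) := by
    linarith
  have h5 : (((pr a b).filter (fun p => ¬ R p)).card : ℝ) < ((pr a b).card : ℝ) := lt_of_mul_lt_mul_left h4 hL.le
  have h6 : ((pr a b).filter (fun p => ¬ R p)).card < (pr a b).card := by exact_mod_cast h5
  obtain ⟨p, hp, hpn⟩ := exists_mem_notMem_of_card_lt_card h6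
  rw [mem_filter, not_and, not_not] at hpn
  have h7 := hpn hp
  rw [pr, mem_filter, mem_Ioc] at hp
  exact ⟨p, hp.1.1, hp.1.2, hp.2, h7⟩

/-- gaps in the sense of Andrica's conjecture -/
lemma gap (R : ℕ → Prop) (hR : AW (fun _ _ a b => ∃ p, a < p ∧ p ≤ b ∧ p.Prime ∧ R p)) :
    ∀ C : ℕ, ∃ Y₀ : ℕ, ∀ Y : ℕ, Y₀ ≤ Y → ∃ Bad : Finset ℕ, Bad ⊆ Ioc Y (2 * Y) ∧
      (Bad.card : ℝ) ≤ Y / Real.log Y ^ C ∧ ∀ m ∈ Ioc Y (2 * Y), m ∉ Bad →
        ∃ p : ℕ, p.Prime ∧ m < p ∧ √(p : ℝ) - √(m : ℝ) < 1 / Real.log Y ^ C ∧ R p := by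
  intro C
  obtain ⟨X₀, h1⟩ := AW_int hR C (C + 1)
  obtain ⟨n1, h2⟩ := ev_L' 2
  obtain ⟨n2, h3⟩ := ev_log' (C + 1) 1
  refine ⟨max (max X₀ n1) (max n2 64), fun Y hY => ?_⟩
  obtain ⟨Bad, b1, b2, b3⟩ := h1 Y (le_trans (le_trans (le_max_left _ _) (le_max_left _ _)) hY)
  have hL := h2 Y (le_trans (le_trans (le_max_right _ _) (le_max_left _ _)) hY)
  have hlg := h3 Y (le_trans (le_trans (le_max_left _ _) (le_max_right _ _)) hY)
  have hY64 : 64 ≤ Y := le_trans (le_trans (le_max_right _ _) (le_max_right _ _)) hY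
  rw [one_mul] at hlg
  have hL0 : 0 < Real.log Y := by linarith
  have hYR : (64 : ℝ) ≤ Y := by exact_mod_cast hY64
  have hs8 : 8 ≤ √(Y : ℝ) := Real.le_sqrt_of_sq_le (by nlinarith)
  have hP2 : (2 : ℝ) ≤ Real.log Y ^ (C + 1) := by
    rw [pow_succ]
    have : (1 : ℝ) ≤ Real.log Y ^ C := one_le_pow₀ (by linarith)
    nlinarith
  refine ⟨Bad, b1, b2, fun m hm hmB => ?_⟩
  set h : ℕ := ⌈√(Y : ℝ) / Real.log Y ^ (C + 1)⌉₊ with hh
  have hh1 : √(Y : ℝ) / Real.log Y ^ (C + 1) ≤ h := Nat.le_ceil _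
  have hh2 : (h : ℝ) < √(Y : ℝ) / Real.log Y ^ (C + 1) + 1 := Nat.ceil_lt_add_one (by positivity)
  have hsY : √(Y : ℝ) < Nat.sqrt Y + 1 := by
    rw [Real.sqrt_lt' (by positivity)]
    exact_mod_cast Nat.lt_succ_sqrt' Y
  have hhY : h ≤ Nat.sqrt Y := by
    have e1 : √(Y : ℝ) / Real.log Y ^ (C + 1) ≤ √(Y : ℝ) / 2 := by gcongr
    have e2 : (h : ℝ) < Nat.sqrt Y := by linarith
    exact_mod_cast e2.le
  obtain ⟨N, n, _, _, _, _, _, p, hp1, hp2, hp3, hp4⟩ := b3 m hm hmB h hh1 hhY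
  refine ⟨p, hp3, hp1, ?_, hp4⟩
  have hmY : (Y : ℝ) ≤ m := by exact_mod_cast (mem_Ioc.1 hm).1.le
  have hpm : (p : ℝ) ≤ m + h := by exact_mod_cast hp2
  have hmp : (m : ℝ) ≤ p := by exact_mod_cast hp1.le
  have hsm : √(Y : ℝ) ≤ √(m : ℝ) := Real.sqrt_le_sqrt hmY
  have hsp : √(m : ℝ) ≤ √(p : ℝ) := Real.sqrt_le_sqrt hmp
  have e1 : (√(p : ℝ) - √(m : ℝ)) * (√(p : ℝ) + √(m : ℝ)) = p - m := by
    have a1 : √(p : ℝ) * √(p : ℝ) = p := Real.mul_self_sqrt (by positivity)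
    have a2 : √(m : ℝ) * √(m : ℝ) = m := Real.mul_self_sqrt (by positivity)
    nlinarith
  have e2 : (√(p : ℝ) - √(m : ℝ)) * (2 * √(Y : ℝ)) ≤ h := by
    have : (√(p : ℝ) - √(m : ℝ)) * (2 * √(Y : ℝ)) ≤ (√(p : ℝ) - √(m : ℝ)) * (√(p : ℝ) + √(m : ℝ)) := by
      apply mul_le_mul_of_nonneg_left _ (by linarith)
      linarith
    linarith
  have e3 : (1 : ℝ) ≤ √(Y : ℝ) / Real.log Y ^ (C + 1) := by
    rw [le_div_iff₀ (by positivity), one_mul]
    exact hlg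
  have e4 : (√(p : ℝ) - √(m : ℝ)) * (2 * √(Y : ℝ)) < 1 / Real.log Y ^ (C + 1) * (2 * √(Y : ℝ)) := by
    have : 1 / Real.log Y ^ (C + 1) * (2 * √(Y : ℝ)) = √(Y : ℝ) / Real.log Y ^ (C + 1) + √(Y : ℝ) / Real.log Y ^ (C + 1) := by
      ring
    linarith
  have e5 : √(p : ℝ) - √(m : ℝ) < 1 / Real.log Y ^ (C + 1) := lt_of_mul_lt_mul_right e4 (by positivity)
  refine e5.trans_le ?_
  rw [div_le_div_iff₀ (by positivity) (by positivity), one_mul, one_mul, pow_succ]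
  have : (0 : ℝ) ≤ Real.log Y ^ C := by positivity
  nlinarith

section prod

variable {k : ℕ} {X : Fin k → Type u} [∀ i, MeasurableSpace (X i)]

lemma it_pi (T : ∀ i, X i → X i) (m : ℕ) (x : ∀ i, X i) :
    (fun (a : ∀ i, X i) i => T i (a i))^[m] x = fun i => (T i)^[m] (x i) := by
  induction m with
  | zero => rfl
  | succ m ih =>
    rw [Function.iterate_succ_apply', ih]
    funext i
    rw [Function.iterate_succ_apply']

lemma real_pi (μ : ∀ i, Measure (X i)) [∀ i, IsProbabilityMeasure (μ i)] (s : ∀ i, Set (X i)) :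
    (Measure.pi μ).real (Set.univ.pi s) = ∏ i, (μ i).real (s i) := by
  rw [measureReal_def, Measure.pi_pi, ENNReal.toReal_prod]
  rfl

lemma pi_inter (T : ∀ i, X i → X i) (A : ∀ i, Set (X i)) (m : ℕ) :
    (Set.univ.pi A) ∩ (fun (a : ∀ i, X i) i => T i (a i))^[m] ⁻¹' (Set.univ.pi A) =
      Set.univ.pi (fun i => A i ∩ (T i)^[m] ⁻¹' (A i)) := by
  ext x
  simp only [Set.mem_inter_iff, Set.mem_pi, Set.mem_univ, forall_true_left, Set.mem_preimage, it_pi]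
  constructor
  · rintro ⟨h1, h2⟩ i
    exact ⟨h1 i, h2 i⟩
  · intro h
    exact ⟨fun i => (h i).1, fun i => (h i).2⟩

/-- simultaneous returns -/
theorem khin_pi (hALL : S_ALL) (μ : ∀ i, Measure (X i)) [∀ i, IsProbabilityMeasure (μ i)] (T : ∀ i, X i → X i)
    (hT : ∀ i, MeasurePreserving (T i) (μ i) (μ i)) (A : ∀ i, Set (X i)) (hA : ∀ i, MeasurableSet (A i))
    (ε : ℝ) (hε : 0 < ε) : ∃ κ : ℝ, 0 < κ ∧
    AW (fun _ n a b => κ * ((b : ℝ) - a) ≤ Real.log n * (((pr a b).filter (fun p =>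
      (∏ i, (μ i).real (A i)) ^ 2 - ε < ∏ i, (μ i).real (A i ∩ (T i)^[p - 1] ⁻¹' (A i)))).card : ℝ)) := by
  have hP : MeasurePreserving (fun (a : ∀ i, X i) i => T i (a i)) (Measure.pi μ) (Measure.pi μ) :=
    measurePreserving_pi μ μ hT
  have hm : MeasurableSet (Set.univ.pi A) := MeasurableSet.univ_pi hA
  obtain ⟨κ, hκ, h1, _⟩ := khin hALL hP hm ε hε
  refine ⟨κ, hκ, ?_⟩
  simp only [pi_inter, real_pi] at h1
  exact h1

end prod

end Pool.Agent.Run7.h591.EG
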