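import Mathlib
import Pool.Agent.Run7.h591.EG.Fin4

/-!
# Project ERG (helper591), part 16: Furstenberg's correspondence in a Hilbert space; differences of sets of
positive upper Banach density
-/

set_option autoImplicit false
set_option maxHeartbeats 4000000

universe u

namespace Pool.Agent.Run7.h591.EG

open Finset Filter Topology
open UniformSpace
open Pool.Agent.Run7.h794.MK (W MS S_ALL)
open Pool.Agent.H373R2.T7 (ev_L' ev_log')

section completion

variable {V : Type u} [SeminormedAddCommGroup V] [InnerProductSpace ℂ V]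

/-- extension of an isometry to the completion -/
noncomputable def cmp (U : V →ₗᵢ[ℂ] V) : Completion V →ₗᵢ[ℂ] Completion V where
  toFun := Completion.map U
  map_add' x y := by
    refine Completion.induction_on₂ x y (isClosed_eq ?_ ?_) fun a b => ?_
    · exact (Completion.continuous_map (f := (U : V → V))).comp continuous_add
    · exact ((Completion.continuous_map (f := (U : V → V))).comp continuous_fst).add
        ((Completion.continuous_map (f := (U : V → V))).comp continuous_snd)
    · rw [← Completion.coe_add, Completion.map_coe U.isometry.uniformContinuous,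
        Completion.map_coe U.isometry.uniformContinuous, Completion.map_coe U.isometry.uniformContinuous,
        map_add, Completion.coe_add]
  map_smul' c x := by
    refine Completion.induction_on x (isClosed_eq ?_ ?_) fun a => ?_
    · exact (Completion.continuous_map (f := (U : V → V))).comp (continuous_const_smul c)
    · exact (continuous_const_smul c).comp (Completion.continuous_map (f := (U : V → V)))
    · rw [← Completion.coe_smul, Completion.map_coe U.isometry.uniformContinuous,
        Completion.map_coe U.isometry.uniformContinuous, map_smul, Completion.coe_smul]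
      rfl
  norm_map' x := by
    refine Completion.induction_on x (isClosed_eq ?_ ?_) fun a => ?_
    · exact continuous_norm.comp (Completion.continuous_map (f := (U : V → V)))
    · exact continuous_norm
    · change ‖Completion.map U (a : Completion V)‖ = ‖(a : Completion V)‖
      rw [Completion.map_coe U.isometry.uniformContinuous, Completion.norm_coe, Completion.norm_coe, U.norm_map]

lemma cmp_coe (U : V →ₗᵢ[ℂ] V) (x : V) : cmp U (x : Completion V) = ((U x : V) : Completion V) :=
  Completion.map_coe U.isometry.uniformContinuous x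

lemma cmp_it (U : V →ₗᵢ[ℂ] V) (k : ℕ) (x : V) : (cmp U)^[k] (x : Completion V) = ((U^[k] x : V) : Completion V) := by
  induction k with
  | zero => rfl
  | succ k ih => rw [it_succ, ih, cmp_coe, Function.iterate_succ_apply']

end completion

section fur

/-- bounded sequences -/
def Bd : Submodule ℂ (ℕ → ℂ) where
  carrier := {f | ∃ M : ℝ, ∀ n, ‖f n‖ ≤ M}
  zero_mem' := ⟨0, fun n => by simp⟩
  add_mem' := by
    rintro f g ⟨M, hM⟩ ⟨M', hM'⟩
    exact ⟨M + M', fun n => (norm_add_le _ _).trans (add_le_add (hM n) (hM' n))⟩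
  smul_mem' := by
    rintro c f ⟨M, hM⟩
    refine ⟨‖c‖ * M, fun n => ?_⟩
    rw [Pi.smul_apply, norm_smul]
    exact mul_le_mul_of_nonneg_left (hM n) (norm_nonneg _)

/-- the means over the intervals `[a j, a j + L j)` -/
noncomputable def mn (a L : ℕ → ℕ) (F : ℕ → ℂ) (j : ℕ) : ℂ := (1 / (L j : ℂ)) * ∑ x ∈ range (L j), F (a j + x)

lemma mn_bd (a L : ℕ → ℕ) (F : ℕ → ℂ) (M : ℝ) (hM : 0 ≤ M) (hF : ∀ n, ‖F n‖ ≤ M) (j : ℕ) : ‖mn a L F j‖ ≤ M := by
  unfold mn
  rw [norm_mul, norm_div, norm_one, Complex.norm_natCast]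
  rcases Nat.eq_zero_or_pos (L j) with h | h
  · rw [h]; simp [hM]
  · have h0 : (0 : ℝ) < L j := by exact_mod_cast h
    rw [one_div, inv_mul_le_iff₀ h0]
    refine (norm_sum_le _ _).trans ((sum_le_sum fun x _ => hF (a j + x)).trans ?_)
    rw [sum_const, card_range, nsmul_eq_mul]

lemma mn_add (a L : ℕ → ℕ) (F G : ℕ → ℂ) (j : ℕ) : mn a L (fun n => F n + G n) j = mn a L F j + mn a L G j := by
  unfold mn
  rw [sum_add_distrib, mul_add]

lemma mn_smul (a L : ℕ → ℕ) (c : ℂ) (F : ℕ → ℂ) (j : ℕ) : mn a L (fun n => c * F n) j = c * mn a L F j := by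
  unfold mn
  rw [← mul_sum]
  ring

lemma mn_conj (a L : ℕ → ℕ) (F : ℕ → ℂ) (j : ℕ) :
    mn a L (fun n => (starRingEnd ℂ) (F n)) j = (starRingEnd ℂ) (mn a L F j) := by
  unfold mn
  rw [map_mul, map_sum, map_div₀, map_one, Complex.conj_natCast]

/-- limits along an ultrafilter -/
noncomputable def ul (s : ℕ → ℂ) : ℂ := limUnder ((hyperfilter ℕ : Ultrafilter ℕ) : Filter ℕ) s

lemma ul_tendsto (s : ℕ → ℂ) (M : ℝ) (h : ∀ j, ‖s j‖ ≤ M) :
    Tendsto s ((hyperfilter ℕ : Ultrafilter ℕ) : Filter ℕ) (𝓝 (ul s)) := by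
  apply tendsto_nhds_limUnder
  obtain ⟨x, _, hx⟩ := (isCompact_closedBall (0 : ℂ) M).ultrafilter_le_nhds (Ultrafilter.map s (hyperfilter ℕ)) (by
    rw [le_principal_iff]
    refine Filter.mem_map.2 (Filter.univ_mem' fun j => ?_)
    simpa using h j)
  exact ⟨x, hx⟩

lemma ul_eq {s : ℕ → ℂ} {c : ℂ} (h : Tendsto s ((hyperfilter ℕ : Ultrafilter ℕ) : Filter ℕ) (𝓝 c)) : ul s = c :=
  h.limUnder_eq

/-- bounded sequences, with the semi inner product given by the means -/
def VB (_ _ : ℕ → ℕ) : Type := Bd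

variable {a L : ℕ → ℕ}

noncomputable instance : AddCommGroup (VB a L) := inferInstanceAs (AddCommGroup Bd)
noncomputable instance : Module ℂ (VB a L) := inferInstanceAs (Module ℂ Bd)

/-- the underlying sequence -/
def fn (f : VB a L) : ℕ → ℂ := (show Bd from f).1

/-- the element given by a bounded sequence -/
def mk (f : ℕ → ℂ) (h : ∃ M : ℝ, ∀ n, ‖f n‖ ≤ M) : VB a L := (⟨f, h⟩ : Bd)

lemma fn_mk (f : ℕ → ℂ) (h : ∃ M : ℝ, ∀ n, ‖f n‖ ≤ M) : fn (mk f h : VB a L) = f := rfl
lemma fn_add (f g : VB a L) (n : ℕ) : fn (f + g) n = fn f n + fn g n := rfl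
lemma fn_smul (c : ℂ) (f : VB a L) (n : ℕ) : fn (c • f) n = c * fn f n := rfl
lemma fn_ext {f g : VB a L} (h : ∀ n, fn f n = fn g n) : f = g := Subtype.ext (funext h)

lemma fn_bd (f : VB a L) : ∃ M : ℝ, 0 ≤ M ∧ ∀ n, ‖fn f n‖ ≤ M := by
  obtain ⟨M, hM⟩ := (show Bd from f).2
  exact ⟨M, (norm_nonneg _).trans (hM 0), hM⟩

/-- the product of two sequences in the inner product -/
noncomputable def pp (f g : VB a L) : ℕ → ℂ := fun n => (starRingEnd ℂ) (fn f n) * fn g n

lemma pp_bd (f g : VB a L) : ∃ M : ℝ, 0 ≤ M ∧ ∀ n, ‖pp f g n‖ ≤ M := by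
  obtain ⟨M, hM0, hM⟩ := fn_bd f
  obtain ⟨M', hM0', hM'⟩ := fn_bd g
  refine ⟨M * M', by positivity, fun n => ?_⟩
  unfold pp
  rw [norm_mul, RCLike.norm_conj]
  exact mul_le_mul (hM n) (hM' n) (norm_nonneg _) hM0

lemma pp_tendsto (f g : VB a L) :
    Tendsto (mn a L (pp f g)) ((hyperfilter ℕ : Ultrafilter ℕ) : Filter ℕ) (𝓝 (ul (mn a L (pp f g)))) := by
  obtain ⟨M, hM0, hM⟩ := pp_bd f g
  exact ul_tendsto _ M (mn_bd a L _ M hM0 hM)

noncomputable instance vcore : PreInnerProductSpace.Core ℂ (VB a L) where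
  inner f g := ul (mn a L (pp f g))
  conj_inner_symm f g := by
    symm
    apply ul_eq
    have h1 := (Complex.continuous_conj.tendsto _).comp (pp_tendsto g f)
    refine h1.congr fun j => ?_
    rw [Function.comp_apply, ← mn_conj]
    congr 1
    funext n
    unfold pp
    rw [map_mul, Complex.conj_conj, mul_comm]
  re_inner_nonneg f := by
    have h1 := (Complex.continuous_re.tendsto _).comp (pp_tendsto f f)
    refine ge_of_tendsto' h1 fun j => ?_
    rw [Function.comp_apply]
    unfold mn pp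
    have h2 : ∀ x, (starRingEnd ℂ) (fn f x) * fn f x = ((‖fn f x‖ ^ 2 : ℝ) : ℂ) := by
      intro x
      rw [Complex.conj_mul']
      push_cast
      rfl
    simp only [h2]
    rw [← Complex.ofReal_sum, ← Complex.ofReal_natCast, ← Complex.ofReal_one, ← Complex.ofReal_div,
      ← Complex.ofReal_mul, Complex.ofReal_re]
    positivity
  add_left f g h := by
    apply ul_eq
    refine ((pp_tendsto f h).add (pp_tendsto g h)).congr fun j => ?_
    rw [← mn_add]
    congr 1
    funext n
    unfold pp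
    rw [fn_add, map_add, add_mul]
  smul_left f g c := by
    apply ul_eq
    refine ((pp_tendsto f g).const_mul ((starRingEnd ℂ) c)).congr fun j => ?_
    rw [← mn_smul]
    congr 1
    funext n
    unfold pp
    rw [fn_smul, map_mul, mul_assoc]

noncomputable instance vsn : SeminormedAddCommGroup (VB a L) :=
  @InnerProductSpace.Core.toSeminormedAddCommGroup ℂ (VB a L) _ _ _ vcore

noncomputable instance vip : InnerProductSpace ℂ (VB a L) := InnerProductSpace.ofCore vcore

lemma inner_VB (f g : VB a L) : inner ℂ f g = ul (mn a L (pp f g)) := rfl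

/-- the shift -/
noncomputable def shl : VB a L →ₗ[ℂ] VB a L where
  toFun f := mk (fun n => fn f (n + 1)) (by
    obtain ⟨M, _, hM⟩ := fn_bd f
    exact ⟨M, fun n => hM (n + 1)⟩)
  map_add' _ _ := rfl
  map_smul' _ _ := rfl

lemma fn_shl (f : VB a L) (n : ℕ) : fn (shl f) n = fn f (n + 1) := rfl

lemma mn_shift (F : ℕ → ℂ) (j : ℕ) (hj : 1 ≤ L j) :
    mn a L (fun n => F (n + 1)) j = mn a L F j + (1 / (L j : ℂ)) * (F (a j + L j) - F (a j)) := by
  unfold mn
  have h1 := sum_range_succ (fun x => F (a j + x)) (L j)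
  have h2 := sum_range_succ' (fun x => F (a j + x)) (L j)
  simp only [add_zero] at h2
  have h3 : ∑ x ∈ range (L j), F (a j + x + 1) = ∑ x ∈ range (L j), F (a j + (x + 1)) := rfl
  rw [h3, ← mul_add]
  congr 1
  rw [h1] at h2
  linear_combination -h2

lemma inner_shl (hL : Tendsto L atTop atTop) (f g : VB a L) : inner ℂ (shl f) (shl g) = inner ℂ f g := by
  rw [inner_VB, inner_VB]
  apply ul_eq
  obtain ⟨M, hM0, hM⟩ := pp_bd f g
  have h1 : Tendsto (fun j => (1 / (L j : ℂ)) * (pp f g (a j + L j) - pp f g (a j)))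
      ((hyperfilter ℕ : Ultrafilter ℕ) : Filter ℕ) (𝓝 0) := by
    refine Tendsto.mono_left ?_ Nat.hyperfilter_le_atTop
    rw [tendsto_zero_iff_norm_tendsto_zero]
    have h2 : Tendsto (fun j => 2 * M * (1 / (L j : ℝ))) atTop (𝓝 0) := by
      have h3 : Tendsto (fun j => 1 / (L j : ℝ)) atTop (𝓝 0) :=
        tendsto_one_div_atTop_nhds_zero_nat.comp hL
      have := h3.const_mul (2 * M)
      rwa [mul_zero] at this
    refine squeeze_zero (fun j => norm_nonneg _) (fun j => ?_) h2
    rw [norm_mul, norm_div, norm_one, Complex.norm_natCast, mul_comm]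
    apply mul_le_mul_of_nonneg_right _ (by positivity)
    refine (norm_sub_le _ _).trans ?_
    have := hM (a j + L j)
    have := hM (a j)
    linarith
  have h4 := (pp_tendsto f g).add h1
  rw [add_zero] at h4
  refine h4.congr' ?_
  have h5 : ∀ᶠ j in ((hyperfilter ℕ : Ultrafilter ℕ) : Filter ℕ), 1 ≤ L j :=
    (hL.eventually_ge_atTop 1).filter_mono Nat.hyperfilter_le_atTop
  filter_upwards [h5] with j hj
  rw [← mn_shift (pp f g) j hj]
  rfl

/-- the shift as an isometry -/
noncomputable def shi (hL : Tendsto L atTop atTop) : VB a L →ₗᵢ[ℂ] VB a L where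
  toLinearMap := shl
  norm_map' f := by
    rw [norm_eq_sqrt_re_inner (𝕜 := ℂ), norm_eq_sqrt_re_inner (𝕜 := ℂ), inner_shl hL]

lemma fn_shi (hL : Tendsto L atTop atTop) (k : ℕ) (f : VB a L) (n : ℕ) : fn ((shi hL)^[k] f) n = fn f (n + k) := by
  induction k generalizing n with
  | zero => rfl
  | succ k ih =>
    rw [Function.iterate_succ_apply']
    change fn ((shi hL)^[k] f) (n + 1) = _
    rw [ih]
    congr 1
    ring

open Classical in
/-- the indicator sequence of a set -/
noncomputable def is (S : Set ℕ) : VB a L := mk (fun n => if n ∈ S then 1 else 0) ⟨1, fun n => by split_ifs <;> simp⟩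

open Classical in
lemma mn_is (S : Set ℕ) (k j : ℕ) : mn a L (pp (is S : VB a L) (mk (fun n => fn (is S : VB a L) (n + k)) (by
    obtain ⟨M, _, hM⟩ := fn_bd (is S : VB a L)
    exact ⟨M, fun n => hM (n + k)⟩))) j =
    (((((Ico (a j) (a j + L j)).filter (fun x => x ∈ S ∧ x + k ∈ S)).card : ℝ) / L j : ℝ) : ℂ) := by
  unfold mn
  have h1 : ∀ n, pp (is S : VB a L) (mk (fun n => fn (is S : VB a L) (n + k)) (by
    obtain ⟨M, _, hM⟩ := fn_bd (is S : VB a L)
    exact ⟨M, fun n => hM (n + k)⟩)) n = if n ∈ S ∧ n + k ∈ S then 1 else 0 := by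
    intro n
    unfold pp is
    simp only [fn_mk]
    by_cases h1 : n ∈ S
    · by_cases h2 : n + k ∈ S
      · simp [h1, h2]
      · simp [h1, h2]
    · simp [h1]
  simp only [h1]
  have h2 : ∑ x ∈ range (L j), (if a j + x ∈ S ∧ a j + x + k ∈ S then (1 : ℂ) else 0) =
      (((Ico (a j) (a j + L j)).filter (fun x => x ∈ S ∧ x + k ∈ S)).card : ℂ) := by
    have h3 := sum_Ico_eq_sum_range (fun x => if x ∈ S ∧ x + k ∈ S then (1 : ℂ) else 0) (a j) (a j + L j)
    rw [Nat.add_sub_cancel_left] at h3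
    rw [← h3, ← sum_filter, sum_const, nsmul_eq_mul, mul_one]
  rw [h2]
  push_cast
  ring

open Classical in
/-- **differences of sets of positive density**: along intervals `[a j, a j + L j)` of lengths tending to infinity -/
theorem fur (hALL : S_ALL) (S : Set ℕ) (d : ℝ) (hd : 0 ≤ d) (a L : ℕ → ℕ) (hL : Tendsto L atTop atTop)
    (hS : ∀ j, d * L j ≤ (((Ico (a j) (a j + L j)).filter (fun x => x ∈ S)).card : ℝ)) (ε : ℝ) (hε : 0 < ε) :
    ∃ κ : ℝ, 0 < κ ∧
    AW (fun _ n x y => κ * ((y : ℝ) - x) ≤ Real.log n * (((pr x y).filter (fun p =>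
      ∃ᶠ j in atTop, (d ^ 2 - ε) * L j <
        (((Ico (a j) (a j + L j)).filter (fun s => s ∈ S ∧ s + (p - 1) ∈ S)).card : ℝ))).card : ℝ)) ∧
    AW (fun _ n x y => κ * ((y : ℝ) - x) ≤ Real.log n * (((pr x y).filter (fun p =>
      ∃ᶠ j in atTop, (d ^ 2 - ε) * L j <
        (((Ico (a j) (a j + L j)).filter (fun s => s ∈ S ∧ s + (p + 1) ∈ S)).card : ℝ))).card : ℝ)) := by
  set f : VB a L := is S with hf
  set o : VB a L := mk (fun _ => 1) ⟨1, fun n => by simp⟩ with ho
  set U := cmp (shi (a := a) hL) with hU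
  have hL1 : ∀ᶠ j in ((hyperfilter ℕ : Ultrafilter ℕ) : Filter ℕ), 1 ≤ L j :=
    (hL.eventually_ge_atTop 1).filter_mono Nat.hyperfilter_le_atTop
  have hUo : U (o : Completion (VB a L)) = (o : Completion (VB a L)) := by
    rw [hU, cmp_coe]
    rfl
  have hoo : inner ℂ o o = 1 := by
    rw [inner_VB]
    apply ul_eq
    refine tendsto_const_nhds.congr' ?_
    filter_upwards [hL1] with j hj
    unfold mn pp
    rw [ho]
    simp only [fn_mk, map_one, mul_one, sum_const, card_range, nsmul_eq_mul]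
    have : (L j : ℂ) ≠ 0 := by exact_mod_cast (by omega : L j ≠ 0)
    field_simp
  have hon : ‖(o : Completion (VB a L))‖ = 1 := by
    rw [Completion.norm_coe, norm_eq_sqrt_re_inner (𝕜 := ℂ), hoo]
    simp
  -- the correlations of `f`
  have hcor : ∀ k : ℕ, inner ℂ (f : Completion (VB a L)) (U^[k] (f : Completion (VB a L))) =
      ul (fun j => (((((Ico (a j) (a j + L j)).filter (fun x => x ∈ S ∧ x + k ∈ S)).card : ℝ) / L j : ℝ) : ℂ)) := by
    intro k
    rw [hU, cmp_it, Completion.inner_coe, inner_VB]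
    congr 1
    funext j
    rw [← mn_is S k j]
    congr 2
    apply fn_ext
    intro n
    rw [fn_shi]
    rfl
  have hbd : ∀ k j, ‖(((((Ico (a j) (a j + L j)).filter (fun x => x ∈ S ∧ x + k ∈ S)).card : ℝ) / L j : ℝ) : ℂ)‖ ≤ 1 := by
    intro k j
    rw [Complex.norm_real, Real.norm_eq_abs, abs_of_nonneg (by positivity)]
    have h1 : ((Ico (a j) (a j + L j)).filter (fun x => x ∈ S ∧ x + k ∈ S)).card ≤ L j := by
      refine (card_filter_le _ _).trans ?_
      rw [Nat.card_Ico]; omega
    have h2 : (((Ico (a j) (a j + L j)).filter (fun x => x ∈ S ∧ x + k ∈ S)).card : ℝ) ≤ L j := by exact_mod_cast h1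
    exact div_le_one_of_le₀ h2 (by positivity)
  have hfn : ‖(f : Completion (VB a L))‖ ≤ 1 := by
    have h1 := inner_self_eq_norm_sq (𝕜 := ℂ) (f : Completion (VB a L))
    have h2 := hcor 0
    rw [Function.iterate_zero_apply] at h2
    rw [h2] at h1
    have h3 : ‖ul (fun j => (((((Ico (a j) (a j + L j)).filter (fun x => x ∈ S ∧ x + 0 ∈ S)).card : ℝ) / L j : ℝ) : ℂ))‖ ≤ 1 :=
      le_of_tendsto' (ul_tendsto _ 1 (hbd 0)).norm (hbd 0)
    have h4 : ‖(f : Completion (VB a L))‖ ^ 2 ≤ 1 := by
      rw [← h1]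
      exact (RCLike.re_le_norm _).trans h3
    nlinarith [norm_nonneg (f : Completion (VB a L))]
  have hof : d ≤ ‖inner ℂ (o : Completion (VB a L)) (f : Completion (VB a L))‖ := by
    rw [Completion.inner_coe, inner_VB]
    refine ge_of_tendsto (pp_tendsto o f).norm ?_
    filter_upwards [hL1] with j hj
    have h0 : (0 : ℝ) < L j := by exact_mod_cast (by omega : 0 < L j)
    have h1 : mn a L (pp o f) j = (((((Ico (a j) (a j + L j)).filter (fun x => x ∈ S)).card : ℝ) / L j : ℝ) : ℂ) := by
      unfold mn pp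
      have h2 : ∑ x ∈ range (L j), (starRingEnd ℂ) (fn o (a j + x)) * fn f (a j + x) =
          (((Ico (a j) (a j + L j)).filter (fun x => x ∈ S)).card : ℂ) := by
        have h3 := sum_Ico_eq_sum_range (fun x => if x ∈ S then (1 : ℂ) else 0) (a j) (a j + L j)
        rw [Nat.add_sub_cancel_left] at h3
        have h4 : ∀ x ∈ range (L j), (starRingEnd ℂ) (fn o (a j + x)) * fn f (a j + x) =
            if a j + x ∈ S then (1 : ℂ) else 0 := by
          intro x _
          rw [ho, hf]
          unfold is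
          simp only [fn_mk, map_one, one_mul]
        rw [sum_congr rfl h4, ← h3, ← sum_filter, sum_const, nsmul_eq_mul, mul_one]
      rw [h2]
      push_cast
      ring
    rw [h1, Complex.norm_real, Real.norm_eq_abs, abs_of_nonneg (by positivity), le_div_iff₀ h0]
    exact hS j
  obtain ⟨κ, hκ, r1, r2⟩ := recur_count hALL U (f : Completion (VB a L)) (o : Completion (VB a L)) hUo hon hfn ε hε
  have key : ∀ k : ℕ, ‖inner ℂ (o : Completion (VB a L)) (f : Completion (VB a L))‖ ^ 2 - ε <
      (inner ℂ (f : Completion (VB a L)) (U^[k] (f : Completion (VB a L)))).re →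
      ∃ᶠ j in atTop, (d ^ 2 - ε) * L j <
        (((Ico (a j) (a j + L j)).filter (fun s => s ∈ S ∧ s + k ∈ S)).card : ℝ) := by
    intro k hk
    rw [hcor] at hk
    have h1 := (Complex.continuous_re.tendsto _).comp (ul_tendsto _ 1 (hbd k))
    have h2 : d ^ 2 - ε < (ul (fun j => (((((Ico (a j) (a j + L j)).filter (fun x => x ∈ S ∧ x + k ∈ S)).card : ℝ) / L j : ℝ) : ℂ))).re := by
      have h3 : d ^ 2 ≤ ‖inner ℂ (o : Completion (VB a L)) (f : Completion (VB a L))‖ ^ 2 := by gcongr
      linarith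
    have h4 := (h1.eventually (Ioi_mem_nhds h2)).and hL1
    refine (h4.frequently).filter_mono Nat.hyperfilter_le_atTop |>.mono ?_
    rintro j ⟨h5, h6⟩
    have h0 : (0 : ℝ) < L j := by exact_mod_cast (by omega : 0 < L j)
    have h7 : d ^ 2 - ε < (((Ico (a j) (a j + L j)).filter (fun x => x ∈ S ∧ x + k ∈ S)).card : ℝ) / L j := h5
    rwa [lt_div_iff₀ h0] at h7
  refine ⟨κ, hκ, AW_mono r1 0 ?_, AW_mono r2 0 ?_⟩
  · intro N n x y _ _ _ _ h
    refine h.trans ?_
    apply mul_le_mul_of_nonneg_left _ (Real.log_natCast_nonneg n)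
    have : ((pr x y).filter (fun p => ‖inner ℂ (o : Completion (VB a L)) (f : Completion (VB a L))‖ ^ 2 - ε <
      (inner ℂ (f : Completion (VB a L)) (U^[p - 1] (f : Completion (VB a L)))).re)) ⊆ (pr x y).filter (fun p =>
      ∃ᶠ j in atTop, (d ^ 2 - ε) * L j <
        (((Ico (a j) (a j + L j)).filter (fun s => s ∈ S ∧ s + (p - 1) ∈ S)).card : ℝ)) := by
      intro p hp
      rw [mem_filter] at hp ⊢
      exact ⟨hp.1, key _ hp.2⟩
    exact_mod_cast card_le_card this
  · intro N n x y _ _ _ _ h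
    refine h.trans ?_
    apply mul_le_mul_of_nonneg_left _ (Real.log_natCast_nonneg n)
    have : ((pr x y).filter (fun p => ‖inner ℂ (o : Completion (VB a L)) (f : Completion (VB a L))‖ ^ 2 - ε <
      (inner ℂ (f : Completion (VB a L)) (U^[p + 1] (f : Completion (VB a L)))).re)) ⊆ (pr x y).filter (fun p =>
      ∃ᶠ j in atTop, (d ^ 2 - ε) * L j <
        (((Ico (a j) (a j + L j)).filter (fun s => s ∈ S ∧ s + (p + 1) ∈ S)).card : ℝ)) := by
      intro p hp
      rw [mem_filter] at hp ⊢
      exact ⟨hp.1, key _ hp.2⟩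
    exact_mod_cast card_le_card this

end fur

end Pool.Agent.Run7.h591.EG
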